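import Mathlib

set_option autoImplicit false
set_option linter.unusedSectionVars false

open MeasureTheory Measure Set

namespace Pool.Agent.T2H03.YM

section haar

variable {G : Type*} [Group G] [TopologicalSpace G] [IsTopologicalGroup G] [CompactSpace G]
  [T2Space G] [SecondCountableTopology G] [MeasurableSpace G] [BorelSpace G]
  (μ : Measure G) [IsProbabilityMeasure μ] [μ.IsHaarMeasure]

theorem haar_right : μ.IsMulRightInvariant := by
  refine ⟨fun g => ?_⟩
  have h1 : (μ.map (fun x => x * g)).IsMulLeftInvariant := by
    constructor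
    intro a
    rw [Measure.map_map (by fun_prop) (by fun_prop)]
    have : (fun x : G => a * x) ∘ (fun x => x * g) = (fun x => x * g) ∘ (fun x => a * x) := by
      funext x; simp [mul_assoc]
    rw [this, ← Measure.map_map (by fun_prop) (by fun_prop), map_mul_left_eq_self]
  have h2 : IsProbabilityMeasure (μ.map (fun x => x * g)) :=
    Measure.isProbabilityMeasure_map (by fun_prop)
  have h3 : (μ.map (fun x => x * g)).IsHaarMeasure := by
    refine Measure.isHaarMeasure_of_isCompact_nonempty_interior _ univ isCompact_univ (by simp) ?_ ?_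
    · simp
    · simp
  exact Measure.isHaarMeasure_eq_of_isProbabilityMeasure _ _

theorem haar_inv : μ.IsInvInvariant := by
  have hr := haar_right μ
  refine ⟨?_⟩
  have h1 : (μ.map (fun x => x⁻¹)).IsMulLeftInvariant := by
    constructor
    intro a
    rw [Measure.map_map (by fun_prop) (by fun_prop)]
    have : (fun x : G => a * x) ∘ (fun x => x⁻¹) = (fun x => x⁻¹) ∘ (fun x => x * a⁻¹) := by
      funext x; simp
    rw [this, ← Measure.map_map (by fun_prop) (by fun_prop), map_mul_right_eq_self]
  have h2 : IsProbabilityMeasure (μ.map (fun x => x⁻¹)) :=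
    Measure.isProbabilityMeasure_map (by fun_prop)
  have h3 : (μ.map (fun x => x⁻¹)).IsHaarMeasure := by
    refine Measure.isHaarMeasure_of_isCompact_nonempty_interior _ univ isCompact_univ (by simp) ?_ ?_
    · simp
    · simp
  have h4 : μ.map (fun x => x⁻¹) = μ := Measure.isHaarMeasure_eq_of_isProbabilityMeasure _ _
  exact h4

end haar

section prodinv

variable {G : Type*} [Group G] [MeasurableSpace G] [MeasurableInv G] (μ : Measure G)
  [IsProbabilityMeasure μ] [μ.IsInvInvariant]

instance prodInv : (μ.prod μ).IsInvInvariant := by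
  refine ⟨?_⟩
  have : (fun x : G × G => x⁻¹) = Prod.map (fun x => x⁻¹) (fun x => x⁻¹) := by
    funext x; rfl
  show Measure.map (fun x : G × G => x⁻¹) (μ.prod μ) = _
  rw [this, ← Measure.map_prod_map _ _ (by fun_prop) (by fun_prop)]
  have h := Measure.map_inv_eq_self μ
  change Measure.map (fun x => x⁻¹) μ = μ at h
  rw [h]

end prodinv

end Pool.Agent.T2H03.YM
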