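import Mathlib
import Pool.Agent.T2H03.YM.Haar

/-!
# Integration over the link variables
-/

set_option autoImplicit false
set_option linter.unusedSectionVars false

open MeasureTheory Measure Set

namespace Pool.Agent.T2H03.YM

section gen

variable {L H Q : Type*} [Group H] [MeasurableSpace H] [MeasurableMul₂ H] [MeasurableInv H]
  (ν : Measure H) [IsProbabilityMeasure ν]

/-- the product measure on the configurations -/
noncomputable abbrev PP (L : Type*) {H : Type*} [MeasurableSpace H] (ν : Measure H)
    [IsProbabilityMeasure ν] : Measure (L → H) :=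
  infinitePi (fun _ : L => ν)

theorem mp_coord {X : Type*} [MeasurableSpace X] (ν : Measure X) [IsProbabilityMeasure ν]
    (f : L → X → X) (hf : ∀ l, MeasurePreserving (f l) ν ν) :
    MeasurePreserving (fun (U : L → X) l => f l (U l)) (PP L ν) (PP L ν) := by
  refine ⟨measurable_pi_lambda _ fun l => (hf l).measurable.comp (measurable_pi_apply l), ?_⟩
  rw [infinitePi_map_pi _ (fun l => (hf l).measurable)]
  congr 1
  funext l
  exact (hf l).map_eq

variable [ν.IsMulLeftInvariant] [ν.IsMulRightInvariant] [ν.IsInvInvariant]

theorem mp_update [DecidableEq L] (l : L) (g : H) :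
    MeasurePreserving (fun U : L → H => Function.update U l (U l * g)) (PP L ν) (PP L ν) := by
  have h := mp_coord ν (fun k : L => if k = l then (fun x => x * g) else id) (fun k => by
    split_ifs
    · exact measurePreserving_mul_right ν g
    · exact MeasurePreserving.id ν)
  convert h using 1
  funext U k
  by_cases hk : k = l
  · subst hk; simp
  · simp [hk]

/-- the holonomy depends on the variable of the link `l` through a product of the form
`a g b` or `a g⁻¹ b` -/
def Tw [DecidableEq L] (hol : (L → H) → H) (l : L) : Prop :=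
  ∀ U : L → H, (∃ a b : H, ∀ g : H, hol (Function.update U l (U l * g)) = a * g * b) ∨
    (∃ a b : H, ∀ g : H, hol (Function.update U l (U l * g)) = a * g⁻¹ * b)

theorem int_shift (w : H → ℝ) (a b : H) : ∫ g, w (a * g * b) ∂ν = ∫ g, w g ∂ν := by
  rw [integral_mul_left_eq_self (fun g => w (g * b)) a, integral_mul_right_eq_self w b]

theorem int_shift' (w : H → ℝ) (a b : H) : ∫ g, w (a * g⁻¹ * b) ∂ν = ∫ g, w g ∂ν := by
  rw [integral_inv_eq_self (fun g => w (a * g * b)) ν]
  exact int_shift ν w a b

/-- integration of one link variable -/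
theorem int_one [DecidableEq L] (l : L) (f : (L → H) → ℝ) (hf : Measurable f) (Cf : ℝ) (hCf : ∀ U, |f U| ≤ Cf)
    (hdep : DependsOn f {l}ᶜ) (hol : (L → H) → H) (hhol : Measurable hol) (htw : Tw hol l)
    (w : H → ℝ) (hw : Measurable w) (Cw : ℝ) (hCw : ∀ g, |w g| ≤ Cw) :
    ∫ U, f U * w (hol U) ∂(PP L ν) = (∫ U, f U ∂(PP L ν)) * ∫ g, w g ∂ν := by
  have hup : Measurable (fun p : H × (L → H) => Function.update p.2 l (p.2 l * p.1)) := by
    refine measurable_pi_lambda _ fun k => ?_
    by_cases hk : k = l
    · subst hk
      simp only [Function.update_self]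
      fun_prop
    · simp only [Function.update_of_ne hk]
      fun_prop
  have hfu : ∀ (U : L → H) (g : H), f (Function.update U l (U l * g)) = f U := by
    intro U g
    apply hdep
    intro k hk
    have : k ≠ l := hk
    simp [Function.update_of_ne this]
  have h1 : ∀ g : H, ∫ U, f U * w (hol U) ∂(PP L ν) =
      ∫ U, f U * w (hol (Function.update U l (U l * g))) ∂(PP L ν) := by
    intro g
    have hm := mp_update ν l g
    have := integral_map (μ := PP L ν) (φ := fun U : L → H => Function.update U l (U l * g))
      hm.measurable.aemeasurable (f := fun U => f U * w (hol U))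
      ((hf.mul (hw.comp hhol)).aestronglyMeasurable)
    rw [hm.map_eq] at this
    rw [this]
    simp only [hfu]
  have h2 : ∫ U, f U * w (hol U) ∂(PP L ν) =
      ∫ g, (∫ U, f U * w (hol (Function.update U l (U l * g))) ∂(PP L ν)) ∂ν := by
    rw [integral_congr_ae (Filter.Eventually.of_forall fun g => (h1 g).symm)]
    simp
  rw [h2, integral_integral_swap]
  · have h3 : ∀ U : L → H, ∫ g, f U * w (hol (Function.update U l (U l * g))) ∂ν =
        f U * ∫ g, w g ∂ν := by
      intro U
      rw [integral_const_mul]
      congr 1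
      rcases htw U with ⟨a, b, h⟩ | ⟨a, b, h⟩
      · rw [← int_shift ν w a b]
        exact integral_congr_ae (Filter.Eventually.of_forall fun g => by
          show w _ = w _
          rw [h g])
      · rw [← int_shift' ν w a b]
        exact integral_congr_ae (Filter.Eventually.of_forall fun g => by
          show w _ = w _
          rw [h g])
    rw [integral_congr_ae (Filter.Eventually.of_forall h3), integral_mul_const]
  · refine Integrable.of_bound (C := Cf * Cw) ?_ ?_
    · apply Measurable.aestronglyMeasurable
      exact (hf.comp measurable_snd).mul (hw.comp (hhol.comp hup))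
    · refine Filter.Eventually.of_forall fun p => ?_
      simp only [Function.uncurry, norm_mul, Real.norm_eq_abs]
      exact mul_le_mul (hCf _) (hCw _) (abs_nonneg _) ((abs_nonneg _).trans (hCf p.2))

/-- integration of the weights of a collapsible set of plaquettes -/
theorem int_out [DecidableEq L] [DecidableEq Q] (hol : Q → (L → H) → H) (bd : Q → Finset L)
    (hdep : ∀ p, DependsOn (hol p) (bd p : Set L)) (hmeas : ∀ p, Measurable (hol p))
    (w : Q → H → ℝ) (hw : ∀ p, Measurable (w p)) (Cw : ℝ) (hCw : ∀ p g, |w p g| ≤ Cw)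
    (D : Set L) (f : (L → H) → ℝ) (hf : Measurable f) (Cf : ℝ) (hCf : ∀ U, |f U| ≤ Cf)
    (hfD : DependsOn f D) (S : Finset Q) (htw : ∀ p ∈ S, ∀ l ∈ bd p, Tw (hol p) l)
    (hS : ∀ S' ⊆ S, S'.Nonempty → ∃ p ∈ S', ∃ l ∈ bd p, l ∉ D ∧ ∀ q ∈ S', q ≠ p → l ∉ bd q) :
    ∫ U, f U * ∏ p ∈ S, w p (hol p U) ∂(PP L ν) =
      (∫ U, f U ∂(PP L ν)) * ∏ p ∈ S, ∫ g, w p g ∂ν := by
  have hCw0 : 0 ≤ max Cw 1 := le_trans zero_le_one (le_max_right _ _)
  induction hn : S.card generalizing S with
  | zero =>
    rw [Finset.card_eq_zero] at hn
    subst hn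
    simp
  | succ n ih =>
    have hne : S.Nonempty := by
      rw [← Finset.card_pos, hn]; omega
    obtain ⟨p, hp, l, hl, hlD, hq⟩ := hS S (Finset.Subset.refl _) hne
    have hS' : ∀ S' ⊆ S.erase p, S'.Nonempty →
        ∃ p ∈ S', ∃ l ∈ bd p, l ∉ D ∧ ∀ q ∈ S', q ≠ p → l ∉ bd q :=
      fun S' hS' => hS S' (hS'.trans (Finset.erase_subset _ _))
    have ih' := ih (S.erase p) (fun q hq => htw q (Finset.mem_of_mem_erase hq)) hS' (by rw [Finset.card_erase_of_mem hp, hn]; rfl)
    have e1 : ∀ U : L → H, f U * ∏ q ∈ S, w q (hol q U) =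
        (f U * ∏ q ∈ S.erase p, w q (hol q U)) * w p (hol p U) := by
      intro U
      rw [← Finset.mul_prod_erase S (fun q => w q (hol q U)) hp]
      ring
    rw [integral_congr_ae (Filter.Eventually.of_forall e1)]
    have e2 := int_one ν l (fun U => f U * ∏ q ∈ S.erase p, w q (hol q U))
      (hf.mul (Finset.measurable_prod _ fun q _ => (hw q).comp (hmeas q)))
      (Cf * (max Cw 1) ^ (S.erase p).card) (fun U => by
        rw [abs_mul, Finset.abs_prod]
        refine mul_le_mul (hCf U) ?_ (Finset.prod_nonneg fun _ _ => abs_nonneg _)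
          ((abs_nonneg _).trans (hCf U))
        refine (Finset.prod_le_prod (fun _ _ => abs_nonneg _)
          (fun q _ => (hCw q (hol q U)).trans (le_max_left Cw 1))).trans ?_
        rw [Finset.prod_const]) ?_ (hol p) (hmeas p) (htw p hp l hl) (w p) (hw p) Cw (hCw p)
    · rw [e2, ih', ← Finset.mul_prod_erase S (fun q => ∫ g, w q g ∂ν) hp]
      ring
    · intro U U' hUU
      have h1 : f U = f U' := hfD fun k hk => hUU k (by
        simp only [mem_compl_iff, mem_singleton_iff]
        rintro rfl
        exact hlD hk)
      have h2 : ∀ q ∈ S.erase p, hol q U = hol q U' := by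
        intro q hqS
        rw [Finset.mem_erase] at hqS
        apply hdep q
        intro k hk
        apply hUU k
        simp only [mem_compl_iff, mem_singleton_iff]
        rintro rfl
        exact hq q hqS.2 hqS.1 hk
      show f U * _ = f U' * _
      rw [h1, Finset.prod_congr rfl fun q hqS => by rw [h2 q hqS]]

end gen

section two

variable {L G : Type*} [MeasurableSpace G] (μ : Measure G) [IsProbabilityMeasure μ]

open Classical in
/-- exchange of the two copies on the links of `D` -/
noncomputable def sw (D : Set L) (U : L → G × G) (l : L) : G × G :=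
  if l ∈ D then (U l).swap else U l

theorem mp_sw (D : Set L) : MeasurePreserving (sw (G := G) D) (PP L (μ.prod μ)) (PP L (μ.prod μ)) := by
  classical
  have h := mp_coord (μ.prod μ) (fun k : L => if k ∈ D then Prod.swap else id) (fun k => by
    split_ifs
    · exact measurePreserving_swap
    · exact MeasurePreserving.id _)
  convert h using 1
  funext U k
  unfold sw
  split_ifs <;> rfl

/-- an integrand which is odd under the exchange has integral zero -/
theorem int_odd (D : Set L) (f : (L → G × G) → ℝ) (hf : Measurable f)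
    (h : ∀ U, f (sw D U) = - f U) : ∫ U, f U ∂(PP L (μ.prod μ)) = 0 := by
  have hm := mp_sw μ D
  have h1 := integral_map (μ := PP L (μ.prod μ)) (φ := sw D) hm.measurable.aemeasurable (f := f)
    (hf.aestronglyMeasurable)
  rw [hm.map_eq] at h1
  simp only [h] at h1
  rw [integral_neg] at h1
  linarith

/-- the product of two integrals as an integral over two copies -/
theorem two_map : (PP L (μ.prod μ)).map (fun U => (fun l => (U l).1, fun l => (U l).2)) =
    (PP L μ).prod (PP L μ) := by
  have hback : ((PP L μ).prod (PP L μ)).map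
      (fun p : (L → G) × (L → G) => fun l => (p.1 l, p.2 l)) = PP L (μ.prod μ) := by
    refine eq_infinitePi _ fun s t ht => ?_
    have hmeas : Measurable (fun p : (L → G) × (L → G) => fun l => (p.1 l, p.2 l)) := by fun_prop
    rw [map_apply hmeas (.pi s.countable_toSet fun _ _ => ht _)]
    have hr : MeasurePreserving (Prod.map s.restrict s.restrict)
        ((PP L μ).prod (PP L μ))
        ((Measure.pi fun _ : s => μ).prod (Measure.pi fun _ : s => μ)) := by
      refine MeasurePreserving.prod ?_ ?_
      · exact ⟨by fun_prop, infinitePi_map_restrict _⟩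
      · exact ⟨by fun_prop, infinitePi_map_restrict _⟩
    have ha := (measurePreserving_arrowProdEquivProdArrow G G s (fun _ => μ) (fun _ => μ)).symm
    have hc := ha.comp hr
    have hset : (fun p : (L → G) × (L → G) => fun l => (p.1 l, p.2 l)) ⁻¹' (s : Set L).pi t =
        ((MeasurableEquiv.arrowProdEquivProdArrow G G s).symm ∘
          (Prod.map s.restrict s.restrict)) ⁻¹' (Set.univ.pi fun i : s => t i) := by
      ext p
      simp [Set.mem_pi, MeasurableEquiv.arrowProdEquivProdArrow, Equiv.arrowProdEquivProdArrow]
    rw [hset, hc.measure_preimage (MeasurableSet.univ_pi fun i => ht _).nullMeasurableSet,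
      Measure.pi_pi]
    exact Finset.prod_coe_sort s (fun i => (μ.prod μ) (t i))
  rw [← hback, Measure.map_map (by fun_prop) (by fun_prop)]
  exact Measure.map_id

theorem two_int (f g : (L → G) → ℝ) (hf : Measurable f) (hg : Measurable g) :
    ∫ U, f (fun l => (U l).1) * g (fun l => (U l).2) ∂(PP L (μ.prod μ)) =
      (∫ U, f U ∂(PP L μ)) * ∫ U, g U ∂(PP L μ) := by
  rw [← integral_prod_mul, ← two_map μ, integral_map]
  · fun_prop
  · exact ((hf.comp measurable_fst).mul (hg.comp measurable_snd)).aestronglyMeasurable

end two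

end Pool.Agent.T2H03.YM
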