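import Mathlib

/-!
# The planar lemma

`f` is an integer valued function with bounded support on the cells of a plane (directions `a`,
`b`) and `c` is a labelling of the vertices which is constant along every link across which `f`
changes. Then every cell of the support of `f` is trapped by the links of one label.
-/

set_option autoImplicit false
set_option linter.unusedSectionVars false

namespace Pool.Agent.T2H03.YM

/-- the sites of the lattice -/
abbrev V (d : ℕ) := Fin d → ℤ

/-- the unit vector -/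
def e {d : ℕ} (i : Fin d) : V d := Pi.single i 1

theorem e_same {d : ℕ} (i : Fin d) : e i i = 1 := by simp [e]

theorem e_ne {d : ℕ} {i j : Fin d} (h : i ≠ j) : e i j = 0 := by
  simp [e, Pi.single_eq_of_ne (Ne.symm h)]

/-- the cell `x` of the plane `a b` is trapped by the links both of whose ends have the label `κ` -/
def Trap {d : ℕ} {K : Type*} (a b : Fin d) (c : V d → K) (κ : K) (x : V d) : Prop :=
  ∃ h : V d → ℤ, h x ≠ 0 ∧
    (∀ y, h y ≠ h (y - e b) → c y = κ ∧ c (y + e a) = κ) ∧
    (∀ y, h y ≠ h (y - e a) → c y = κ ∧ c (y + e b) = κ) ∧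
    ∃ R : ℤ, ∀ y, (R ≤ y a ∨ R ≤ y b) → h y = 0

theorem Trap.symm {d : ℕ} {K : Type*} {a b : Fin d} {c : V d → K} {κ : K} {x : V d}
    (h : Trap a b c κ x) : Trap b a c κ x := by
  obtain ⟨h, h1, h2, h3, R, h4⟩ := h
  exact ⟨h, h1, h3, h2, R, fun y hy => h4 y hy.symm⟩

theorem Trap.sub {d : ℕ} {K : Type*} {a b : Fin d} {c : V d → K} {κ : K} {x : V d}
    (h : Trap a b c κ x) (hc : ¬ (c x = κ ∧ c (x + e a) = κ)) : Trap a b c κ (x - e b) := by
  obtain ⟨h, h1, h2, h3, R, h4⟩ := h
  refine ⟨h, ?_, h2, h3, R, h4⟩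
  by_contra h5
  exact hc (h2 x (by rw [h5]; exact h1))

theorem Trap.of_sub {d : ℕ} {K : Type*} {a b : Fin d} {c : V d → K} {κ : K} {x : V d}
    (h : Trap a b c κ (x - e b)) (hc : ¬ (c x = κ ∧ c (x + e a) = κ)) : Trap a b c κ x := by
  obtain ⟨h, h1, h2, h3, R, h4⟩ := h
  refine ⟨h, ?_, h2, h3, R, h4⟩
  by_contra h5
  exact hc (h2 x (by rw [h5]; exact h1.symm))

/-- a trapped cell has vertices of the label in its column -/
theorem Trap.up {d : ℕ} {K : Type*} {a b : Fin d} {c : V d → K} {κ : K} {x : V d}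
    (h : Trap a b c κ x) : ∃ n : ℕ, 1 ≤ n ∧ c (x + (n : ℤ) • e b) = κ := by
  obtain ⟨h, h1, h2, h3, R, h4⟩ := h
  have hz : ∃ n : ℕ, h (x + (n : ℤ) • e b) = 0 := by
    refine ⟨(R - x b).toNat, h4 _ (Or.inr ?_)⟩
    simp only [Pi.add_apply, Pi.smul_apply, e_same, smul_eq_mul, mul_one]
    have := Int.self_le_toNat (R - x b)
    omega
  classical
  have hn := Nat.find_spec hz
  have hm : ∀ m < Nat.find hz, h (x + (m : ℤ) • e b) ≠ 0 := fun m hm => Nat.find_min hz hm
  have hpos : 1 ≤ Nat.find hz := by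
    rcases Nat.eq_zero_or_pos (Nat.find hz) with h0 | h0
    · rw [h0] at hn
      simp at hn
      exact absurd hn h1
    · exact h0
  refine ⟨Nat.find hz, hpos, (h2 _ ?_).1⟩
  rw [hn]
  have hp : x + ((Nat.find hz : ℕ) : ℤ) • e b - e b = x + ((Nat.find hz - 1 : ℕ) : ℤ) • e b := by
    rw [Nat.cast_sub hpos]
    push_cast
    rw [sub_smul, one_smul]
    abel
  rw [hp]
  exact (hm _ (by omega)).symm

section planar

variable {d : ℕ} {K : Type*} {a b : Fin d} (hab : a ≠ b) (f : V d → ℤ) (R : ℤ) (c : V d → K)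

open Classical in
/-- the part of the horizontal gradient of `f` with the label `κ` -/
noncomputable def gr (b : Fin d) (f : V d → ℤ) (c : V d → K) (κ : K) (y : V d) : ℤ :=
  if c y = κ then f y - f (y - e b) else 0

/-- the filling of the loops with the label `κ` -/
noncomputable def fil (b : Fin d) (f : V d → ℤ) (R : ℤ) (c : V d → K) (κ : K) (x : V d) : ℤ :=
  - ∑ n ∈ Finset.range (R - x b).toNat, gr b f c κ (x + ((n : ℤ) + 1) • e b)

theorem fil_diff (hR : ∀ y, R ≤ y b → f y = 0) (κ : K) (x : V d) :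
    fil b f R c κ x - fil b f R c κ (x - e b) = gr b f c κ x := by
  unfold fil
  have e1 : (x - e b) b = x b - 1 := by simp [e_same]
  rw [e1]
  by_cases hx : x b ≤ R
  · have e2 : (R - (x b - 1)).toNat = (R - x b).toNat + 1 := by omega
    rw [e2, Finset.sum_range_succ']
    have e3 : ∀ n : ℕ, x - e b + (((n + 1 : ℕ) : ℤ) + 1) • e b = x + ((n : ℤ) + 1) • e b := by
      intro n
      push_cast
      simp only [add_smul, one_smul]
      abel
    have e4 : x - e b + (((0 : ℕ) : ℤ) + 1) • e b = x := by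
      simp
    rw [e4]
    simp only [e3]
    ring
  · have e2 : (R - (x b - 1)).toNat = 0 := by omega
    have e3 : (R - x b).toNat = 0 := by omega
    rw [e2, e3]
    simp only [Finset.range_zero, Finset.sum_empty, neg_zero, sub_zero]
    unfold gr
    have h1 : f x = 0 := hR x (by omega)
    have h2 : f (x - e b) = 0 := hR _ (by rw [e1]; omega)
    rw [h1, h2]
    simp

include hab in
theorem fil_diff' (hR : ∀ y, R ≤ y b → f y = 0)
    (hc1 : ∀ y, f y ≠ f (y - e b) → c y = c (y + e a))
    (hc2 : ∀ y, f y ≠ f (y - e a) → c y = c (y + e b)) (κ : K) (x : V d) :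
    fil b f R c κ x - fil b f R c κ (x - e a) = gr a f c κ x := by
  classical
  have key : ∀ y, gr b f c κ y - gr b f c κ (y - e a) = gr a f c κ y - gr a f c κ (y - e b) := by
    intro y
    have k1 : gr b f c κ (y - e a) = if c y = κ then f (y - e a) - f (y - e a - e b) else 0 := by
      unfold gr
      by_cases h : f (y - e a) = f (y - e a - e b)
      · rw [h]; simp
      · have := hc1 (y - e a) h
        rw [sub_add_cancel] at this
        rw [this]
    have k2 : gr a f c κ (y - e b) = if c y = κ then f (y - e b) - f (y - e b - e a) else 0 := by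
      unfold gr
      by_cases h : f (y - e b) = f (y - e b - e a)
      · rw [h]; simp
      · have := hc2 (y - e b) h
        rw [sub_add_cancel] at this
        rw [this]
    rw [k1, k2]
    unfold gr
    have : y - e a - e b = y - e b - e a := by abel
    rw [this]
    split_ifs <;> ring
  unfold fil
  have e1 : (x - e a) b = x b := by simp [e_ne hab]
  rw [e1]
  set N := (R - x b).toNat with hN
  have e2 : ∀ n : ℕ, gr b f c κ (x + ((n : ℤ) + 1) • e b) -
      gr b f c κ (x - e a + ((n : ℤ) + 1) • e b) =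
      gr a f c κ (x + ((n + 1 : ℕ) : ℤ) • e b) - gr a f c κ (x + (n : ℤ) • e b) := by
    intro n
    have h1 : x - e a + ((n : ℤ) + 1) • e b = (x + ((n : ℤ) + 1) • e b) - e a := by abel
    rw [h1, key]
    congr 1
    congr 1
    rw [add_smul, one_smul]
    abel
  have e3 : ∑ n ∈ Finset.range N, (gr b f c κ (x + ((n : ℤ) + 1) • e b) -
      gr b f c κ (x - e a + ((n : ℤ) + 1) • e b)) =
      gr a f c κ (x + (N : ℤ) • e b) - gr a f c κ x := by
    rw [Finset.sum_congr rfl (fun n _ => e2 n),
      Finset.sum_range_sub (fun n : ℕ => gr a f c κ (x + (n : ℤ) • e b))]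
    simp
  have e4 : gr a f c κ (x + (N : ℤ) • e b) = 0 := by
    unfold gr
    have h1 : R ≤ (x + (N : ℤ) • e b) b := by
      simp only [Pi.add_apply, Pi.smul_apply, e_same, smul_eq_mul, mul_one]
      have := Int.self_le_toNat (R - x b)
      omega
    have h2 : R ≤ (x + (N : ℤ) • e b - e a) b := by
      rw [Pi.sub_apply, e_ne hab, sub_zero]
      exact h1
    rw [hR _ h1, hR _ h2]
    simp
  rw [e4] at e3
  rw [Finset.sum_sub_distrib] at e3
  linarith

include hab in
/-- **The planar lemma.** -/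
theorem planar (hR : ∀ y, (R ≤ y a ∨ R ≤ y b) → f y = 0)
    (hc1 : ∀ y, f y ≠ f (y - e b) → c y = c (y + e a))
    (hc2 : ∀ y, f y ≠ f (y - e a) → c y = c (y + e b)) (x : V d) (hx : f x ≠ 0) :
    ∃ κ, Trap a b c κ x := by
  classical
  have hRb : ∀ y, R ≤ y b → f y = 0 := fun y hy => hR y (Or.inr hy)
  have hκ : ∃ κ, fil b f R c κ x ≠ 0 := by
    by_contra hcon
    push Not at hcon
    set N := (R - x b).toNat with hN
    have h1 : ∑ n ∈ Finset.range N, (f (x + ((n + 1 : ℕ) : ℤ) • e b) - f (x + (n : ℤ) • e b)) =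
        - f x := by
      rw [Finset.sum_range_sub (fun n : ℕ => f (x + (n : ℤ) • e b))]
      have : f (x + (N : ℤ) • e b) = 0 := by
        apply hRb
        simp only [Pi.add_apply, Pi.smul_apply, e_same, smul_eq_mul, mul_one]
        have := Int.self_le_toNat (R - x b)
        omega
      rw [this]
      simp
    have h2 : ∀ n : ℕ, f (x + ((n + 1 : ℕ) : ℤ) • e b) - f (x + (n : ℤ) • e b) =
        f (x + ((n : ℤ) + 1) • e b) - f (x + ((n : ℤ) + 1) • e b - e b) := by
      intro n
      congr 2
      rw [add_smul, one_smul]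
      abel
    rw [Finset.sum_congr rfl (fun n _ => h2 n)] at h1
    have h3 := Finset.sum_fiberwise_of_maps_to
      (s := Finset.range N) (t := (Finset.range N).image fun n : ℕ => c (x + ((n : ℤ) + 1) • e b))
      (g := fun n : ℕ => c (x + ((n : ℤ) + 1) • e b))
      (fun n hn => Finset.mem_image_of_mem _ hn)
      (fun n : ℕ => f (x + ((n : ℤ) + 1) • e b) - f (x + ((n : ℤ) + 1) • e b - e b))
    rw [h1] at h3
    have h4 : ∀ κ, ∑ n ∈ (Finset.range N).filter (fun n : ℕ => c (x + ((n : ℤ) + 1) • e b) = κ),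
        (f (x + (((n : ℕ) : ℤ) + 1) • e b) - f (x + (((n : ℕ) : ℤ) + 1) • e b - e b)) = 0 := by
      intro κ
      rw [Finset.sum_filter]
      have h5 := hcon κ
      unfold fil at h5
      rw [← hN] at h5
      unfold gr at h5
      linarith
    rw [Finset.sum_congr rfl (fun κ _ => h4 κ)] at h3
    simp at h3
    exact hx h3
  obtain ⟨κ, hκ⟩ := hκ
  refine ⟨κ, fil b f R c κ, hκ, ?_, ?_, R + 1, ?_⟩
  · intro y hy
    have h1 := fil_diff f R c hRb κ y
    have h2 : gr b f c κ y ≠ 0 := by
      rw [← h1]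
      exact sub_ne_zero.2 hy
    unfold gr at h2
    by_cases h3 : c y = κ
    · rw [if_pos h3] at h2
      exact ⟨h3, (hc1 y (sub_ne_zero.1 h2)) ▸ h3⟩
    · rw [if_neg h3] at h2
      exact absurd rfl h2
  · intro y hy
    have h1 := fil_diff' hab f R c hRb hc1 hc2 κ y
    have h2 : gr a f c κ y ≠ 0 := by
      rw [← h1]
      exact sub_ne_zero.2 hy
    unfold gr at h2
    by_cases h3 : c y = κ
    · rw [if_pos h3] at h2
      exact ⟨h3, (hc2 y (sub_ne_zero.1 h2)) ▸ h3⟩
    · rw [if_neg h3] at h2
      exact absurd rfl h2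
  · intro y hy
    rcases hy with hy | hy
    · unfold fil
      rw [neg_eq_zero]
      apply Finset.sum_eq_zero
      intro n _
      unfold gr
      have h1 : f (y + ((n : ℤ) + 1) • e b) = 0 := by
        apply hR
        left
        simp only [Pi.add_apply, Pi.smul_apply, e_ne hab.symm, smul_eq_mul, mul_zero, add_zero]
        omega
      have h2 : f (y + ((n : ℤ) + 1) • e b - e b) = 0 := by
        apply hR
        left
        simp only [Pi.add_apply, Pi.sub_apply, Pi.smul_apply, e_ne hab.symm, smul_eq_mul, mul_zero,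
          add_zero, sub_zero]
        omega
      rw [h1, h2]
      simp
    · unfold fil
      have : (R - y b).toNat = 0 := by omega
      rw [this]
      simp

end planar

end Pool.Agent.T2H03.YM
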