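import Mathlib
import Pool.Agent.T2H03.YM.Planar
import Pool.Agent.T2H03.YM.Meas

/-!
# The lattice: links, plaquettes, hulls
-/

set_option autoImplicit false
set_option linter.unusedSectionVars false

open MeasureTheory Measure Set

namespace Pool.Agent.T2H03.YM

/-- the link `(x, i)` joins `x` and `x + e i` -/
abbrev Lk (d : ℕ) := V d × Fin d

/-- the plaquette `(x, i, j)` -/
abbrev Pq (d : ℕ) := V d × Fin d × Fin d

variable {d : ℕ}

/-- the holonomy of a plaquette -/
def hol {H : Type*} [Group H] (p : Pq d) (U : Lk d → H) : H :=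
  U (p.1, p.2.1) * U (p.1 + e p.2.1, p.2.2) * (U (p.1 + e p.2.2, p.2.1))⁻¹ * (U (p.1, p.2.2))⁻¹

/-- the links of a plaquette -/
def bd (p : Pq d) : Finset (Lk d) :=
  {(p.1, p.2.1), (p.1 + e p.2.1, p.2.2), (p.1 + e p.2.2, p.2.1), (p.1, p.2.2)}

theorem mem_bd {p : Pq d} {l : Lk d} : l ∈ bd p ↔ l = (p.1, p.2.1) ∨ l = (p.1 + e p.2.1, p.2.2) ∨
    l = (p.1 + e p.2.2, p.2.1) ∨ l = (p.1, p.2.2) := by
  simp [bd]

/-- the vertices of a plaquette -/
def vt (p : Pq d) : Finset (V d) :=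
  {p.1, p.1 + e p.2.1, p.1 + e p.2.2, p.1 + e p.2.1 + e p.2.2}

theorem mem_vt {p : Pq d} {v : V d} : v ∈ vt p ↔ v = p.1 ∨ v = p.1 + e p.2.1 ∨
    v = p.1 + e p.2.2 ∨ v = p.1 + e p.2.1 + e p.2.2 := by
  simp [vt]

theorem bd_vt {p : Pq d} {l : Lk d} (h : l ∈ bd p) : l.1 ∈ vt p ∧ l.1 + e l.2 ∈ vt p := by
  rw [mem_bd] at h
  rw [mem_vt, mem_vt]
  rcases h with rfl | rfl | rfl | rfl
  · simp
  · simp
  · simp only [true_or, or_true, true_and]
    right; right; right
    abel
  · simp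

theorem add_e_ne (x : V d) (i : Fin d) : x + e i ≠ x := by
  intro h
  have : (x + e i) i = x i := by rw [h]
  simp [e_same] at this

section group

variable {H : Type*} [Group H]

theorem hol_dep (p : Pq d) : DependsOn (hol (H := H) p) (bd p : Set (Lk d)) := by
  intro U U' h
  unfold hol
  rw [h (p.1, p.2.1) (by simp [bd]), h (p.1 + e p.2.1, p.2.2) (by simp [bd]),
    h (p.1 + e p.2.2, p.2.1) (by simp [bd]), h (p.1, p.2.2) (by simp [bd])]

theorem hol_meas [MeasurableSpace H] [MeasurableMul₂ H] [MeasurableInv H] (p : Pq d) :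
    Measurable (hol (H := H) p) := by
  unfold hol
  fun_prop

theorem hol_tw (p : Pq d) (hp : p.2.1 ≠ p.2.2) (l : Lk d) (hl : l ∈ bd p) :
    Tw (hol (H := H) p) l := by
  obtain ⟨x, i, j⟩ := p
  simp only at hp
  have n1 : ∀ y z : V d, (y, i) ≠ (z, j) := fun y z h => hp (Prod.ext_iff.1 h).2
  have n2 : ∀ y z : V d, (y, j) ≠ (z, i) := fun y z h => hp (Prod.ext_iff.1 h).2.symm
  have n3 : ∀ k : Fin d, (x + e j, k) ≠ (x, k) := fun k h => add_e_ne x j (Prod.ext_iff.1 h).1
  have n4 : ∀ k : Fin d, (x + e i, k) ≠ (x, k) := fun k h => add_e_ne x i (Prod.ext_iff.1 h).1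
  rw [mem_bd] at hl
  intro U
  rcases hl with rfl | rfl | rfl | rfl
  · left
    refine ⟨U (x, i), U (x + e i, j) * (U (x + e j, i))⁻¹ * (U (x, j))⁻¹, fun g => ?_⟩
    simp only [hol, Function.update_self, Function.update_of_ne (n2 _ _),
      Function.update_of_ne (n3 _)]
    group
  · left
    refine ⟨U (x, i) * U (x + e i, j), (U (x + e j, i))⁻¹ * (U (x, j))⁻¹, fun g => ?_⟩
    simp only [hol, Function.update_self, Function.update_of_ne (n1 _ _),
      Function.update_of_ne (n4 _).symm]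
    group
  · right
    refine ⟨U (x, i) * U (x + e i, j), (U (x + e j, i))⁻¹ * (U (x, j))⁻¹, fun g => ?_⟩
    simp only [hol, Function.update_self, Function.update_of_ne (n2 _ _),
      Function.update_of_ne (n3 _).symm]
    group
  · right
    refine ⟨U (x, i) * U (x + e i, j) * (U (x + e j, i))⁻¹, (U (x, j))⁻¹, fun g => ?_⟩
    simp only [hol, Function.update_self, Function.update_of_ne (n1 _ _),
      Function.update_of_ne (n4 _)]
    group

end group

/-- the plaquettes of the sheets -/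
def Sheet (m : Fin d → Fin d) (p : Pq d) : Prop := p.2.1 < p.2.2 ∧ m p.2.1 = p.2.2

section hull

variable {K : Type*} (m : Fin d → Fin d) (c : V d → K)

/-- both ends of the link have the label `κ` -/
def InE (κ : K) (l : Lk d) : Prop := c l.1 = κ ∧ c (l.1 + e l.2) = κ

/-- the plaquette is trapped by the links of label `κ` -/
def TrapP (κ : K) (p : Pq d) : Prop := Trap p.2.1 p.2.2 c κ p.1

/-- the link belongs to the hull of `κ` -/
def Hull (κ : K) (l : Lk d) : Prop :=
  InE c κ l ∨ (m l.2 ≠ l.2 ∧ (Trap l.2 (m l.2) c κ l.1 ∨ Trap l.2 (m l.2) c κ (l.1 - e (m l.2))))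

variable {m c}

theorem bd_hull (hm : ∀ i, m (m i) = i) {κ : K} {p : Pq d} (hp : Sheet m p) (ht : TrapP c κ p)
    {l : Lk d} (hl : l ∈ bd p) : Hull m c κ l := by
  obtain ⟨x, i, j⟩ := p
  obtain ⟨h1, h2⟩ := hp
  simp only at h1 h2
  subst h2
  have h3 : m (m i) = i := hm i
  have h4 : m i ≠ i := h1.ne'
  unfold TrapP at ht
  simp only at ht
  rw [mem_bd] at hl
  right
  rcases hl with rfl | rfl | rfl | rfl
  · exact ⟨h4, Or.inl ht⟩
  · refine ⟨by simp only [h3]; exact h4.symm, Or.inr ?_⟩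
    simp only [h3, add_sub_cancel_right]
    exact ht.symm
  · refine ⟨h4, Or.inr ?_⟩
    simp only [add_sub_cancel_right]
    exact ht
  · refine ⟨by simp only [h3]; exact h4.symm, Or.inl ?_⟩
    simp only [h3]
    exact ht.symm

theorem no_hull (hm : ∀ i, m (m i) = i) {κ : K} {p : Pq d} (hp : Sheet m p) (ht : ¬ TrapP c κ p)
    {l : Lk d} (hl : l ∈ bd p) (hE : ¬ InE c κ l) : ¬ Hull m c κ l := by
  obtain ⟨x, i, j⟩ := p
  obtain ⟨h1, h2⟩ := hp
  simp only at h1 h2
  subst h2
  have h3 : m (m i) = i := hm i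
  unfold TrapP at ht
  simp only at ht
  rw [mem_bd] at hl
  intro hh
  rcases hh with hh | ⟨-, hh⟩
  · exact hE hh
  unfold InE at hE
  rcases hl with rfl | rfl | rfl | rfl
  · simp only at hh hE
    rcases hh with hh | hh
    · exact ht hh
    · exact ht (hh.of_sub hE)
  · simp only [h3, add_sub_cancel_right] at hh hE
    rcases hh with hh | hh
    · have := hh.sub hE
      rw [add_sub_cancel_right] at this
      exact ht this.symm
    · exact ht hh.symm
  · simp only [add_sub_cancel_right] at hh hE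
    rcases hh with hh | hh
    · have := hh.sub hE
      rw [add_sub_cancel_right] at this
      exact ht this
    · exact ht hh
  · simp only [h3] at hh hE
    rcases hh with hh | hh
    · exact ht hh.symm
    · exact ht (hh.of_sub hE).symm

/-- the sheet plaquettes which contain the link `(y, i)` -/
theorem sheet_bd (hm : ∀ i, m (m i) = i) {q : Pq d} (hq : Sheet m q) {l : Lk d} (hl : l ∈ bd q)
    {i j : Fin d} (hij : i < j) (hmi : m i = j) (hli : l.2 = i ∨ l.2 = j) :
    q.2 = (i, j) := by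
  obtain ⟨x, i', j'⟩ := q
  obtain ⟨h1, h2⟩ := hq
  simp only at h1 h2
  have hmj : m j = i := by rw [← hmi, hm]
  have hmj' : m j' = i' := by rw [← h2, hm]
  rw [mem_bd] at hl
  have h3 : l.2 = i' ∨ l.2 = j' := by
    rcases hl with rfl | rfl | rfl | rfl <;> simp
  have h4 : i = i' ∨ i = j' := by
    rcases hli with h | h
    · rw [h] at h3; exact h3
    · rw [h] at h3
      rcases h3 with h3 | h3
      · right; rw [← hmj, h3, h2]
      · left; rw [← hmj, h3, hmj']
  rcases h4 with h4 | h4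
  · subst h4
    simp only [Prod.mk.injEq, true_and]
    rw [← h2, hmi]
  · exfalso
    subst h4
    rw [hmj'] at hmi
    subst hmi
    exact absurd hij (not_lt.2 h1.le)

/-- an untrapped set of sheet plaquettes has a free link -/
theorem exists_free (hm : ∀ i, m (m i) = i) (S : Finset (Pq d)) (hS : ∀ p ∈ S, Sheet m p)
    (hne : S.Nonempty) (hun : ∀ p ∈ S, ∀ κ, ¬ TrapP c κ p) :
    ∃ p ∈ S, ∃ l ∈ bd p, (∀ κ, ¬ InE c κ l) ∧ ∀ q ∈ S, q ≠ p → l ∉ bd q := by
  classical
  obtain ⟨⟨x₀, i, j⟩, hp₀⟩ := hne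
  obtain ⟨hij, hmi⟩ := hS _ hp₀
  simp only at hij hmi
  have hmj : m j = i := by rw [← hmi, hm]
  set f : V d → ℤ := fun x => if (x, i, j) ∈ S then 1 else 0 with hf
  obtain ⟨M, hM⟩ : ∃ M : ℤ, ∀ z ∈ S.image (fun p => max (p.1 i) (p.1 j)), z ≤ M :=
    Finset.exists_le _
  have hR : ∀ y, (M + 1 ≤ y i ∨ M + 1 ≤ y j) → f y = 0 := by
    intro y hy
    simp only [hf]
    rw [if_neg]
    intro hyS
    have h := hM _ (Finset.mem_image_of_mem _ hyS)
    simp only at h
    have h1 := le_max_left (y i) (y j)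
    have h2 := le_max_right (y i) (y j)
    omega
  have hcon : ¬ ((∀ y, f y ≠ f (y - e j) → c y = c (y + e i)) ∧
      (∀ y, f y ≠ f (y - e i) → c y = c (y + e j))) := by
    rintro ⟨h1, h2⟩
    obtain ⟨κ, hκ⟩ := planar hij.ne f (M + 1) c hR h1 h2 x₀ (by simp [hf, hp₀])
    exact hun _ hp₀ κ hκ
  rw [not_and_or] at hcon
  have hfne : ∀ y z, f y ≠ f z → ((y, i, j) ∈ S ∧ (z, i, j) ∉ S) ∨
      ((y, i, j) ∉ S ∧ (z, i, j) ∈ S) := by
    intro y z h
    simp only [hf] at h
    by_cases h1 : (y, i, j) ∈ S <;> by_cases h2 : (z, i, j) ∈ S <;> simp [h1, h2] at h ⊢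
  rcases hcon with hcon | hcon
  · push Not at hcon
    obtain ⟨y, hy, hcy⟩ := hcon
    have hE : ∀ κ, ¬ InE c κ (y, i) := by
      rintro κ ⟨h1, h2⟩
      simp only at h1 h2
      exact hcy (h1.trans h2.symm)
    have huni : ∀ q ∈ S, (y, i) ∈ bd q → q = (y, i, j) ∨ q = (y - e j, i, j) := by
      intro q hq hl
      have h1 := sheet_bd hm (hS q hq) hl hij hmi (Or.inl rfl)
      obtain ⟨x, ij⟩ := q
      simp only at h1
      subst h1
      rw [mem_bd] at hl
      simp only [Prod.mk.injEq] at hl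
      rcases hl with ⟨h, -⟩ | ⟨h, h'⟩ | ⟨h, -⟩ | ⟨h, h'⟩
      · left; rw [h]
      · exact absurd h' hij.ne
      · right; rw [h, add_sub_cancel_right]
      · exact absurd h' hij.ne
    rcases hfne _ _ hy with ⟨h1, h2⟩ | ⟨h1, h2⟩
    · refine ⟨_, h1, (y, i), by simp [bd], hE, fun q hq hqp hl => ?_⟩
      rcases huni q hq hl with h | h
      · exact hqp h
      · exact h2 (h ▸ hq)
    · refine ⟨_, h2, (y, i), by simp [bd], hE, fun q hq hqp hl => ?_⟩
      rcases huni q hq hl with h | h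
      · exact h1 (h ▸ hq)
      · exact hqp h
  · push Not at hcon
    obtain ⟨y, hy, hcy⟩ := hcon
    have hE : ∀ κ, ¬ InE c κ (y, j) := by
      rintro κ ⟨h1, h2⟩
      simp only at h1 h2
      exact hcy (h1.trans h2.symm)
    have huni : ∀ q ∈ S, (y, j) ∈ bd q → q = (y, i, j) ∨ q = (y - e i, i, j) := by
      intro q hq hl
      have h1 := sheet_bd hm (hS q hq) hl hij hmi (Or.inr rfl)
      obtain ⟨x, ij⟩ := q
      simp only at h1
      subst h1
      rw [mem_bd] at hl
      simp only [Prod.mk.injEq] at hl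
      rcases hl with ⟨h, h'⟩ | ⟨h, -⟩ | ⟨h, h'⟩ | ⟨h, -⟩
      · exact absurd h' hij.ne'
      · right; rw [h, add_sub_cancel_right]
      · exact absurd h' hij.ne'
      · left; rw [h]
    rcases hfne _ _ hy with ⟨h1, h2⟩ | ⟨h1, h2⟩
    · refine ⟨_, h1, (y, j), by simp [bd], hE, fun q hq hqp hl => ?_⟩
      rcases huni q hq hl with h | h
      · exact hqp h
      · exact h2 (h ▸ hq)
    · refine ⟨_, h2, (y, j), by simp [bd], hE, fun q hq hqp hl => ?_⟩
      rcases huni q hq hl with h | h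
      · exact h1 (h ▸ hq)
      · exact hqp h

end hull

end Pool.Agent.T2H03.YM
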