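import Mathlib
import Pool.Agent.T2H03.YM.Lat

/-!
# Clusters of plaquettes and the connected set which joins them
-/

set_option autoImplicit false
set_option linter.unusedSectionVars false

open Relation

namespace Pool.Agent.T2H03.YM

variable {d : ℕ}

/-- the maximum norm of the difference -/
def nd (u v : V d) : ℕ := Finset.univ.sup fun i => (u i - v i).natAbs

theorem nd_le {u v : V d} {n : ℕ} : nd u v ≤ n ↔ ∀ i, (u i - v i).natAbs ≤ n := by
  simp [nd, Finset.sup_le_iff]

theorem le_nd (u v : V d) (i : Fin d) : (u i - v i).natAbs ≤ nd u v := nd_le.1 le_rfl i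

/-- neighbours in the maximum norm -/
def adj (u v : V d) : Prop := ∀ i, (u i - v i).natAbs ≤ 1

theorem adj.symm {u v : V d} (h : adj u v) : adj v u := fun i => by
  have := h i
  omega

/-- one step inside `W` -/
def stp (W : Finset (V d)) (u v : V d) : Prop := adj u v ∧ u ∈ W ∧ v ∈ W

/-- `W` is connected and contains `a` -/
def Conn (a : V d) (W : Finset (V d)) : Prop := a ∈ W ∧ ∀ w ∈ W, ReflTransGen (stp W) a w

theorem stp_mono {W W' : Finset (V d)} (h : W ⊆ W') {u v : V d} (huv : ReflTransGen (stp W) u v) :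
    ReflTransGen (stp W') u v :=
  ReflTransGen.mono (r := stp W) (p := stp W') (fun _ _ h' => ⟨h'.1, h h'.2.1, h h'.2.2⟩) _ _ huv

theorem rtg_symm {α : Type*} {r : α → α → Prop} (hr : ∀ x y, r x y → r y x) {x y : α}
    (h : ReflTransGen r x y) : ReflTransGen r y x := by
  induction h with
  | refl => exact .refl
  | tail _ h ih => exact ih.head (hr _ _ h)

theorem Conn.union [DecidableEq (V d)] {a u : V d} {W W' : Finset (V d)} (h : Conn a W)
    (hu : u ∈ W) (h' : Conn u W') : Conn a (W ∪ W') := by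
  refine ⟨Finset.mem_union_left _ h.1, fun w hw => ?_⟩
  rw [Finset.mem_union] at hw
  rcases hw with hw | hw
  · exact stp_mono Finset.subset_union_left (h.2 w hw)
  · exact (stp_mono Finset.subset_union_left (h.2 u hu)).trans
      (stp_mono Finset.subset_union_right (h'.2 w hw))

theorem exists_path [DecidableEq (V d)] (n : ℕ) (u v : V d) (h : nd u v ≤ n) :
    ∃ P : Finset (V d), Conn u P ∧ v ∈ P ∧ P.card ≤ n + 1 := by
  induction n generalizing v with
  | zero =>
    have : u = v := by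
      funext i
      have := nd_le.1 h i
      omega
    subst this
    exact ⟨{u}, ⟨by simp, fun w hw => by rw [Finset.mem_singleton.1 hw]⟩, by simp, by simp⟩
  | succ n ih =>
    set v' : V d := fun i => v i + Int.sign (u i - v i) with hv'
    have h1 : nd u v' ≤ n := by
      rw [nd_le] at h ⊢
      intro i
      have := h i
      simp only [hv']
      rcases lt_trichotomy (u i - v i) 0 with h2 | h2 | h2
      · rw [Int.sign_eq_neg_one_of_neg h2]; omega
      · rw [h2, Int.sign_zero]; omega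
      · rw [Int.sign_eq_one_of_pos h2]; omega
    have h2 : adj v' v := by
      intro i
      simp only [hv']
      rcases lt_trichotomy (u i - v i) 0 with h2 | h2 | h2
      · rw [Int.sign_eq_neg_one_of_neg h2]; omega
      · rw [h2, Int.sign_zero]; omega
      · rw [Int.sign_eq_one_of_pos h2]; omega
    obtain ⟨P, hP, hvP, hc⟩ := ih v' h1
    refine ⟨insert v P, ⟨Finset.mem_insert_of_mem hP.1, fun w hw => ?_⟩, by simp, ?_⟩
    · rw [Finset.mem_insert] at hw
      rcases hw with rfl | hw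
      · exact (stp_mono (Finset.subset_insert _ _) (hP.2 v' hvP)).tail
          ⟨h2, Finset.mem_insert_of_mem hvP, by simp⟩
      · exact stp_mono (Finset.subset_insert _ _) (hP.2 w hw)
    · exact (Finset.card_insert_le _ _).trans (by omega)

theorem ivt {W : Finset (V d)} {u v : V d} (hu : u ∈ W) (h : ReflTransGen (stp W) u v) (i : Fin d)
    (t : ℤ) (ht : t ∈ Finset.uIcc (u i) (v i)) : ∃ w ∈ W, w i = t := by
  induction h with
  | refl =>
    rw [Finset.uIcc_self, Finset.mem_singleton] at ht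
    exact ⟨u, hu, ht.symm⟩
  | tail _ hbc ih =>
    rename_i b c _
    by_cases h : t ∈ Finset.uIcc (u i) (b i)
    · exact ih h
    · refine ⟨c, hbc.2.2, ?_⟩
      have h1 := hbc.1 i
      rw [Finset.mem_uIcc] at h ht
      omega

theorem nd_card {W : Finset (V d)} {u v : V d} (hu : u ∈ W) (h : ReflTransGen (stp W) u v) :
    nd u v + 1 ≤ W.card := by
  classical
  have h1 : ∀ i, (u i - v i).natAbs + 1 ≤ W.card := by
    intro i
    have h2 : Finset.uIcc (u i) (v i) ⊆ W.image (fun w => w i) := by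
      intro t ht
      obtain ⟨w, hw, hwt⟩ := ivt hu h i t ht
      exact Finset.mem_image.2 ⟨w, hw, hwt⟩
    have h3 := (Finset.card_le_card h2).trans Finset.card_image_le
    rw [Int.card_uIcc] at h3
    omega
  have h4 : 0 < W.card := Finset.card_pos.2 ⟨u, hu⟩
  have h5 : nd u v ≤ W.card - 1 := nd_le.2 fun i => by
    have := h1 i
    omega
  omega

/-- the vertices `u`, `v` belong to a common cell -/
def cell (Y : Finset (Pq d)) (A B : Finset (V d)) (u v : V d) : Prop :=
  (∃ p ∈ Y, u ∈ vt p ∧ v ∈ vt p) ∨ (u ∈ A ∧ v ∈ A) ∨ (u ∈ B ∧ v ∈ B)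

theorem cell.symm {Y : Finset (Pq d)} {A B : Finset (V d)} {u v : V d} (h : cell Y A B u v) :
    cell Y A B v u := by
  rcases h with ⟨p, hp, h1, h2⟩ | h | h
  · exact Or.inl ⟨p, hp, h2, h1⟩
  · exact Or.inr (Or.inl h.symm)
  · exact Or.inr (Or.inr h.symm)

/-- the labels: the classes of vertices connected through cells -/
abbrev Lb (Y : Finset (Pq d)) (A B : Finset (V d)) := Quot (cell Y A B)

/-- the label of a vertex -/
abbrev lab (Y : Finset (Pq d)) (A B : Finset (V d)) (v : V d) : Lb Y A B := Quot.mk _ v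

section lab

variable {Y : Finset (Pq d)} {A B : Finset (V d)}

theorem lab_eq {u v : V d} (h : lab Y A B u = lab Y A B v) : ReflTransGen (cell Y A B) u v := by
  have h1 := Quot.eqvGen_exact h
  clear h
  induction h1 with
  | rel _ _ h => exact .single h
  | refl => exact .refl
  | symm _ _ _ ih => exact rtg_symm (fun _ _ h => h.symm) ih
  | trans _ _ _ _ _ ih1 ih2 => exact ih1.trans ih2

theorem lab_rtg {u v : V d} (h : ReflTransGen (cell Y A B) u v) :
    lab Y A B u = lab Y A B v := by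
  induction h with
  | refl => rfl
  | tail _ h ih => exact ih.trans (Quot.sound h)

theorem vt_adj {p : Pq d} {u v : V d} (hu : u ∈ vt p) (hv : v ∈ vt p) (hp : p.2.1 ≠ p.2.2) :
    adj u v := by
  obtain ⟨x, i, j⟩ := p
  simp only at hp
  intro k
  rw [mem_vt] at hu hv
  simp only at hu hv
  have e1 : e i k = 0 ∨ e i k = 1 := by
    by_cases h : i = k
    · subst h; right; exact e_same i
    · left; exact e_ne h
  have e2 : e j k = 0 ∨ e j k = 1 := by
    by_cases h : j = k
    · subst h; right; exact e_same j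
    · left; exact e_ne h
  have e3 : ¬ (e i k = 1 ∧ e j k = 1) := by
    rintro ⟨h1, h2⟩
    have h3 : i = k := by
      by_contra h
      rw [e_ne h] at h1
      omega
    have h4 : j = k := by
      by_contra h
      rw [e_ne h] at h2
      omega
    exact hp (h3.trans h4.symm)
  rcases hu with rfl | rfl | rfl | rfl <;> rcases hv with rfl | rfl | rfl | rfl <;>
    (try simp only [Pi.add_apply]) <;> omega

open Classical in
/-- the vertices of the cells -/
noncomputable def VV (Y : Finset (Pq d)) (A B : Finset (V d)) : Finset (V d) :=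
  Y.biUnion vt ∪ (A ∪ B)

open Classical in
/-- the vertices of the cells of label `κ` -/
noncomputable def VK (κ : Lb Y A B) : Finset (V d) := (VV Y A B).filter fun v => lab Y A B v = κ

theorem mem_VK {κ : Lb Y A B} {v : V d} : v ∈ VK κ ↔ v ∈ VV Y A B ∧ lab Y A B v = κ := by
  simp [VK]

theorem cell_VV {u v : V d} (h : cell Y A B u v) : u ∈ VV Y A B := by
  classical
  unfold VV
  simp only [Finset.mem_union, Finset.mem_biUnion]
  rcases h with ⟨p, hp, h1, h2⟩ | h | h
  · exact Or.inl ⟨p, hp, h1⟩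
  · exact Or.inr (Or.inl h.1)
  · exact Or.inr (Or.inr h.1)

theorem mem_VK_of_ne {κ : Lb Y A B} {u v : V d} (hu : lab Y A B u = κ) (hv : lab Y A B v = κ)
    (huv : u ≠ v) : u ∈ VK κ := by
  rw [mem_VK]
  refine ⟨?_, hu⟩
  rcases (lab_eq (hu.trans hv.symm)).cases_head with h | ⟨w, hw, -⟩
  · exact absurd h huv
  · exact cell_VV hw

/-- the finite connected sets of vertices -/
def CC (A : Finset (V d)) : Prop := ∀ u ∈ A, ∀ v ∈ A, ReflTransGen (stp A) u v

theorem VK_conn (hY : ∀ p ∈ Y, p.2.1 ≠ p.2.2) (hA : CC A) (hB : CC B) {κ : Lb Y A B} {u : V d}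
    (hu : u ∈ VK κ) : Conn u (VK κ) := by
  classical
  refine ⟨hu, fun w hw => ?_⟩
  rw [mem_VK] at hu hw
  have h := lab_eq (hu.2.trans hw.2.symm)
  clear hw
  induction h with
  | refl => exact .refl
  | tail h1 h2 ih =>
    rename_i b c
    refine ih.trans ?_
    have hb : lab Y A B b = κ := by rw [← lab_rtg h1]; exact hu.2
    have hc : lab Y A B c = κ := by rw [← hb]; exact (Quot.sound h2).symm
    have hbV : b ∈ VK κ := mem_VK.2 ⟨cell_VV h2, hb⟩
    have hcV : c ∈ VK κ := mem_VK.2 ⟨cell_VV h2.symm, hc⟩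
    rcases h2 with ⟨p, hp, h3, h4⟩ | ⟨h3, h4⟩ | ⟨h3, h4⟩
    · exact .single ⟨vt_adj h3 h4 (hY p hp), hbV, hcV⟩
    · refine stp_mono ?_ (hA b h3 c h4)
      intro x hx
      refine mem_VK.2 ⟨?_, ?_⟩
      · unfold VV
        simp [hx]
      · rw [← hb]
        exact (Quot.sound (show cell Y A B b x from Or.inr (Or.inl ⟨h3, hx⟩))).symm
    · refine stp_mono ?_ (hB b h3 c h4)
      intro x hx
      refine mem_VK.2 ⟨?_, ?_⟩
      · unfold VV
        simp [hx]
      · rw [← hb]
        exact (Quot.sound (show cell Y A B b x from Or.inr (Or.inr ⟨h3, hx⟩))).symm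

theorem VK_nd (hY : ∀ p ∈ Y, p.2.1 ≠ p.2.2) (hA : CC A) (hB : CC B) {κ : Lb Y A B} {u v : V d}
    (hu : u ∈ VK κ) (hv : v ∈ VK κ) : nd u v + 1 ≤ (VK κ).card :=
  nd_card hu ((VK_conn hY hA hB hu).2 v hv)

theorem trap_near (hY : ∀ p ∈ Y, p.2.1 ≠ p.2.2) (hA : CC A) (hB : CC B) {κ : Lb Y A B}
    {i j : Fin d} (hij : i ≠ j) {x : V d} (h : Trap i j (lab Y A B) κ x) :
    ∃ n : ℕ, 1 ≤ n ∧ x + (n : ℤ) • e j ∈ VK κ ∧ n + 1 ≤ (VK κ).card := by
  obtain ⟨n, hn, h1⟩ := h.up
  obtain ⟨k, hk, h2⟩ := h.symm.up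
  have c1 : (x + (n : ℤ) • e j) j - (x + (k : ℤ) • e i) j = n := by
    simp only [Pi.add_apply, Pi.smul_apply, e_same, e_ne hij, smul_eq_mul]
    ring
  have hne : x + (n : ℤ) • e j ≠ x + (k : ℤ) • e i := by
    intro h
    rw [h] at c1
    omega
  have m1 := mem_VK_of_ne h1 h2 hne
  have m2 := mem_VK_of_ne h2 h1 hne.symm
  refine ⟨n, hn, m1, ?_⟩
  have h3 := VK_nd hY hA hB m1 m2
  have h4 := le_nd (x + (n : ℤ) • e j) (x + (k : ℤ) • e i) j
  rw [c1] at h4
  omega

variable {m : Fin d → Fin d}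

theorem hull_near (hY : ∀ p ∈ Y, p.2.1 ≠ p.2.2) (hA : CC A) (hB : CC B) {κ : Lb Y A B} {l : Lk d}
    (h : Hull m (lab Y A B) κ l) : ∃ u ∈ VK κ, nd u l.1 + 1 ≤ (VK κ).card := by
  have hsm : ∀ (j : Fin d) (n : ℤ) (k : Fin d), ((n • e j : V d) k).natAbs ≤ n.natAbs := by
    intro j n k
    rw [Pi.smul_apply, smul_eq_mul]
    by_cases hk : j = k
    · subst hk; rw [e_same, mul_one]
    · rw [e_ne hk, mul_zero]; simp
  rcases h with h | ⟨h1, h | h⟩
  · have hm : l.1 ∈ VK κ := mem_VK_of_ne h.1 h.2 (add_e_ne _ _).symm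
    exact ⟨l.1, hm, VK_nd hY hA hB hm hm⟩
  · obtain ⟨n, hn, h2, h3⟩ := trap_near hY hA hB h1.symm h
    refine ⟨_, h2, ?_⟩
    have : nd (l.1 + (n : ℤ) • e (m l.2)) l.1 ≤ n := nd_le.2 fun k => by
      have := hsm (m l.2) n k
      simp only [Pi.add_apply, add_sub_cancel_left]
      simpa using this
    omega
  · obtain ⟨n, hn, h2, h3⟩ := trap_near hY hA hB h1.symm h
    refine ⟨_, h2, ?_⟩
    have : nd (l.1 - e (m l.2) + (n : ℤ) • e (m l.2)) l.1 ≤ n := nd_le.2 fun k => by
      have h4 : l.1 - e (m l.2) + (n : ℤ) • e (m l.2) = l.1 + ((n : ℤ) - 1) • e (m l.2) := by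
        rw [sub_smul, one_smul]; abel
      have := hsm (m l.2) (n - 1) k
      rw [h4]
      simp only [Pi.add_apply, add_sub_cancel_left]
      omega
    omega

/-- two labels whose hulls meet -/
def Rl (m : Fin d → Fin d) (κ κ' : Lb Y A B) : Prop :=
  ∃ l, Hull m (lab Y A B) κ l ∧ Hull m (lab Y A B) κ' l

theorem Rl_near (hY : ∀ p ∈ Y, p.2.1 ≠ p.2.2) (hA : CC A) (hB : CC B) {κ κ' : Lb Y A B}
    (h : Rl m κ κ') : ∃ u ∈ VK κ, ∃ u' ∈ VK κ', nd u u' + 2 ≤ (VK κ).card + (VK κ').card := by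
  obtain ⟨l, h1, h2⟩ := h
  obtain ⟨u, hu, h3⟩ := hull_near hY hA hB h1
  obtain ⟨u', hu', h4⟩ := hull_near hY hA hB h2
  refine ⟨u, hu, u', hu', ?_⟩
  have : nd u u' ≤ nd u l.1 + nd u' l.1 := nd_le.2 fun i => by
    have a1 := le_nd u l.1 i
    have a2 := le_nd u' l.1 i
    omega
  omega

/-- the graph of the labels -/
def KG (m : Fin d → Fin d) : SimpleGraph (Lb Y A B) where
  Adj κ κ' := κ ≠ κ' ∧ Rl m κ κ'
  symm := ⟨fun _ _ h => ⟨h.1.symm, by
    obtain ⟨l, h1, h2⟩ := h.2
    exact ⟨l, h2, h1⟩⟩⟩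
  loopless := ⟨fun _ h => h.1 rfl⟩

theorem walk_set (hY : ∀ p ∈ Y, p.2.1 ≠ p.2.2) (hA : CC A) (hB : CC B) {κ κ' : Lb Y A B}
    (p : (KG (A := A) (B := B) (Y := Y) m).Walk κ κ') :
    ∀ u ∈ VK κ, ∃ W : Finset (V d), Conn u W ∧ (∀ κ₁ ∈ p.support, VK κ₁ ⊆ W) ∧
      W.card + 2 * (VK κ).card ≤ 5 * (p.support.map fun κ₁ => (VK κ₁).card).sum := by
  classical
  induction p with
  | nil =>
    intro u hu
    refine ⟨VK _, VK_conn hY hA hB hu, fun κ₁ h => ?_, ?_⟩
    · simp only [SimpleGraph.Walk.support_nil, List.mem_singleton] at h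
      rw [h]
    · simp only [SimpleGraph.Walk.support_nil, List.map_cons, List.map_nil, List.sum_cons,
        List.sum_nil, add_zero]
      omega
  | cons h p ih =>
    rename_i κ₀ κ₁ κ₂
    intro u hu
    obtain ⟨u₀, hu₀, u₁, hu₁, hd⟩ := Rl_near hY hA hB h.2
    obtain ⟨P, hP, hvP, hPc⟩ := exists_path (nd u₀ u₁) u₀ u₁ le_rfl
    obtain ⟨W, hW, hWs, hWc⟩ := ih u₁ hu₁
    refine ⟨(VK κ₀ ∪ P) ∪ W, ?_, ?_, ?_⟩
    · exact ((VK_conn hY hA hB hu).union hu₀ hP).union (Finset.mem_union_right _ hvP) hW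
    · intro κ₃ h3
      rw [SimpleGraph.Walk.support_cons, List.mem_cons] at h3
      rcases h3 with rfl | h3
      · exact Finset.subset_union_left.trans Finset.subset_union_left
      · exact (hWs κ₃ h3).trans Finset.subset_union_right
    · rw [SimpleGraph.Walk.support_cons, List.map_cons, List.sum_cons]
      have c1 := Finset.card_union_le (VK κ₀ ∪ P) W
      have c2 := Finset.card_union_le (VK κ₀) P
      omega

open Classical in
/-- the plaquettes of `Y` with base point in `W` -/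
noncomputable def YW (Y : Finset (Pq d)) (W : Finset (V d)) : Finset (Pq d) :=
  Y.filter fun p => p.1 ∈ W

theorem sum_card (s : List (Lb Y A B)) (hs : s.Nodup) (W : Finset (V d))
    (hW : ∀ κ ∈ s, VK κ ⊆ W) :
    (s.map fun κ => (VK κ).card).sum ≤ 4 * (YW Y W).card + (A.card + B.card) := by
  classical
  have h1 : (s.map fun κ => (VK κ).card).sum = (s.toFinset.biUnion fun κ => VK κ).card := by
    rw [Finset.card_biUnion, List.sum_toFinset _ hs]
    intro κ _ κ' _ hne
    rw [Function.onFun, Finset.disjoint_left]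
    intro v hv hv'
    rw [mem_VK] at hv hv'
    exact hne (hv.2.symm.trans hv'.2)
  have h2 : (s.toFinset.biUnion fun κ => VK κ) ⊆ (YW Y W).biUnion vt ∪ (A ∪ B) := by
    intro v hv
    rw [Finset.mem_biUnion] at hv
    obtain ⟨κ, hκ, hv⟩ := hv
    rw [List.mem_toFinset] at hκ
    have hv' := hv
    rw [mem_VK] at hv
    obtain ⟨hv1, hv2⟩ := hv
    unfold VV at hv1
    rw [Finset.mem_union] at hv1 ⊢
    rcases hv1 with hv1 | hv1
    · left
      rw [Finset.mem_biUnion] at hv1 ⊢
      obtain ⟨p, hp, hvp⟩ := hv1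
      refine ⟨p, ?_, hvp⟩
      unfold YW
      rw [Finset.mem_filter]
      refine ⟨hp, hW κ hκ ?_⟩
      have h3 : cell Y A B p.1 v := Or.inl ⟨p, hp, by simp [vt], hvp⟩
      exact mem_VK.2 ⟨cell_VV h3, (Quot.sound h3).trans hv2⟩
    · right; exact hv1
  rw [h1]
  refine (Finset.card_le_card h2).trans ((Finset.card_union_le _ _).trans ?_)
  have h3 : ((YW Y W).biUnion vt).card ≤ (YW Y W).card * 4 := by
    refine Finset.card_biUnion_le_card_mul _ _ _ fun p _ => ?_
    unfold vt
    exact Finset.card_le_four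
  have h4 := Finset.card_union_le A B
  omega

/-- the labels of `a` and `b` are connected through hulls -/
def Ev (m : Fin d → Fin d) (A B : Finset (V d)) (a b : V d) (Y : Finset (Pq d)) : Prop :=
  ReflTransGen (Rl (Y := Y) (A := A) (B := B) m) (lab Y A B a) (lab Y A B b)

/-- the connected set -/
theorem ev_set (hY : ∀ p ∈ Y, p.2.1 ≠ p.2.2) (hA : CC A) (hB : CC B) {a b : V d} (ha : a ∈ A)
    (hb : b ∈ B) (h : Ev m A B a b Y) :
    ∃ W : Finset (V d), Conn a W ∧ b ∈ W ∧
      W.card ≤ 20 * (YW Y W).card + 5 * (A.card + B.card) := by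
  classical
  have h0 : ∀ κ κ' : Lb Y A B, ReflTransGen (Rl m) κ κ' →
      (KG (A := A) (B := B) (Y := Y) m).Reachable κ κ' := by
    intro κ κ' h
    induction h with
    | refl => exact SimpleGraph.Reachable.refl _
    | tail _ h ih =>
      rename_i κ κ' _
      by_cases hκ : κ = κ'
      · rw [← hκ]; exact ih
      · refine ih.trans (SimpleGraph.Adj.reachable ?_)
        exact ⟨hκ, h⟩
  have h1 := h0 _ _ h
  obtain ⟨p, hp⟩ := h1.exists_isPath
  have haV : a ∈ VK (lab Y A B a) := mem_VK.2 ⟨by unfold VV; simp [ha], rfl⟩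
  have hbV : b ∈ VK (lab Y A B b) := mem_VK.2 ⟨by unfold VV; simp [hb], rfl⟩
  obtain ⟨W, hW1, hW2, hW3⟩ := walk_set hY hA hB p a haV
  refine ⟨W, hW1, hW2 _ (SimpleGraph.Walk.end_mem_support p) hbV, ?_⟩
  have h2 := sum_card p.support hp.support_nodup W hW2
  omega

end lab

end Pool.Agent.T2H03.YM
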