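import Mathlib
import Pool.Agent.T2H03.YM.Chain

/-!
# The union bound
-/

set_option autoImplicit false
set_option linter.unusedSectionVars false

open Relation

namespace Pool.Agent.T2H03.YM

variable {d : ℕ}

theorem insert_chain {C : Type*} (r : C → C → Prop) (hs : ∀ P Q, r P Q → r Q P)
    (s t : List C) (P R : C) (h : List.IsChain r (s ++ P :: t)) (hR : r P R) :
    List.IsChain r (s ++ P :: R :: P :: t) := by
  rw [List.isChain_append] at h ⊢
  refine ⟨h.1, ?_, ?_⟩
  · rw [List.isChain_cons_cons, List.isChain_cons_cons]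
    exact ⟨hR, hs _ _ hR, h.2.1⟩
  · intro x hx y hy
    exact h.2.2 x hx y (by simpa using hy)

theorem exists_out (Γ S : Finset (V d)) (o Q : V d) (ho : o ∈ S) (hQ : Q ∉ S)
    (h : ReflTransGen (stp Γ) o Q) :
    ∃ P R, P ∈ S ∧ R ∉ S ∧ R ∈ Γ ∧ adj P R := by
  induction h with
  | refl => exact absurd ho hQ
  | tail _ hst ih =>
    rename_i b c _
    by_cases hb : b ∈ S
    · exact ⟨b, c, hb, hQ, hst.2.2, hst.1⟩
    · exact ih hb

theorem exists_walk (o : V d) (Γ : Finset (V d)) (h : Conn o Γ) (k : ℕ) (hk : k + 1 ≤ Γ.card) :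
    ∃ l : List (V d), List.IsChain adj (o :: l) ∧ (o :: l).toFinset ⊆ Γ ∧
      (o :: l).toFinset.card = k + 1 ∧ l.length = 2 * k := by
  induction k with
  | zero =>
    refine ⟨[], by simp, ?_, by simp, by simp⟩
    simpa using h.1
  | succ k ih =>
    obtain ⟨l, h1, h2, h3, h4⟩ := ih (by omega)
    have hlt : (o :: l).toFinset.card < Γ.card := by omega
    obtain ⟨Q, hQ, hQn⟩ := Finset.exists_mem_notMem_of_card_lt_card hlt
    obtain ⟨P, R, hP, hR, hRΓ, hadj⟩ :=
      exists_out Γ (o :: l).toFinset o Q (by simp) hQn (h.2 Q hQ)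
    rw [List.mem_toFinset] at hP
    obtain ⟨s, t, hst⟩ := List.append_of_mem hP
    have h5 := insert_chain adj (fun _ _ h => h.symm) s t P R (hst ▸ h1) hadj
    obtain ⟨l', hl'⟩ : ∃ l', s ++ P :: R :: P :: t = o :: l' := by
      cases s with
      | nil =>
        have : o = P := by simpa using (List.cons_eq_cons.1 hst).1
        exact ⟨R :: P :: t, by rw [this]; rfl⟩
      | cons a s =>
        have : o = a := by simpa using (List.cons_eq_cons.1 hst).1
        exact ⟨s ++ P :: R :: P :: t, by rw [this]; rfl⟩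
    have hset : (o :: l').toFinset = insert R (o :: l).toFinset := by
      rw [← hl', hst]
      ext x
      simp only [List.mem_toFinset, List.mem_append, List.mem_cons, Finset.mem_insert]
      tauto
    refine ⟨l', hl' ▸ h5, ?_, ?_, ?_⟩
    · rw [hset]
      exact Finset.insert_subset hRΓ h2
    · rw [hset, Finset.card_insert_of_notMem hR, h3]
    · have e1 : (s ++ P :: R :: P :: t).length = (o :: l').length := by rw [hl']
      have e2 : (o :: l).length = (s ++ P :: t).length := by rw [hst]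
      simp only [List.length_append, List.length_cons] at e1 e2
      omega

/-- a step of a walk -/
def sv (s : Fin d → Fin 3) : V d := fun i => ((s i : ℕ) : ℤ) - 1

/-- the vertex sets of the walks with `n` steps from `o` -/
def wk : ℕ → V d → Finset (Finset (V d))
  | 0, o => {{o}}
  | n + 1, o => (Finset.univ : Finset (Fin d → Fin 3)).biUnion fun s =>
      (wk n (o + sv s)).image (insert o)

theorem card_wk (n : ℕ) (o : V d) : (wk n o).card ≤ (3 ^ d) ^ n := by
  induction n generalizing o with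
  | zero => simp [wk]
  | succ n ih =>
    rw [wk]
    refine (Finset.card_biUnion_le_card_mul _ _ ((3 ^ d) ^ n) fun s _ =>
      Finset.card_image_le.trans (ih _)).trans ?_
    rw [Finset.card_univ, Fintype.card_fun, Fintype.card_fin, Fintype.card_fin, pow_succ,
      mul_comm]

theorem mem_wk (l : List (V d)) (o : V d) (h : List.IsChain adj (o :: l)) :
    (o :: l).toFinset ∈ wk l.length o := by
  induction l generalizing o with
  | nil => simp [wk]
  | cons Q l ih =>
    rw [List.length_cons, wk, Finset.mem_biUnion]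
    rw [List.isChain_cons_cons] at h
    have hs : ∀ i, (Q i - o i + 1).toNat < 3 := by
      intro i
      have := h.1 i
      omega
    refine ⟨fun i => ⟨(Q i - o i + 1).toNat, hs i⟩, Finset.mem_univ _, ?_⟩
    have hQ : o + sv (fun i => ⟨(Q i - o i + 1).toNat, hs i⟩) = Q := by
      funext i
      have := h.1 i
      simp only [sv, Pi.add_apply]
      omega
    rw [hQ, Finset.mem_image]
    exact ⟨_, ih Q h.2, by simp⟩

theorem conn_wk {o : V d} {Γ : Finset (V d)} (h : Conn o Γ) : Γ ∈ wk (2 * (Γ.card - 1)) o := by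
  have hc : 0 < Γ.card := Finset.card_pos.2 ⟨o, h.1⟩
  obtain ⟨l, h1, h2, h3, h4⟩ := exists_walk o Γ h (Γ.card - 1) (by omega)
  have h5 : (o :: l).toFinset = Γ := Finset.eq_of_subset_of_card_le h2 (by omega)
  rw [← h4]
  have h6 := mem_wk l o h1
  rw [h5] at h6
  exact h6

section bern

variable {Q : Type*} [DecidableEq Q]

/-- the probability of the set `Y` of open elements of `M` -/
def bern (t : Q → ℝ) (M Y : Finset Q) : ℝ := (∏ p ∈ Y, t p) * ∏ p ∈ M \ Y, (1 - t p)

theorem bern_nonneg {t : Q → ℝ} (h0 : ∀ p, 0 ≤ t p) (h1 : ∀ p, t p ≤ 1) (M Y : Finset Q) :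
    0 ≤ bern t M Y :=
  mul_nonneg (Finset.prod_nonneg fun p _ => h0 p)
    (Finset.prod_nonneg fun p _ => sub_nonneg.2 (h1 p))

theorem bern_sup (t : Q → ℝ) (M K : Finset Q) (hK : K ⊆ M) :
    ∑ Y ∈ M.powerset.filter (fun Y => K ⊆ Y), bern t M Y = ∏ p ∈ K, t p := by
  have h := Finset.prod_add (fun p => t p) (fun p => if p ∈ K then 0 else 1 - t p) M
  have h1 : ∏ p ∈ M, (t p + if p ∈ K then 0 else 1 - t p) = ∏ p ∈ K, t p := by
    rw [← Finset.prod_sdiff hK]
    have h2 : ∏ p ∈ M \ K, (t p + if p ∈ K then 0 else 1 - t p) = 1 := by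
      refine Finset.prod_eq_one fun p hp => ?_
      rw [Finset.mem_sdiff] at hp
      rw [if_neg hp.2]
      ring
    rw [h2, one_mul]
    refine Finset.prod_congr rfl fun p hp => ?_
    rw [if_pos hp, add_zero]
  rw [h1] at h
  rw [h, Finset.sum_filter]
  refine Finset.sum_congr rfl fun Y hY => ?_
  rw [Finset.mem_powerset] at hY
  split_ifs with hKY
  · unfold bern
    congr 1
    refine Finset.prod_congr rfl fun p hp => ?_
    rw [Finset.mem_sdiff] at hp
    rw [if_neg fun h => hp.2 (hKY h)]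
  · rw [Finset.not_subset] at hKY
    obtain ⟨p, hpK, hpY⟩ := hKY
    have : ∏ p ∈ M \ Y, (if p ∈ K then 0 else 1 - t p) = 0 :=
      Finset.prod_eq_zero (Finset.mem_sdiff.2 ⟨hK hpK, hpY⟩) (by rw [if_pos hpK])
    rw [this, mul_zero]

theorem bern_sum (t : Q → ℝ) (M : Finset Q) : ∑ Y ∈ M.powerset, bern t M Y = 1 := by
  have := bern_sup t M ∅ (Finset.empty_subset _)
  simpa using this

end bern

theorem cover {ι α : Type*} [DecidableEq α] (s : Finset ι) (T : ι → Finset α) (f : α → ℝ)
    (hf : ∀ x, 0 ≤ f x) (S : Finset α) (hS : ∀ x ∈ S, ∃ i ∈ s, x ∈ T i) :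
    ∑ x ∈ S, f x ≤ ∑ i ∈ s, ∑ x ∈ T i, f x := by
  have h1 : ∀ x ∈ S, f x ≤ ∑ i ∈ s, if x ∈ T i then f x else 0 := by
    intro x hx
    obtain ⟨i, hi, hxi⟩ := hS x hx
    have := Finset.single_le_sum (f := fun i => if x ∈ T i then f x else 0)
      (fun i _ => by
        show (0 : ℝ) ≤ if x ∈ T i then f x else 0
        split_ifs
        · exact hf x
        · exact le_rfl) hi
    simp only [hxi, if_true] at this
    exact this
  refine (Finset.sum_le_sum h1).trans ?_
  rw [Finset.sum_comm]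
  refine Finset.sum_le_sum fun i _ => ?_
  rw [← Finset.sum_filter]
  refine Finset.sum_le_sum_of_subset_of_nonneg ?_ fun x _ _ => hf x
  intro x hx
  exact (Finset.mem_filter.1 hx).2

theorem geo (x : ℝ) (h0 : 0 ≤ x) (h1 : x ≤ 1 / 2) (D N : ℕ) :
    ∑ k ∈ Finset.Ico D N, x ^ (k + 1) ≤ x ^ D := by
  have h2 : ∀ k, x ^ (k + 1) ≤ x ^ k - x ^ (k + 1) := by
    intro k
    have h3 : x ^ (k + 1) ≤ x ^ k * (1 / 2) := by
      rw [pow_succ]
      exact mul_le_mul_of_nonneg_left h1 (pow_nonneg h0 _)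
    linarith
  rcases le_or_gt D N with hDN | hDN
  · refine (Finset.sum_le_sum fun k _ => h2 k).trans ?_
    have h3 : ∑ k ∈ Finset.Ico D N, (x ^ k - x ^ (k + 1)) = x ^ D - x ^ N := by
      have h4 := Finset.sum_Ico_sub (fun k => x ^ k) hDN
      have h5 : ∑ k ∈ Finset.Ico D N, (x ^ k - x ^ (k + 1)) =
          - ∑ k ∈ Finset.Ico D N, (x ^ (k + 1) - x ^ k) := by
        rw [← Finset.sum_neg_distrib]
        exact Finset.sum_congr rfl fun k _ => by ring
      rw [h5, h4]
      ring
    rw [h3]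
    linarith [pow_nonneg h0 N]
  · rw [Finset.Ico_eq_empty (by omega)]
    simpa using pow_nonneg h0 D

/-- the constant of the union bound -/
def Cd (d : ℕ) : ℝ := (3 : ℝ) ^ (2 * d) * 2 ^ (d * d)

/-- a connected set with `k + 1` elements carries many elements of `Y` -/
def Big (a : V d) (v k : ℕ) (Y : Finset (Pq d)) : Prop :=
  ∃ W ∈ wk (2 * k) a, W.card = k + 1 ∧ W.card ≤ 20 * (YW Y W).card + 5 * v

open Classical in
/-- **The union bound**: the probability that the labels of `a` and `b` are connected. -/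
theorem perc (m : Fin d → Fin d) (M : Finset (Pq d)) (hM : ∀ p ∈ M, p.2.1 ≠ p.2.2)
    (A B : Finset (V d)) (hA : CC A) (hB : CC B) (a b : V d) (ha : a ∈ A) (hb : b ∈ B)
    (t : Pq d → ℝ) (y : ℝ) (hy0 : 0 ≤ y) (hy : Cd d * y ≤ 1 / 2) (ht0 : ∀ p, 0 ≤ t p)
    (ht : ∀ p, t p ≤ y ^ 40) (hD : 10 * (A.card + B.card) ≤ nd a b) :
    ∑ Y ∈ M.powerset.filter (fun Y => Ev m A B a b Y), bern t M Y ≤ (Cd d * y) ^ nd a b := by
  have hCd : 1 ≤ Cd d := by
    unfold Cd
    have h1 : (1 : ℝ) ≤ 3 ^ (2 * d) := one_le_pow₀ (by norm_num)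
    have h2 : (1 : ℝ) ≤ 2 ^ (d * d) := one_le_pow₀ (by norm_num)
    nlinarith
  have hy1 : y ≤ 1 := by nlinarith
  have ht1 : ∀ p, t p ≤ 1 := fun p => (ht p).trans (pow_le_one₀ hy0 hy1)
  have hbn : ∀ Y, 0 ≤ bern t M Y := bern_nonneg ht0 ht1 M
  set v := A.card + B.card with hv
  set N := 20 * M.card + 5 * v with hN
  -- the event is covered by the events with given size
  have s1 : ∑ Y ∈ M.powerset.filter (fun Y => Ev m A B a b Y), bern t M Y ≤
      ∑ k ∈ Finset.Ico (nd a b) N, ∑ Y ∈ M.powerset.filter (fun Y => Big a v k Y), bern t M Y := by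
    refine cover _ _ _ hbn _ fun Y hY => ?_
    rw [Finset.mem_filter, Finset.mem_powerset] at hY
    obtain ⟨hYM, hEv⟩ := hY
    obtain ⟨W, hW1, hW2, hW3⟩ := ev_set (fun p hp => hM p (hYM hp)) hA hB ha hb hEv
    have hc : 0 < W.card := Finset.card_pos.2 ⟨a, hW1.1⟩
    have hc2 := nd_card hW1.1 (hW1.2 b hW2)
    have hc3 : (YW Y W).card ≤ M.card :=
      (Finset.card_filter_le _ _).trans (Finset.card_le_card hYM)
    refine ⟨W.card - 1, ?_, ?_⟩
    · rw [Finset.mem_Ico]
      omega
    · exact Finset.mem_filter.2 ⟨Finset.mem_powerset.2 hYM, W, conn_wk hW1, by omega, hW3⟩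
  refine s1.trans ?_
  have s2 : ∀ k ∈ Finset.Ico (nd a b) N, ∑ Y ∈ M.powerset.filter (fun Y => Big a v k Y), bern t M Y ≤
        (Cd d * y) ^ (k + 1) := by
    intro k hk
    rw [Finset.mem_Ico] at hk
    have s3 : ∑ Y ∈ M.powerset.filter (fun Y => Big a v k Y), bern t M Y ≤
        ∑ W ∈ (wk (2 * k) a).filter (fun W => W.card = k + 1),
          ∑ Y ∈ M.powerset.filter (fun Y => k + 1 ≤ 20 * (YW Y W).card + 5 * v), bern t M Y := by
      refine cover _ _ _ hbn _ fun Y hY => ?_
      obtain ⟨hYM, W, hW1, hW2, hW3⟩ := Finset.mem_filter.1 hY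
      refine ⟨W, Finset.mem_filter.2 ⟨hW1, hW2⟩, Finset.mem_filter.2 ⟨hYM, by omega⟩⟩
    refine s3.trans ?_
    have s4 : ∀ W ∈ (wk (2 * k) a).filter (fun W => W.card = k + 1),
        ∑ Y ∈ M.powerset.filter (fun Y => k + 1 ≤ 20 * (YW Y W).card + 5 * v), bern t M Y ≤
        2 ^ (d * d * (k + 1)) * y ^ (k + 1) := by
      intro W hW
      rw [Finset.mem_filter] at hW
      have s5 : ∑ Y ∈ M.powerset.filter (fun Y => k + 1 ≤ 20 * (YW Y W).card + 5 * v),
          bern t M Y ≤
          ∑ K ∈ (M.filter (fun p => p.1 ∈ W)).powerset.filter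
            (fun K => k + 1 ≤ 20 * K.card + 5 * v),
            ∑ Y ∈ M.powerset.filter (fun Y => K ⊆ Y), bern t M Y := by
        refine cover _ _ _ hbn _ fun Y hY => ?_
        rw [Finset.mem_filter, Finset.mem_powerset] at hY
        refine ⟨YW Y W, ?_, ?_⟩
        · rw [Finset.mem_filter, Finset.mem_powerset]
          refine ⟨?_, hY.2⟩
          unfold YW
          exact Finset.filter_subset_filter _ hY.1
        · rw [Finset.mem_filter, Finset.mem_powerset]
          refine ⟨hY.1, ?_⟩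
          unfold YW
          exact Finset.filter_subset _ _
      refine s5.trans ?_
      have s6 : ∀ K ∈ (M.filter (fun p => p.1 ∈ W)).powerset.filter
            (fun K => k + 1 ≤ 20 * K.card + 5 * v),
            ∑ Y ∈ M.powerset.filter (fun Y => K ⊆ Y), bern t M Y ≤ y ^ (k + 1) := by
        intro K hK
        rw [Finset.mem_filter, Finset.mem_powerset] at hK
        rw [bern_sup t M K (hK.1.trans (Finset.filter_subset _ _))]
        have h1 : ∏ p ∈ K, t p ≤ (y ^ 40) ^ K.card := by
          rw [← Finset.prod_const]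
          exact Finset.prod_le_prod (fun p _ => ht0 p) fun p _ => ht p
        refine h1.trans ?_
        rw [← pow_mul]
        refine pow_le_pow_of_le_one hy0 hy1 ?_
        omega
      refine (Finset.sum_le_sum s6).trans ?_
      rw [Finset.sum_const, nsmul_eq_mul]
      refine mul_le_mul_of_nonneg_right ?_ (pow_nonneg hy0 _)
      have h2 : (M.filter (fun p => p.1 ∈ W)).card ≤ d * d * (k + 1) := by
        have h3 : M.filter (fun p => p.1 ∈ W) ⊆ W ×ˢ (Finset.univ : Finset (Fin d × Fin d)) := by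
          intro p hp
          rw [Finset.mem_filter] at hp
          rw [Finset.mem_product]
          exact ⟨hp.2, Finset.mem_univ _⟩
        refine (Finset.card_le_card h3).trans ?_
        rw [Finset.card_product, hW.2, Finset.card_univ, Fintype.card_prod, Fintype.card_fin,
          mul_comm]
      have h4 : ((M.filter (fun p => p.1 ∈ W)).powerset.filter
            (fun K => k + 1 ≤ 20 * K.card + 5 * v)).card ≤ 2 ^ (d * d * (k + 1)) := by
        refine (Finset.card_filter_le _ _).trans ?_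
        rw [Finset.card_powerset]
        exact Nat.pow_le_pow_right (by norm_num) h2
      exact_mod_cast h4
    refine (Finset.sum_le_sum s4).trans ?_
    rw [Finset.sum_const, nsmul_eq_mul]
    have h5 : (((wk (2 * k) a).filter (fun W => W.card = k + 1)).card : ℝ) ≤
        (3 ^ (2 * d)) ^ (k + 1) := by
      have h6 : ((wk (2 * k) a).filter (fun W => W.card = k + 1)).card ≤ (3 ^ d) ^ (2 * k) :=
        (Finset.card_filter_le _ _).trans (card_wk _ _)
      have h7 : (3 ^ d) ^ (2 * k) ≤ (3 ^ (2 * d)) ^ (k + 1) := by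
        rw [← pow_mul, ← pow_mul]
        exact Nat.pow_le_pow_right (by norm_num) (by nlinarith)
      exact_mod_cast h6.trans h7
    have h8 : (Cd d * y) ^ (k + 1) =
        (3 ^ (2 * d)) ^ (k + 1) * (2 ^ (d * d * (k + 1)) * y ^ (k + 1)) := by
      unfold Cd
      rw [mul_pow, mul_pow, pow_mul 2 (d * d) (k + 1)]
      ring
    rw [h8]
    refine mul_le_mul_of_nonneg_right h5 (by positivity)
  refine (Finset.sum_le_sum s2).trans (geo _ (by positivity) hy _ _)

end Pool.Agent.T2H03.YM
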