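import Mathlib
import Pool.Agent.T2H03.YM.Lat

/-!
# Terms of the expansion which vanish
-/

set_option autoImplicit false
set_option linter.unusedSectionVars false

open MeasureTheory Measure Set

namespace Pool.Agent.T2H03.YM

variable {d : ℕ} {G : Type*} [Group G] [MeasurableSpace G] [MeasurableMul₂ G] [MeasurableInv G]

instance : MeasurableMul₂ (G × G) := by
  refine ⟨?_⟩
  have : (fun p : (G × G) × (G × G) => p.1 * p.2) =
      fun p => (p.1.1 * p.2.1, p.1.2 * p.2.2) := by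
    funext p; rfl
  rw [this]
  fun_prop

instance : MeasurableInv (G × G) := by
  refine ⟨?_⟩
  have : Measurable (fun p : G × G => (p.1⁻¹, p.2⁻¹)) := by fun_prop
  exact this

/-- the difference of a function at the two copies -/
def dif (F : (Lk d → G) → ℝ) (U : Lk d → G × G) : ℝ :=
  F (fun l => (U l).1) - F (fun l => (U l).2)

theorem dif_meas {F : (Lk d → G) → ℝ} (hF : Measurable F) : Measurable (dif F) := by
  unfold dif
  exact (hF.comp (by fun_prop)).sub (hF.comp (by fun_prop))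

theorem dif_bd {F : (Lk d → G) → ℝ} {CF : ℝ} (hF : ∀ U, |F U| ≤ CF) (U : Lk d → G × G) :
    |dif F U| ≤ 2 * CF := by
  unfold dif
  calc |F (fun l => (U l).1) - F (fun l => (U l).2)| ≤ |F (fun l => (U l).1)| +
        |F (fun l => (U l).2)| := abs_sub _ _
    _ ≤ _ := by linarith [hF (fun l => (U l).1), hF (fun l => (U l).2)]

theorem dif_dep {F : (Lk d → G) → ℝ} {D : Set (Lk d)} (hF : DependsOn F D) :
    DependsOn (dif F) D := by
  intro U U' h
  unfold dif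
  rw [hF (x := fun l => (U l).1) (y := fun l => (U' l).1) (fun l hl => by simp only; rw [h l hl]),
    hF (x := fun l => (U l).2) (y := fun l => (U' l).2) (fun l hl => by simp only; rw [h l hl])]

theorem dif_sw {F : (Lk d → G) → ℝ} {D D' : Set (Lk d)} (hF : DependsOn F D) (h : D ⊆ D')
    (U : Lk d → G × G) : dif F (sw D' U) = - dif F U := by
  unfold dif
  rw [hF (x := fun l => (sw D' U l).1) (y := fun l => (U l).2) (fun l hl => by
      simp [sw, h hl]),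
    hF (x := fun l => (sw D' U l).2) (y := fun l => (U l).1) (fun l hl => by
      simp [sw, h hl])]
  ring

theorem sw_eq {D : Set (Lk d)} {U : Lk d → G × G} {l : Lk d} (h : l ∉ D) : sw D U l = U l := by
  simp [sw, h]

theorem hol_sw_in {D : Set (Lk d)} (p : Pq d) (h : ∀ l ∈ bd p, l ∈ D) (U : Lk d → G × G) :
    hol p (sw D U) = (hol p U).swap := by
  unfold hol
  have h1 : ∀ l ∈ bd p, sw D U l = (U l).swap := fun l hl => by simp [sw, h l hl]
  rw [h1 (p.1, p.2.1) (by simp [bd]), h1 (p.1 + e p.2.1, p.2.2) (by simp [bd]),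
    h1 (p.1 + e p.2.2, p.2.1) (by simp [bd]), h1 (p.1, p.2.2) (by simp [bd])]
  rfl

theorem hol_sw_out {D : Set (Lk d)} (p : Pq d) (h : ∀ l ∈ bd p, l ∉ D) (U : Lk d → G × G) :
    hol p (sw D U) = hol p U :=
  hol_dep p fun l hl => sw_eq (h l hl)

variable (μ : Measure G) [IsProbabilityMeasure μ] [μ.IsMulLeftInvariant] [μ.IsMulRightInvariant]
  [μ.IsInvInvariant] {K : Type*} {m : Fin d → Fin d}

theorem prod_dep {D : Set (Lk d)} (S : Finset (Pq d)) (h : ∀ p ∈ S, ∀ l ∈ bd p, l ∈ D)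
    (w : Pq d → G × G → ℝ) : DependsOn (fun U : Lk d → G × G => ∏ p ∈ S, w p (hol p U)) D := by
  intro U U' hU
  exact Finset.prod_congr rfl fun p hp => by
    rw [hol_dep p fun l hl => hU l (h p hp l hl)]

theorem prod_meas (S : Finset (Pq d)) (w : Pq d → G × G → ℝ) (hw : ∀ p, Measurable (w p)) :
    Measurable (fun U : Lk d → G × G => ∏ p ∈ S, w p (hol p U)) :=
  Finset.measurable_prod _ fun p _ => (hw p).comp (hol_meas p)

theorem prod_bd (S : Finset (Pq d)) (w : Pq d → G × G → ℝ) (C : ℝ) (hC : ∀ p g, |w p g| ≤ C)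
    (U : Lk d → G × G) : |∏ p ∈ S, w p (hol p U)| ≤ C ^ S.card := by
  rw [Finset.abs_prod, ← Finset.prod_const]
  exact Finset.prod_le_prod (fun _ _ => abs_nonneg _) fun p _ => hC p _

theorem zero (hm : ∀ i, m (m i) = i) (c : V d → K) (𝒜 : Set K) (κA κB : K) (hA : κA ∈ 𝒜)
    (hB : κB ∉ 𝒜)
    (hdisj : ∀ κ ∈ 𝒜, ∀ κ' ∉ 𝒜, ∀ l, Hull m c κ l → ¬ Hull m c κ' l)
    (Sh : Finset (Pq d)) (hSh : ∀ p ∈ Sh, Sheet m p)
    (Y : Finset (Pq d)) (hY : ∀ p ∈ Y, ∃ κ, ∀ v ∈ vt p, c v = κ)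
    (w ρ : Pq d → G × G → ℝ) (hw : ∀ p, Measurable (w p)) (hρ : ∀ p, Measurable (ρ p)) (C : ℝ) (hC0 : 0 ≤ C)
    (hCw : ∀ p g, |w p g| ≤ C) (hCρ : ∀ p g, |ρ p g| ≤ C) (hws : ∀ p g, w p g.swap = w p g)
    (hρs : ∀ p g, ρ p g.swap = ρ p g) (F H : (Lk d → G) → ℝ) (hF : Measurable F)
    (hH : Measurable H) (CF CH : ℝ) (hCF : ∀ U, |F U| ≤ CF) (hCH : ∀ U, |H U| ≤ CH)
    (hFd : DependsOn F {l | InE c κA l}) (hHd : DependsOn H {l | InE c κB l}) :
    ∫ U, dif F U * dif H U * (∏ p ∈ Sh, w p (hol p U)) * (∏ p ∈ Y, ρ p (hol p U))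
      ∂PP (Lk d) (μ.prod μ) = 0 := by
  classical
  set D₁ : Set (Lk d) := {l | ∃ κ ∈ 𝒜, Hull m c κ l} with hD₁
  set D₀ : Set (Lk d) := {l | ∃ κ, Hull m c κ l} with hD₀
  set T := Sh.filter (fun p => ∃ κ, TrapP c κ p) with hT
  set S := Sh.filter (fun p => ¬ ∃ κ, TrapP c κ p) with hS
  have hsplit : ∀ U : Lk d → G × G, ∏ p ∈ Sh, w p (hol p U) =
      (∏ p ∈ T, w p (hol p U)) * ∏ p ∈ S, w p (hol p U) := by
    intro U
    rw [hT, hS, Finset.prod_filter_mul_prod_filter_not]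
  set f : (Lk d → G × G) → ℝ := fun U =>
    dif F U * dif H U * (∏ p ∈ T, w p (hol p U)) * (∏ p ∈ Y, ρ p (hol p U)) with hf
  have hfm : Measurable f :=
    (((dif_meas hF).mul (dif_meas hH)).mul (prod_meas T w hw)).mul (prod_meas Y ρ hρ)
  have hTin : ∀ p ∈ T, ∃ κ, ∀ l ∈ bd p, Hull m c κ l := by
    intro p hp
    rw [hT, Finset.mem_filter] at hp
    obtain ⟨hp1, κ, hκ⟩ := hp
    exact ⟨κ, fun l hl => bd_hull hm (hSh p hp1) hκ hl⟩
  have hYin : ∀ p ∈ Y, ∃ κ, ∀ l ∈ bd p, Hull m c κ l := by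
    intro p hp
    obtain ⟨κ, hκ⟩ := hY p hp
    exact ⟨κ, fun l hl => Or.inl ⟨hκ _ (bd_vt hl).1, hκ _ (bd_vt hl).2⟩⟩
  have hdich : ∀ p : Pq d, (∃ κ, ∀ l ∈ bd p, Hull m c κ l) →
      (∀ l ∈ bd p, l ∈ D₁) ∨ (∀ l ∈ bd p, l ∉ D₁) := by
    rintro p ⟨κ, hκ⟩
    by_cases h : κ ∈ 𝒜
    · left
      exact fun l hl => ⟨κ, h, hκ l hl⟩
    · right
      rintro l hl ⟨κ', hκ', hl'⟩
      exact hdisj κ' hκ' κ h l hl' (hκ l hl)
  have hFD : {l | InE c κA l} ⊆ D₁ := fun l hl => ⟨κA, hA, Or.inl hl⟩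
  have hHD : ∀ l ∈ {l | InE c κB l}, l ∉ D₁ := by
    rintro l hl ⟨κ', hκ', hl'⟩
    exact hdisj κ' hκ' κB hB l hl' (Or.inl hl)
  have hf0 : ∫ U, f U ∂PP (Lk d) (μ.prod μ) = 0 := by
    refine int_odd μ D₁ f hfm fun U => ?_
    have e1 : dif F (sw D₁ U) = - dif F U := dif_sw hFd hFD U
    have e2 : dif H (sw D₁ U) = dif H U := dif_dep hHd fun l hl => sw_eq (hHD l hl)
    have e3 : ∀ p ∈ T, w p (hol p (sw D₁ U)) = w p (hol p U) := by
      intro p hp
      rcases hdich p (hTin p hp) with h | h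
      · rw [hol_sw_in p h, hws]
      · rw [hol_sw_out p h]
    have e4 : ∀ p ∈ Y, ρ p (hol p (sw D₁ U)) = ρ p (hol p U) := by
      intro p hp
      rcases hdich p (hYin p hp) with h | h
      · rw [hol_sw_in p h, hρs]
      · rw [hol_sw_out p h]
    simp only [hf]
    rw [e1, e2, Finset.prod_congr rfl e3, Finset.prod_congr rfl e4]
    ring
  have hfD : DependsOn f D₀ := by
    have i1 : {l | InE c κA l} ⊆ D₀ := fun l hl => ⟨κA, Or.inl hl⟩
    have i2 : {l | InE c κB l} ⊆ D₀ := fun l hl => ⟨κB, Or.inl hl⟩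
    intro U U' hU
    simp only [hf]
    rw [dif_dep hFd fun l hl => hU l (i1 hl), dif_dep hHd fun l hl => hU l (i2 hl)]
    have e3 := prod_dep (G := G) (D := D₀) T (fun p hp l hl => by
      obtain ⟨κ, hκ⟩ := hTin p hp
      exact ⟨κ, hκ l hl⟩) w hU
    have e4 := prod_dep (G := G) (D := D₀) Y (fun p hp l hl => by
      obtain ⟨κ, hκ⟩ := hYin p hp
      exact ⟨κ, hκ l hl⟩) ρ hU
    simp only at e3 e4
    rw [e3, e4]
  have hCF0 : 0 ≤ CF := (abs_nonneg _).trans (hCF (fun _ => 1))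
  have hCH0 : 0 ≤ CH := (abs_nonneg _).trans (hCH (fun _ => 1))
  have hfb : ∀ U, |f U| ≤ (2 * CF) * (2 * CH) * C ^ T.card * C ^ Y.card := by
    intro U
    simp only [hf]
    rw [abs_mul, abs_mul, abs_mul]
    have a1 := dif_bd hCF U
    have a2 := dif_bd hCH U
    have a3 := prod_bd T w C hCw U
    have a4 := prod_bd Y ρ C hCρ U
    gcongr
  have key := int_out (μ.prod μ) (fun p : Pq d => hol (H := G × G) p) bd (fun p => hol_dep p)
    (fun p => hol_meas p) w hw C hCw D₀ f hfm _ hfb hfD S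
    (fun p hp l hl => hol_tw p ((hSh p (Finset.mem_filter.1 hp).1).1.ne) l hl)
    (by
      intro S' hS' hne
      have hsh : ∀ p ∈ S', Sheet m p := fun p hp => hSh p (Finset.mem_filter.1 (hS' hp)).1
      have hun : ∀ p ∈ S', ∀ κ, ¬ TrapP c κ p := by
        intro p hp κ hκ
        exact (Finset.mem_filter.1 (hS' hp)).2 ⟨κ, hκ⟩
      obtain ⟨p, hp, l, hl, h1, h2⟩ := exists_free (c := c) hm S' hsh hne hun
      refine ⟨p, hp, l, hl, ?_, h2⟩
      rintro ⟨κ, hκ⟩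
      exact no_hull hm (hsh p hp) (hun p hp κ) hl (h1 κ) hκ)
  rw [hf0, zero_mul] at key
  rw [← key]
  refine integral_congr_ae (Filter.Eventually.of_forall fun U => ?_)
  simp only [hf]
  rw [hsplit U]
  ring

end Pool.Agent.T2H03.YM
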