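import Mathlib
import Pool.Agent.T2H03.YM.Zero
import Pool.Agent.T2H03.YM.Count

/-!
# The bound of the truncated correlations
-/

set_option autoImplicit false
set_option linter.unusedSectionVars false

open MeasureTheory Measure Set Relation

namespace Pool.Agent.T2H03.YM

variable {d : ℕ} {G : Type*} [Group G] [MeasurableSpace G] [MeasurableMul₂ G] [MeasurableInv G]

/-- the product of the weights of the plaquettes -/
noncomputable def wt (Λ : Finset (Pq d)) (w : Pq d → G → ℝ) (U : Lk d → G) : ℝ :=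
  ∏ p ∈ Λ, w p (hol p U)

/-- the weight of two copies -/
def W2 (w : Pq d → G → ℝ) (p : Pq d) (g : G × G) : ℝ := w p g.1 * w p g.2

theorem wt_two (Λ : Finset (Pq d)) (w : Pq d → G → ℝ) (U : Lk d → G × G) :
    ∏ p ∈ Λ, W2 w p (hol p U) = wt Λ w (fun l => (U l).1) * wt Λ w (fun l => (U l).2) := by
  unfold wt W2
  rw [← Finset.prod_mul_distrib]
  rfl

variable (μ : Measure G) [IsProbabilityMeasure μ] [μ.IsMulLeftInvariant] [μ.IsMulRightInvariant]
  [μ.IsInvInvariant]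

theorem wt_meas (Λ : Finset (Pq d)) (w : Pq d → G → ℝ) (hw : ∀ p, Measurable (w p)) :
    Measurable (wt Λ w) :=
  Finset.measurable_prod _ fun p _ => (hw p).comp (hol_meas p)

/-- the sets of labels connected with `a` -/
def cls (m : Fin d → Fin d) (A B : Finset (V d)) (a : V d) (Y : Finset (Pq d)) :
    Set (Lb Y A B) :=
  {κ | ReflTransGen (Rl m) (lab Y A B a) κ}

theorem term_zero {m : Fin d → Fin d} (hm : ∀ i, m (m i) = i)
    (Sh : Finset (Pq d)) (hSh : ∀ p ∈ Sh, Sheet m p) (Y : Finset (Pq d))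
    (w ρ : Pq d → G × G → ℝ) (hw : ∀ p, Measurable (w p)) (hρ : ∀ p, Measurable (ρ p)) (C : ℝ)
    (hC0 : 0 ≤ C)
    (hCw : ∀ p g, |w p g| ≤ C) (hCρ : ∀ p g, |ρ p g| ≤ C) (hws : ∀ p g, w p g.swap = w p g)
    (hρs : ∀ p g, ρ p g.swap = ρ p g) (F H : (Lk d → G) → ℝ) (hF : Measurable F)
    (hH : Measurable H) (CF CH : ℝ) (hCF : ∀ U, |F U| ≤ CF) (hCH : ∀ U, |H U| ≤ CH)
    (A B : Finset (V d)) (a b : V d) (ha : a ∈ A) (hb : b ∈ B)
    (hFd : DependsOn F {l | l.1 ∈ A ∧ l.1 + e l.2 ∈ A})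
    (hHd : DependsOn H {l | l.1 ∈ B ∧ l.1 + e l.2 ∈ B}) (hEv : ¬ Ev m A B a b Y) :
    ∫ U, dif F U * dif H U * (∏ p ∈ Sh, w p (hol p U)) * (∏ p ∈ Y, ρ p (hol p U))
      ∂PP (Lk d) (μ.prod μ) = 0 := by
  refine zero μ hm (lab Y A B) (cls m A B a Y) (lab Y A B a) (lab Y A B b) ReflTransGen.refl hEv
    ?_ Sh hSh Y ?_ w ρ hw hρ C hC0 hCw hCρ hws hρs F H hF hH CF CH hCF hCH ?_ ?_
  · intro κ hκ κ' hκ' l hl hl'
    exact hκ' (ReflTransGen.tail hκ ⟨l, hl, hl'⟩)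
  · intro p hp
    exact ⟨lab Y A B p.1, fun v hv => Quot.sound (Or.inl ⟨p, hp, hv, by simp [vt]⟩)⟩
  · intro U U' hU
    refine hFd fun l hl => hU l ⟨?_, ?_⟩
    · exact Quot.sound (Or.inr (Or.inl ⟨hl.1, ha⟩))
    · exact Quot.sound (Or.inr (Or.inl ⟨hl.2, ha⟩))
  · intro U U' hU
    refine hHd fun l hl => hU l ⟨?_, ?_⟩
    · exact Quot.sound (Or.inr (Or.inr ⟨hl.1, hb⟩))
    · exact Quot.sound (Or.inr (Or.inr ⟨hl.2, hb⟩))

theorem two_cov (Λ : Finset (Pq d)) (w : Pq d → G → ℝ) (hwm : ∀ p, Measurable (w p)) (C : ℝ)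
    (hC : ∀ p g, |w p g| ≤ C) (F H : (Lk d → G) → ℝ) (hF : Measurable F)
    (hH : Measurable H) (CF CH : ℝ) (hCF : ∀ U, |F U| ≤ CF) (hCH : ∀ U, |H U| ≤ CH) :
    ∫ U, dif F U * dif H U * (∏ p ∈ Λ, W2 w p (hol p U)) ∂PP (Lk d) (μ.prod μ) =
      2 * ((∫ U, F U * H U * wt Λ w U ∂PP (Lk d) μ) * (∫ U, wt Λ w U ∂PP (Lk d) μ) -
        (∫ U, F U * wt Λ w U ∂PP (Lk d) μ) * (∫ U, H U * wt Λ w U ∂PP (Lk d) μ)) := by
  have hwt := wt_meas Λ w hwm
  have hwtb : ∀ U, |wt Λ w U| ≤ C ^ Λ.card := by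
    intro U
    unfold wt
    rw [Finset.abs_prod, ← Finset.prod_const]
    exact Finset.prod_le_prod (fun _ _ => abs_nonneg _) fun p _ => hC p _
  have hCF0 : 0 ≤ CF := (abs_nonneg _).trans (hCF (fun _ => 1))
  have hCH0 : 0 ≤ CH := (abs_nonneg _).trans (hCH (fun _ => 1))
  have hCp : 0 ≤ C ^ Λ.card := (abs_nonneg _).trans (hwtb (fun _ => 1))
  have t1 := two_int μ (fun U => F U * H U * wt Λ w U) (wt Λ w) ((hF.mul hH).mul hwt) hwt
  have t2 := two_int μ (wt Λ w) (fun U => F U * H U * wt Λ w U) hwt ((hF.mul hH).mul hwt)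
  have t3 := two_int μ (fun U => F U * wt Λ w U) (fun U => H U * wt Λ w U) (hF.mul hwt)
    (hH.mul hwt)
  have t4 := two_int μ (fun U => H U * wt Λ w U) (fun U => F U * wt Λ w U) (hH.mul hwt)
    (hF.mul hwt)
  have m1 : Measurable fun U : Lk d → G × G => (fun l => (U l).1 : Lk d → G) := by fun_prop
  have m2 : Measurable fun U : Lk d → G × G => (fun l => (U l).2 : Lk d → G) := by fun_prop
  have hint : ∀ (f g : (Lk d → G) → ℝ) (Cf Cg : ℝ), Measurable f → Measurable g →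
      (∀ U, |f U| ≤ Cf) → (∀ U, |g U| ≤ Cg) → Integrable (fun U : Lk d → G × G =>
        f (fun l => (U l).1) * g (fun l => (U l).2)) (PP (Lk d) (μ.prod μ)) := by
    intro f g Cf Cg hf hg hCf hCg
    refine Integrable.of_bound (C := Cf * Cg) ?_ (Filter.Eventually.of_forall fun U => ?_)
    · exact ((hf.comp m1).mul (hg.comp m2)).aestronglyMeasurable
    · rw [norm_mul, Real.norm_eq_abs, Real.norm_eq_abs]
      exact mul_le_mul (hCf _) (hCg _) (abs_nonneg _) ((abs_nonneg _).trans (hCf (fun _ => 1)))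
  have b1 : ∀ U, |F U * H U * wt Λ w U| ≤ CF * CH * C ^ Λ.card := by
    intro U
    rw [abs_mul, abs_mul]
    have := hCF U; have := hCH U; have := hwtb U
    gcongr
  have b2 : ∀ U, |F U * wt Λ w U| ≤ CF * C ^ Λ.card := by
    intro U
    rw [abs_mul]
    have := hCF U; have := hwtb U
    gcongr
  have b3 : ∀ U, |H U * wt Λ w U| ≤ CH * C ^ Λ.card := by
    intro U
    rw [abs_mul]
    have := hCH U; have := hwtb U
    gcongr
  obtain ⟨f1, hf1⟩ : ∃ f1 : (Lk d → G) → ℝ, f1 = fun U => F U * H U * wt Λ w U := ⟨_, rfl⟩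
  obtain ⟨f2, hf2⟩ : ∃ f2 : (Lk d → G) → ℝ, f2 = fun U => F U * wt Λ w U := ⟨_, rfl⟩
  obtain ⟨f3, hf3⟩ : ∃ f3 : (Lk d → G) → ℝ, f3 = fun U => H U * wt Λ w U := ⟨_, rfl⟩
  have n1 : ∀ U, F U * H U * wt Λ w U = f1 U := fun U => by rw [hf1]
  have n2 : ∀ U, F U * wt Λ w U = f2 U := fun U => by rw [hf2]
  have n3 : ∀ U, H U * wt Λ w U = f3 U := fun U => by rw [hf3]
  have i1 : Integrable (fun U : Lk d → G × G => f1 (fun l => (U l).1) * wt Λ w (fun l => (U l).2))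
      (PP (Lk d) (μ.prod μ)) := by
    rw [hf1]; exact hint _ _ _ _ ((hF.mul hH).mul hwt) hwt b1 hwtb
  have i2 : Integrable (fun U : Lk d → G × G => wt Λ w (fun l => (U l).1) * f1 (fun l => (U l).2))
      (PP (Lk d) (μ.prod μ)) := by
    rw [hf1]; exact hint _ _ _ _ hwt ((hF.mul hH).mul hwt) hwtb b1
  have i3 : Integrable (fun U : Lk d → G × G => f2 (fun l => (U l).1) * f3 (fun l => (U l).2))
      (PP (Lk d) (μ.prod μ)) := by
    rw [hf2, hf3]; exact hint _ _ _ _ (hF.mul hwt) (hH.mul hwt) b2 b3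
  have i4 : Integrable (fun U : Lk d → G × G => f3 (fun l => (U l).1) * f2 (fun l => (U l).2))
      (PP (Lk d) (μ.prod μ)) := by
    rw [hf2, hf3]; exact hint _ _ _ _ (hH.mul hwt) (hF.mul hwt) b3 b2
  have i5 : Integrable (fun U : Lk d → G × G =>
      f1 (fun l => (U l).1) * wt Λ w (fun l => (U l).2) +
      wt Λ w (fun l => (U l).1) * f1 (fun l => (U l).2)) (PP (Lk d) (μ.prod μ)) := i1.add i2
  have i6 : Integrable (fun U : Lk d → G × G =>
      f1 (fun l => (U l).1) * wt Λ w (fun l => (U l).2) +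
      wt Λ w (fun l => (U l).1) * f1 (fun l => (U l).2) -
      f2 (fun l => (U l).1) * f3 (fun l => (U l).2)) (PP (Lk d) (μ.prod μ)) := i5.sub i3
  have key : ∀ U : Lk d → G × G, dif F U * dif H U * (∏ p ∈ Λ, W2 w p (hol p U)) =
      f1 (fun l => (U l).1) * wt Λ w (fun l => (U l).2) +
      wt Λ w (fun l => (U l).1) * f1 (fun l => (U l).2) -
      f2 (fun l => (U l).1) * f3 (fun l => (U l).2) -
      f3 (fun l => (U l).1) * f2 (fun l => (U l).2) := by
    intro U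
    rw [wt_two]
    simp only [← n1, ← n2, ← n3]
    unfold dif
    ring
  simp only [n1, n2, n3] at t1 t2 t3 t4 ⊢
  rw [integral_congr_ae (Filter.Eventually.of_forall key), integral_sub i6 i4,
    integral_sub i5 i3, integral_add i1 i2, t1, t2, t3, t4]
  ring

/-- **The truncated correlations decay exponentially.** -/
theorem cov_bound {m : Fin d → Fin d} (hm : ∀ i, m (m i) = i) (Λ : Finset (Pq d))
    (hΛ : ∀ p ∈ Λ, p.2.1 < p.2.2) (w : Pq d → G → ℝ) (hwm : ∀ p, Measurable (w p))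
    (hw0 : ∀ p g, 0 < w p g) (C : ℝ) (hwC : ∀ p g, w p g ≤ C) (c : ℝ) (hc0 : 0 < c)
    (hwc : ∀ p ∈ Λ, m p.2.1 ≠ p.2.2 → ∀ g, c ≤ w p g ∧ w p g ≤ 1) (y : ℝ) (hy0 : 0 ≤ y)
    (hy : Cd d * y ≤ 1 / 2) (hcy : 1 - c ^ 2 ≤ y ^ 40)
    (F H : (Lk d → G) → ℝ) (hF : Measurable F)
    (hH : Measurable H) (CF CH : ℝ) (hCF : ∀ U, |F U| ≤ CF) (hCH : ∀ U, |H U| ≤ CH)
    (A B : Finset (V d)) (hA : CC A) (hB : CC B) (a b : V d) (ha : a ∈ A) (hb : b ∈ B)
    (hFd : DependsOn F {l | l.1 ∈ A ∧ l.1 + e l.2 ∈ A})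
    (hHd : DependsOn H {l | l.1 ∈ B ∧ l.1 + e l.2 ∈ B})
    (hD : 10 * (A.card + B.card) ≤ nd a b) :
    |(∫ U, F U * H U * wt Λ w U ∂PP (Lk d) μ) * (∫ U, wt Λ w U ∂PP (Lk d) μ) -
        (∫ U, F U * wt Λ w U ∂PP (Lk d) μ) * (∫ U, H U * wt Λ w U ∂PP (Lk d) μ)| ≤
      2 * CF * CH * (Cd d * y) ^ nd a b * (∫ U, wt Λ w U ∂PP (Lk d) μ) ^ 2 := by
  classical
  have hC : ∀ p g, |w p g| ≤ C := fun p g => by
    rw [abs_of_pos (hw0 p g)]; exact hwC p g
  have hCF0 : 0 ≤ CF := (abs_nonneg _).trans (hCF (fun _ => 1))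
  have hCH0 : 0 ≤ CH := (abs_nonneg _).trans (hCH (fun _ => 1))
  set Sh := Λ.filter (fun p => m p.2.1 = p.2.2) with hSh
  set M := Λ.filter (fun p => ¬ m p.2.1 = p.2.2) with hM
  have hSheet : ∀ p ∈ Sh, Sheet m p := fun p hp => by
    rw [hSh, Finset.mem_filter] at hp
    exact ⟨hΛ p hp.1, hp.2⟩
  have hMw : ∀ p ∈ M, ∀ g, c ≤ w p g ∧ w p g ≤ 1 := fun p hp => by
    rw [hM, Finset.mem_filter] at hp
    exact hwc p hp.1 hp.2
  have hMne : ∀ p ∈ M, p.2.1 ≠ p.2.2 := fun p hp => by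
    rw [hM, Finset.mem_filter] at hp
    exact (hΛ p hp.1).ne
  set ρ : Pq d → G × G → ℝ := fun p g => W2 w p g - c ^ 2 with hρ
  have hW2m : ∀ p, Measurable (W2 w p) := fun p =>
    ((hwm p).comp measurable_fst).mul ((hwm p).comp measurable_snd)
  have hρm : ∀ p, Measurable (ρ p) := fun p => (hW2m p).sub_const _
  have hW2b : ∀ p g, |W2 w p g| ≤ C ^ 2 := fun p g => by
    unfold W2
    rw [abs_mul, pow_two]
    have h1 := hC p g.1
    have h2 := hC p g.2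
    have h3 := (abs_nonneg _).trans h1
    gcongr
  have hρb : ∀ p g, |ρ p g| ≤ C ^ 2 + c ^ 2 := fun p g => by
    simp only [hρ]
    refine (abs_sub _ _).trans ?_
    rw [abs_of_nonneg (sq_nonneg c)]
    linarith [hW2b p g]
  have hW2s : ∀ p (g : G × G), W2 w p g.swap = W2 w p g := fun p g => by
    unfold W2
    simp [mul_comm]
  have hρs : ∀ p (g : G × G), ρ p g.swap = ρ p g := fun p g => by
    simp only [hρ]
    rw [hW2s]
  have hW2pos : ∀ p (g : G × G), 0 < W2 w p g := fun p g => mul_pos (hw0 p _) (hw0 p _)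
  have hρ0 : ∀ p ∈ M, ∀ g, 0 ≤ ρ p g := fun p hp g => by
    simp only [hρ, W2]
    have h1 := (hMw p hp g.1).1
    have h2 := (hMw p hp g.2).1
    nlinarith
  have hW21 : ∀ p ∈ M, ∀ g, W2 w p g ≤ 1 := fun p hp g => by
    unfold W2
    exact mul_le_one₀ (hMw p hp g.1).2 (hw0 p _).le (hMw p hp g.2).2
  -- the expansion
  have hprod : ∀ U : Lk d → G × G, ∏ p ∈ Λ, W2 w p (hol p U) =
      (∏ p ∈ Sh, W2 w p (hol p U)) * ∏ p ∈ M, W2 w p (hol p U) := fun U => by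
    rw [hSh, hM, Finset.prod_filter_mul_prod_filter_not]
  have hexp : ∀ U : Lk d → G × G, ∏ p ∈ M, W2 w p (hol p U) =
      ∑ Y ∈ M.powerset, (∏ p ∈ Y, ρ p (hol p U)) * ∏ _p ∈ M \ Y, c ^ 2 := fun U => by
    rw [← Finset.prod_add]
    exact Finset.prod_congr rfl fun p _ => by simp only [hρ]; ring
  -- the weights of the terms
  have hb1 : ∀ U : Lk d → G × G,
      ∑ Y ∈ M.powerset.filter (fun Y => Ev m A B a b Y),
        (∏ p ∈ Y, ρ p (hol p U)) * ∏ _p ∈ M \ Y, c ^ 2 ≤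
        (Cd d * y) ^ nd a b * ∏ p ∈ M, W2 w p (hol p U) := by
    intro U
    set t : Pq d → ℝ := fun p => if p ∈ M then ρ p (hol p U) / W2 w p (hol p U) else 0 with ht
    have ht0 : ∀ p, 0 ≤ t p := fun p => by
      simp only [ht]
      split_ifs with hp
      · exact div_nonneg (hρ0 p hp _) (hW2pos p _).le
      · exact le_rfl
    have ht1 : ∀ p, t p ≤ y ^ 40 := fun p => by
      simp only [ht]
      split_ifs with hp
      · refine le_trans ?_ hcy
        rw [div_le_iff₀ (hW2pos p _)]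
        have h1 := hW21 p hp (hol p U)
        simp only [hρ]
        nlinarith [sq_nonneg c]
      · exact pow_nonneg hy0 _
    have h2 := perc m M hMne A B hA hB a b ha hb t y hy0 hy ht0 ht1 hD
    have h3 : ∀ Y ∈ M.powerset.filter (fun Y => Ev m A B a b Y),
        (∏ p ∈ Y, ρ p (hol p U)) * ∏ _p ∈ M \ Y, c ^ 2 =
        bern t M Y * ∏ p ∈ M, W2 w p (hol p U) := by
      intro Y hY
      have hYM : Y ⊆ M := Finset.mem_powerset.1 (Finset.mem_filter.1 hY).1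
      rw [← Finset.prod_sdiff hYM]
      unfold bern
      have e1 : ∏ p ∈ Y, ρ p (hol p U) = (∏ p ∈ Y, t p) * ∏ p ∈ Y, W2 w p (hol p U) := by
        rw [← Finset.prod_mul_distrib]
        refine Finset.prod_congr rfl fun p hp => ?_
        simp only [ht]
        rw [if_pos (hYM hp), div_mul_cancel₀ _ (hW2pos p _).ne']
      have e2 : ∏ _p ∈ M \ Y, c ^ 2 = (∏ p ∈ M \ Y, (1 - t p)) *
          ∏ p ∈ M \ Y, W2 w p (hol p U) := by
        rw [← Finset.prod_mul_distrib]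
        refine Finset.prod_congr rfl fun p hp => ?_
        simp only [ht]
        rw [if_pos (Finset.mem_sdiff.1 hp).1, sub_mul, div_mul_cancel₀ _ (hW2pos p _).ne']
        simp only [hρ]
        ring
      rw [e1, e2]
      ring
    rw [Finset.sum_congr rfl h3, ← Finset.sum_mul]
    exact mul_le_mul_of_nonneg_right h2 (Finset.prod_nonneg fun p _ => (hW2pos p _).le)
  have hCp : 0 ≤ C ^ 2 + c ^ 2 := by positivity
  have hintY : ∀ Y : Finset (Pq d), Integrable (fun U : Lk d → G × G =>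
      dif F U * dif H U * (∏ p ∈ Sh, W2 w p (hol p U)) * (∏ p ∈ Y, ρ p (hol p U)))
      (PP (Lk d) (μ.prod μ)) := by
    intro Y
    refine Integrable.of_bound (C := (2 * CF) * (2 * CH) * (C ^ 2) ^ Sh.card *
      (C ^ 2 + c ^ 2) ^ Y.card) ?_ (Filter.Eventually.of_forall fun U => ?_)
    · exact ((((dif_meas hF).mul (dif_meas hH)).mul (prod_meas Sh _ hW2m)).mul
        (prod_meas Y _ hρm)).aestronglyMeasurable
    · rw [Real.norm_eq_abs, abs_mul, abs_mul, abs_mul]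
      have a1 := dif_bd hCF U
      have a2 := dif_bd hCH U
      have a3 := prod_bd Sh (W2 w) (C ^ 2) hW2b U
      have a4 := prod_bd Y ρ (C ^ 2 + c ^ 2) hρb U
      gcongr
  have hJ : ∫ U, dif F U * dif H U * (∏ p ∈ Λ, W2 w p (hol p U)) ∂PP (Lk d) (μ.prod μ) =
      ∫ U, dif F U * dif H U * (∏ p ∈ Sh, W2 w p (hol p U)) *
        (∑ Y ∈ M.powerset.filter (fun Y => Ev m A B a b Y),
        (∏ p ∈ Y, ρ p (hol p U)) * ∏ _p ∈ M \ Y, c ^ 2) ∂PP (Lk d) (μ.prod μ) := by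
    have e1 : ∀ U : Lk d → G × G, dif F U * dif H U * (∏ p ∈ Λ, W2 w p (hol p U)) =
        ∑ Y ∈ M.powerset, (dif F U * dif H U * (∏ p ∈ Sh, W2 w p (hol p U)) *
          (∏ p ∈ Y, ρ p (hol p U))) * ∏ _p ∈ M \ Y, c ^ 2 := by
      intro U
      rw [hprod, hexp, ← mul_assoc, Finset.mul_sum]
      exact Finset.sum_congr rfl fun Y _ => by ring
    have e2 : ∀ U : Lk d → G × G, dif F U * dif H U * (∏ p ∈ Sh, W2 w p (hol p U)) *
        (∑ Y ∈ M.powerset.filter (fun Y => Ev m A B a b Y),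
        (∏ p ∈ Y, ρ p (hol p U)) * ∏ _p ∈ M \ Y, c ^ 2) =
        ∑ Y ∈ M.powerset.filter (fun Y => Ev m A B a b Y),
          (dif F U * dif H U * (∏ p ∈ Sh, W2 w p (hol p U)) *
          (∏ p ∈ Y, ρ p (hol p U))) * ∏ _p ∈ M \ Y, c ^ 2 := by
      intro U
      rw [Finset.mul_sum]
      exact Finset.sum_congr rfl fun Y _ => by ring
    rw [integral_congr_ae (Filter.Eventually.of_forall e1),
      integral_congr_ae (Filter.Eventually.of_forall e2),
      integral_finsetSum _ (fun Y _ => (hintY Y).mul_const _),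
      integral_finsetSum _ (fun Y _ => (hintY Y).mul_const _)]
    rw [Finset.sum_filter]
    refine Finset.sum_congr rfl fun Y _ => ?_
    split_ifs with hEv
    · rfl
    · rw [integral_mul_const, term_zero μ hm Sh hSheet Y (W2 w) ρ hW2m hρm (C ^ 2 + c ^ 2) hCp
        (fun p g => (hW2b p g).trans (by nlinarith [sq_nonneg c])) hρb hW2s hρs F H hF hH CF CH
        hCF hCH A B a b ha hb hFd hHd hEv, zero_mul]
  have hcov := two_cov μ Λ w hwm C hC F H hF hH CF CH hCF hCH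
  rw [hJ] at hcov
  have hZ2 : ∫ U, ∏ p ∈ Λ, W2 w p (hol p U) ∂PP (Lk d) (μ.prod μ) =
      (∫ U, wt Λ w U ∂PP (Lk d) μ) ^ 2 := by
    rw [pow_two, ← two_int μ (wt Λ w) (wt Λ w) (wt_meas Λ w hwm) (wt_meas Λ w hwm)]
    exact integral_congr_ae (Filter.Eventually.of_forall fun U => wt_two Λ w U)
  have hbound : |∫ U, dif F U * dif H U * (∏ p ∈ Sh, W2 w p (hol p U)) *
        (∑ Y ∈ M.powerset.filter (fun Y => Ev m A B a b Y),
        (∏ p ∈ Y, ρ p (hol p U)) * ∏ _p ∈ M \ Y, c ^ 2) ∂PP (Lk d) (μ.prod μ)| ≤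
      (2 * CF) * (2 * CH) * (Cd d * y) ^ nd a b * (∫ U, wt Λ w U ∂PP (Lk d) μ) ^ 2 := by
    rw [← hZ2, ← integral_const_mul, ← Real.norm_eq_abs]
    refine (norm_integral_le_integral_norm _).trans ?_
    refine integral_mono_of_nonneg (Filter.Eventually.of_forall fun U => norm_nonneg _) ?_
      (Filter.Eventually.of_forall fun U => ?_)
    · refine Integrable.const_mul ?_ _
      refine Integrable.of_bound (C := (C ^ 2) ^ Λ.card)
        (prod_meas Λ _ hW2m).aestronglyMeasurable (Filter.Eventually.of_forall fun U => ?_)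
      exact prod_bd Λ (W2 w) (C ^ 2) hW2b U
    · simp only [Real.norm_eq_abs]
      rw [abs_mul, abs_mul, abs_mul, hprod]
      have a1 := dif_bd hCF U
      have a2 := dif_bd hCH U
      have a3 : |∏ p ∈ Sh, W2 w p (hol p U)| = ∏ p ∈ Sh, W2 w p (hol p U) :=
        abs_of_nonneg (Finset.prod_nonneg fun p _ => (hW2pos p _).le)
      have a4 : |∑ Y ∈ M.powerset.filter (fun Y => Ev m A B a b Y),
        (∏ p ∈ Y, ρ p (hol p U)) * ∏ _p ∈ M \ Y, c ^ 2| ≤
        (Cd d * y) ^ nd a b * ∏ p ∈ M, W2 w p (hol p U) := by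
        rw [abs_of_nonneg]
        · exact hb1 U
        · refine Finset.sum_nonneg fun Y hY => mul_nonneg (Finset.prod_nonneg fun p hp =>
            hρ0 p ?_ _) (Finset.prod_nonneg fun _ _ => sq_nonneg c)
          exact Finset.mem_powerset.1 (Finset.mem_filter.1 hY).1 hp
      rw [a3]
      have a5 : 0 ≤ ∏ p ∈ Sh, W2 w p (hol p U) := Finset.prod_nonneg fun p _ => (hW2pos p _).le
      calc |dif F U| * |dif H U| * (∏ p ∈ Sh, W2 w p (hol p U)) *
            |∑ Y ∈ M.powerset.filter (fun Y => Ev m A B a b Y),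
            (∏ p ∈ Y, ρ p (hol p U)) * ∏ _p ∈ M \ Y, c ^ 2|
          ≤ (2 * CF) * (2 * CH) * (∏ p ∈ Sh, W2 w p (hol p U)) *
            ((Cd d * y) ^ nd a b * ∏ p ∈ M, W2 w p (hol p U)) := by gcongr
        _ = _ := by ring
  rw [hcov, abs_mul, abs_two] at hbound
  nlinarith [hbound]

end Pool.Agent.T2H03.YM
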