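import Mathlib
import Pool.Agent.T2H03.YM.Cov

/-!
# Expectations in finite volume and their dependence on the volume
-/

set_option autoImplicit false
set_option linter.unusedSectionVars false

open MeasureTheory Measure Set Relation

namespace Pool.Agent.T2H03.YM

variable {d : ℕ} {G : Type*} [Group G] [MeasurableSpace G] [MeasurableMul₂ G] [MeasurableInv G]

theorem CC_Icc (u v : V d) : CC (Finset.Icc u v) := by
  have key : ∀ n, ∀ a ∈ Finset.Icc u v, ∀ b ∈ Finset.Icc u v, nd a b ≤ n →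
      ReflTransGen (stp (Finset.Icc u v)) a b := by
    intro n
    induction n with
    | zero =>
      intro a _ b _ h
      have : a = b := by
        funext i
        have := nd_le.1 h i
        omega
      rw [this]
    | succ n ih =>
      intro a ha b hb h
      set b' : V d := fun i => b i + Int.sign (a i - b i) with hb'
      have hsg : ∀ i, (a i < b i ∧ b' i = b i - 1) ∨ (a i = b i ∧ b' i = b i) ∨
          (b i < a i ∧ b' i = b i + 1) := by
        intro i
        simp only [hb']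
        rcases lt_trichotomy (a i - b i) 0 with h2 | h2 | h2
        · left; rw [Int.sign_eq_neg_one_of_neg h2]; omega
        · right; left; rw [h2, Int.sign_zero]; omega
        · right; right; rw [Int.sign_eq_one_of_pos h2]; omega
      have h1 : nd a b' ≤ n := by
        rw [nd_le] at h ⊢
        intro i
        have h3 := h i
        rcases hsg i with h2 | h2 | h2 <;> omega
      have h2 : adj b' b := by
        intro i
        rcases hsg i with h2 | h2 | h2 <;> omega
      have h3 : b' ∈ Finset.Icc u v := by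
        rw [Finset.mem_Icc] at ha hb ⊢
        constructor
        · intro i
          have a1 : u i ≤ a i := ha.1 i
          have a2 : u i ≤ b i := hb.1 i
          show u i ≤ b' i
          rcases hsg i with h2 | h2 | h2 <;> omega
        · intro i
          have a1 : a i ≤ v i := ha.2 i
          have a2 : b i ≤ v i := hb.2 i
          show b' i ≤ v i
          rcases hsg i with h2 | h2 | h2 <;> omega
      exact (ih a ha b' h3 h1).tail ⟨h2, h3, hb⟩
  exact fun a ha b hb => key _ a ha b hb le_rfl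

theorem CC_vt {p : Pq d} (hp : p.2.1 ≠ p.2.2) : CC (vt p) :=
  fun _ hu _ hv => .single ⟨vt_adj hu hv hp, hu, hv⟩

variable (μ : Measure G) [IsProbabilityMeasure μ]

/-- the expectation with the weights `w` of the plaquettes of `Λ` -/
noncomputable def ex (Λ : Finset (Pq d)) (w : Pq d → G → ℝ) (F : (Lk d → G) → ℝ) : ℝ :=
  (∫ U, F U * wt Λ w U ∂PP (Lk d) μ) / ∫ U, wt Λ w U ∂PP (Lk d) μ

/-- the hypotheses on the weights -/
structure WH (m : Fin d → Fin d) (w : Pq d → G → ℝ) (c C y : ℝ) : Prop where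
  hm : ∀ i, m (m i) = i
  meas : ∀ p, Measurable (w p)
  pos : ∀ p g, 0 < w p g
  le : ∀ p g, w p g ≤ C
  c0 : 0 < c
  mix : ∀ p, p.2.1 < p.2.2 → m p.2.1 ≠ p.2.2 → ∀ g, c ≤ w p g ∧ w p g ≤ 1
  y0 : 0 ≤ y
  y1 : Cd d * y ≤ 1 / 2
  cy : 1 - c ^ 2 ≤ y ^ 40

section WH

variable {m : Fin d → Fin d} {w : Pq d → G → ℝ} {c C y : ℝ} (hw : WH m w c C y)

include hw

theorem wt_pos (Λ : Finset (Pq d)) (U : Lk d → G) : 0 < wt Λ w U :=
  Finset.prod_pos fun p _ => hw.pos p _

theorem C_pos [Inhabited (Pq d)] : 0 < C := (hw.pos default 1).trans_le (hw.le default 1)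

theorem wt_le (Λ : Finset (Pq d)) (U : Lk d → G) : wt Λ w U ≤ C ^ Λ.card := by
  unfold wt
  rw [← Finset.prod_const]
  exact Finset.prod_le_prod (fun p _ => (hw.pos p _).le) fun p _ => hw.le p _

theorem wt_int (Λ : Finset (Pq d)) : Integrable (wt Λ w) (PP (Lk d) μ) := by
  refine Integrable.of_bound (C := C ^ Λ.card) (wt_meas Λ w hw.meas).aestronglyMeasurable
    (Filter.Eventually.of_forall fun U => ?_)
  rw [Real.norm_eq_abs, abs_of_pos (wt_pos hw Λ U)]
  exact wt_le hw Λ U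

theorem mul_wt_int (Λ : Finset (Pq d)) {F : (Lk d → G) → ℝ} (hF : Measurable F) {CF : ℝ}
    (hCF : ∀ U, |F U| ≤ CF) : Integrable (fun U => F U * wt Λ w U) (PP (Lk d) μ) := by
  refine Integrable.of_bound (C := CF * C ^ Λ.card)
    (hF.mul (wt_meas Λ w hw.meas)).aestronglyMeasurable
    (Filter.Eventually.of_forall fun U => ?_)
  rw [Real.norm_eq_abs, abs_mul, abs_of_pos (wt_pos hw Λ U)]
  exact mul_le_mul (hCF U) (wt_le hw Λ U) (wt_pos hw Λ U).le ((abs_nonneg _).trans (hCF U))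

theorem Z_pos (Λ : Finset (Pq d)) : 0 < ∫ U, wt Λ w U ∂PP (Lk d) μ := by
  rw [integral_pos_iff_support_of_nonneg (fun U => (wt_pos hw Λ U).le) (wt_int μ hw Λ)]
  have : Function.support (wt Λ w) = univ := by
    ext U
    simp [(wt_pos hw Λ U).ne']
  rw [this]
  simp

theorem ex_mono (Λ : Finset (Pq d)) {F H : (Lk d → G) → ℝ} (hF : Measurable F) (hH : Measurable H)
    {CF CH : ℝ} (hCF : ∀ U, |F U| ≤ CF) (hCH : ∀ U, |H U| ≤ CH) (hFH : ∀ U, F U ≤ H U) :
    ex μ Λ w F ≤ ex μ Λ w H := by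
  unfold ex
  refine div_le_div_of_nonneg_right ?_ (Z_pos μ hw Λ).le
  exact integral_mono (mul_wt_int μ hw Λ hF hCF) (mul_wt_int μ hw Λ hH hCH)
    fun U => mul_le_mul_of_nonneg_right (hFH U) (wt_pos hw Λ U).le

theorem ex_const (Λ : Finset (Pq d)) (a : ℝ) : ex μ Λ w (fun _ => a) = a := by
  unfold ex
  rw [integral_const_mul, mul_div_assoc, div_self (Z_pos μ hw Λ).ne', mul_one]

theorem ex_abs_le (Λ : Finset (Pq d)) {F : (Lk d → G) → ℝ} (hF : Measurable F)
    {CF : ℝ} (hCF : ∀ U, |F U| ≤ CF) : |ex μ Λ w F| ≤ CF := by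
  have h0 : 0 ≤ CF := (abs_nonneg _).trans (hCF fun _ => 1)
  rw [abs_le]
  constructor
  · rw [← ex_const μ hw Λ (-CF)]
    refine ex_mono μ hw Λ measurable_const hF (CF := CF) (CH := CF) (fun U => ?_) hCF fun U => ?_
    · rw [abs_neg, abs_of_nonneg h0]
    · exact (abs_le.1 (hCF U)).1
  · rw [← ex_const μ hw Λ CF]
    refine ex_mono μ hw Λ hF measurable_const (CF := CF) (CH := CF) hCF (fun U => ?_) fun U => ?_
    · rw [abs_of_nonneg h0]
    · exact (abs_le.1 (hCF U)).2

variable [μ.IsMulLeftInvariant] [μ.IsMulRightInvariant] [μ.IsInvInvariant]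

/-- the bound of the truncated correlations -/
theorem ex_cov (Λ : Finset (Pq d)) (hΛ : ∀ p ∈ Λ, p.2.1 < p.2.2) {F H : (Lk d → G) → ℝ}
    (hF : Measurable F) (hH : Measurable H) {CF CH : ℝ} (hCF : ∀ U, |F U| ≤ CF)
    (hCH : ∀ U, |H U| ≤ CH) {A B : Finset (V d)} (hA : CC A) (hB : CC B) {a b : V d} (ha : a ∈ A)
    (hb : b ∈ B) (hFd : DependsOn F {l | l.1 ∈ A ∧ l.1 + e l.2 ∈ A})
    (hHd : DependsOn H {l | l.1 ∈ B ∧ l.1 + e l.2 ∈ B})
    (hD : 10 * (A.card + B.card) ≤ nd a b) :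
    |ex μ Λ w (fun U => F U * H U) - ex μ Λ w F * ex μ Λ w H| ≤
      2 * CF * CH * (Cd d * y) ^ nd a b := by
  have h1 := cov_bound μ hw.hm Λ hΛ w hw.meas hw.pos C hw.le c hw.c0
    (fun p hp hmp => hw.mix p (hΛ p hp) hmp) y hw.y0 hw.y1 hw.cy F H hF hH CF CH hCF hCH A B hA hB
    a b ha hb hFd hHd hD
  have hZ := Z_pos μ hw Λ
  unfold ex
  set Z := ∫ U, wt Λ w U ∂PP (Lk d) μ with hZd
  set X := ∫ U, F U * H U * wt Λ w U ∂PP (Lk d) μ with hX
  set x := ∫ U, F U * wt Λ w U ∂PP (Lk d) μ with hx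
  set z := ∫ U, H U * wt Λ w U ∂PP (Lk d) μ with hz
  have h2 : X / Z - x / Z * (z / Z) = (X * Z - x * z) / Z ^ 2 := by
    field_simp
  rw [h2, abs_div, abs_of_pos (pow_pos hZ 2), div_le_iff₀ (pow_pos hZ 2)]
  exact h1

/-- one more mixed plaquette -/
theorem add_mixed (Λ : Finset (Pq d)) (hΛ : ∀ p ∈ Λ, p.2.1 < p.2.2) {F : (Lk d → G) → ℝ}
    (hF : Measurable F) {CF : ℝ} (hCF : ∀ U, |F U| ≤ CF) {A : Finset (V d)} (hA : CC A)
    {a : V d} (ha : a ∈ A) (hFd : DependsOn F {l | l.1 ∈ A ∧ l.1 + e l.2 ∈ A})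
    (p : Pq d) (hp : p ∉ Λ) (hp1 : p.2.1 < p.2.2) (hp2 : m p.2.1 ≠ p.2.2)
    (hD : 10 * (A.card + 4) ≤ nd a p.1) [DecidableEq (Pq d)] :
    |ex μ (insert p Λ) w F - ex μ Λ w F| ≤ 2 * CF / c * (Cd d * y) ^ nd a p.1 := by
  have hH : Measurable (fun U : Lk d → G => w p (hol p U)) := (hw.meas p).comp (hol_meas p)
  have hmix := hw.mix p hp1 hp2
  have hHb : ∀ U : Lk d → G, |w p (hol p U)| ≤ 1 := fun U => by
    rw [abs_of_pos (hw.pos p _)]
    exact (hmix _).2
  have hcard : (vt p).card ≤ 4 := Finset.card_le_four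
  have hcov := ex_cov μ hw Λ hΛ hF hH hCF hHb hA (CC_vt hp1.ne) ha (b := p.1) (by simp [vt]) hFd
    (fun U U' hU => by
      show w p (hol p U) = w p (hol p U')
      rw [hol_dep p fun l hl => hU l (bd_vt hl)])
    (by omega)
  have hZ := Z_pos μ hw Λ
  have hE : c ≤ ex μ Λ w (fun U => w p (hol p U)) := by
    rw [← ex_const μ hw Λ c]
    refine ex_mono μ hw Λ measurable_const hH (CF := |c|) (CH := 1) (fun _ => le_rfl) hHb
      fun U => (hmix _).1
  have hE0 : 0 < ex μ Λ w (fun U => w p (hol p U)) := hw.c0.trans_le hE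
  have e1 : ∀ U : Lk d → G, wt (insert p Λ) w U = w p (hol p U) * wt Λ w U := by
    intro U
    unfold wt
    rw [Finset.prod_insert hp]
  have e2 : ex μ (insert p Λ) w F = ex μ Λ w (fun U => F U * w p (hol p U)) /
      ex μ Λ w (fun U => w p (hol p U)) := by
    unfold ex
    rw [div_div_div_cancel_right₀ hZ.ne']
    congr 1
    · exact integral_congr_ae (Filter.Eventually.of_forall fun U => by
        show F U * wt (insert p Λ) w U = F U * w p (hol p U) * wt Λ w U
        rw [e1]; ring)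
    · exact integral_congr_ae (Filter.Eventually.of_forall fun U => e1 U)
  have e3 : ex μ (insert p Λ) w F - ex μ Λ w F = (ex μ Λ w (fun U => F U * w p (hol p U)) -
      ex μ Λ w F * ex μ Λ w (fun U => w p (hol p U))) / ex μ Λ w (fun U => w p (hol p U)) := by
    rw [e2]
    field_simp
  rw [e3, abs_div, abs_of_pos hE0, div_le_iff₀ hE0]
  refine hcov.trans ?_
  have h0 : 0 ≤ CF := (abs_nonneg _).trans (hCF fun _ => 1)
  have h1 : 0 ≤ (Cd d * y) ^ nd a p.1 := by
    have : 0 ≤ Cd d * y := mul_nonneg (by unfold Cd; positivity) hw.y0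
    positivity
  have h2 : 2 * CF / c * (Cd d * y) ^ nd a p.1 * ex μ Λ w (fun U => w p (hol p U)) ≥
      2 * CF / c * (Cd d * y) ^ nd a p.1 * c := by
    refine mul_le_mul_of_nonneg_left hE ?_
    have := hw.c0
    positivity
  have h3 : 2 * CF / c * (Cd d * y) ^ nd a p.1 * c = 2 * CF * 1 * (Cd d * y) ^ nd a p.1 := by
    have := hw.c0.ne'
    field_simp
  linarith

/-- more mixed plaquettes -/
theorem add_mixeds (Λ : Finset (Pq d)) (hΛ : ∀ p ∈ Λ, p.2.1 < p.2.2) {F : (Lk d → G) → ℝ}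
    (hF : Measurable F) {CF : ℝ} (hCF : ∀ U, |F U| ≤ CF) {A : Finset (V d)} (hA : CC A)
    {a : V d} (ha : a ∈ A) (hFd : DependsOn F {l | l.1 ∈ A ∧ l.1 + e l.2 ∈ A})
    [DecidableEq (Pq d)] (M : Finset (Pq d)) (hM : ∀ p ∈ M, p ∉ Λ ∧ p.2.1 < p.2.2 ∧
      m p.2.1 ≠ p.2.2 ∧ 10 * (A.card + 4) ≤ nd a p.1) :
    |ex μ (M ∪ Λ) w F - ex μ Λ w F| ≤ ∑ p ∈ M, 2 * CF / c * (Cd d * y) ^ nd a p.1 := by
  induction M using Finset.induction_on with
  | empty => simp
  | insert p M hp ih =>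
    have ih' := ih fun q hq => hM q (Finset.mem_insert_of_mem hq)
    have h1 := hM p (Finset.mem_insert_self _ _)
    have h2 := add_mixed μ hw (M ∪ Λ) (fun q hq => by
      rw [Finset.mem_union] at hq
      rcases hq with hq | hq
      · exact (hM q (Finset.mem_insert_of_mem hq)).2.1
      · exact hΛ q hq) hF hCF hA ha hFd p (by
        rw [Finset.mem_union]
        push Not
        exact ⟨hp, h1.1⟩) h1.2.1 h1.2.2.1 h1.2.2.2
    rw [Finset.insert_union, Finset.sum_insert hp]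
    calc |ex μ (insert p (M ∪ Λ)) w F - ex μ Λ w F| ≤
          |ex μ (insert p (M ∪ Λ)) w F - ex μ (M ∪ Λ) w F| +
          |ex μ (M ∪ Λ) w F - ex μ Λ w F| := abs_sub_le _ _ _
      _ ≤ _ := add_le_add h2 ih'

/-- the plaquettes of a box -/
noncomputable def bx (u v : V d) : Finset (Pq d) :=
  (Finset.Icc u v ×ˢ (Finset.univ : Finset (Fin d × Fin d))).filter fun p =>
    p.2.1 < p.2.2 ∧ p.1 + e p.2.1 + e p.2.2 ∈ Finset.Icc u v

omit hw in
theorem mem_bx {u v : V d} {p : Pq d} : p ∈ bx u v ↔ p.1 ∈ Finset.Icc u v ∧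
    p.2.1 < p.2.2 ∧ p.1 + e p.2.1 + e p.2.2 ∈ Finset.Icc u v := by
  unfold bx
  rw [Finset.mem_filter, Finset.mem_product]
  simp

omit hw in
theorem e_nonneg (i j : Fin d) : 0 ≤ e i j := by
  by_cases h : i = j
  · subst h; rw [e_same]; norm_num
  · rw [e_ne h]

omit hw in
theorem bx_vt {u v : V d} {p : Pq d} (hp : p ∈ bx u v) {x : V d} (hx : x ∈ vt p) :
    x ∈ Finset.Icc u v := by
  rw [mem_bx] at hp
  obtain ⟨h1, -, h3⟩ := hp
  rw [Finset.mem_Icc] at h1 h3 ⊢
  rw [mem_vt] at hx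
  constructor <;> intro k
  · have a1 : u k ≤ p.1 k := h1.1 k
    have a2 := e_nonneg p.2.1 k
    have a3 := e_nonneg p.2.2 k
    show u k ≤ x k
    rcases hx with rfl | rfl | rfl | rfl <;> (try simp only [Pi.add_apply]) <;> omega
  · have a1 : p.1 k + e p.2.1 k + e p.2.2 k ≤ v k := h3.2 k
    have a2 := e_nonneg p.2.1 k
    have a3 := e_nonneg p.2.2 k
    show x k ≤ v k
    rcases hx with rfl | rfl | rfl | rfl <;> (try simp only [Pi.add_apply]) <;> omega

/-- more sheet plaquettes outside of a box -/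
theorem add_sheets [DecidableEq (Pq d)] (u v : V d) {F : (Lk d → G) → ℝ}
    (hF : Measurable F) {CF : ℝ} (hCF : ∀ U, |F U| ≤ CF)
    (hFd : DependsOn F {l | l.1 ∈ Finset.Icc u v ∧ l.1 + e l.2 ∈ Finset.Icc u v})
    (S : Finset (Pq d)) (hS : ∀ p ∈ S, Sheet m p ∧ p ∉ bx u v) :
    ex μ (S ∪ bx u v) w F = ex μ (bx u v) w F := by
  classical
  -- the labels: the box is one label, all other vertices are alone
  set c' : V d → Option (V d) := fun x => if x ∈ Finset.Icc u v then none else some x with hc'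
  have hnone : ∀ x, c' x = none ↔ x ∈ Finset.Icc u v := by
    intro x
    simp only [hc']
    split_ifs with h <;> simp [h]
  have hsome : ∀ x z, c' x = some z → x = z := by
    intro x z h
    simp only [hc'] at h
    split_ifs at h
    exact Option.some.inj h
  have hun : ∀ p ∈ S, ∀ κ, ¬ TrapP c' κ p := by
    rintro ⟨x, i, j⟩ hp κ ht
    obtain ⟨hsh, hnb⟩ := hS _ hp
    unfold TrapP at ht
    simp only at ht
    obtain ⟨n, hn, h1⟩ := ht.up
    obtain ⟨k, hk, h2⟩ := ht.symm.up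
    have hij : i ≠ j := hsh.1.ne
    rcases κ with _ | z
    · rw [hnone, Finset.mem_Icc] at h1 h2
      apply hnb
      rw [mem_bx]
      simp only [Finset.mem_Icc]
      have b1 : ∀ k', u k' ≤ x k' ∧ x k' ≤ v k' ∧ x k' + e i k' + e j k' ≤ v k' := by
        intro k'
        have a1 : u k' ≤ (x + (n : ℤ) • e j) k' := h1.1 k'
        have a2 : (x + (n : ℤ) • e j) k' ≤ v k' := h1.2 k'
        have a3 : u k' ≤ (x + (k : ℤ) • e i) k' := h2.1 k'
        have a4 : (x + (k : ℤ) • e i) k' ≤ v k' := h2.2 k'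
        simp only [Pi.add_apply, Pi.smul_apply, smul_eq_mul] at a1 a2 a3 a4
        by_cases hki : i = k'
        · subst hki
          rw [e_same] at a3 a4
          rw [e_ne hij.symm] at a1 a2
          rw [e_same, e_ne hij.symm]
          simp only [mul_one, mul_zero, add_zero] at a1 a2 a3 a4
          omega
        · by_cases hkj : j = k'
          · subst hkj
            rw [e_same] at a1 a2
            rw [e_ne hij] at a3 a4
            rw [e_same, e_ne hij]
            simp only [mul_one, mul_zero, add_zero] at a1 a2 a3 a4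
            omega
          · rw [e_ne hkj] at a1 a2
            rw [e_ne hki] at a3 a4
            rw [e_ne hki, e_ne hkj]
            simp only [mul_zero, add_zero] at a1 a2 a3 a4
            omega
      refine ⟨⟨fun k' => (b1 k').1, fun k' => (b1 k').2.1⟩, hsh.1, ⟨fun k' => ?_,
        fun k' => (b1 k').2.2⟩⟩
      have := (b1 k').1
      have a2 := e_nonneg i k'
      have a3 := e_nonneg j k'
      show u k' ≤ x k' + e i k' + e j k'
      omega
    · have h3 := hsome _ _ h1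
      have h4 := hsome _ _ h2
      have h5 : (x + (n : ℤ) • e j) j = (x + (k : ℤ) • e i) j := by rw [h3, h4]
      simp only [Pi.add_apply, Pi.smul_apply, smul_eq_mul, e_same, e_ne hij] at h5
      omega
  set D : Set (Lk d) := {l | l.1 ∈ Finset.Icc u v ∧ l.1 + e l.2 ∈ Finset.Icc u v} with hD
  have hfree : ∀ S' ⊆ S, S'.Nonempty → ∃ p ∈ S', ∃ l ∈ bd p, l ∉ D ∧
      ∀ q ∈ S', q ≠ p → l ∉ bd q := by
    intro S' hS' hne
    obtain ⟨p, hp, l, hl, h1, h2⟩ := exists_free (c := c') hw.hm S' (fun p hp => (hS p (hS' hp)).1)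
      hne fun p hp => hun p (hS' hp)
    refine ⟨p, hp, l, hl, ?_, h2⟩
    rintro ⟨h3, h4⟩
    exact h1 none ⟨(hnone _).2 h3, (hnone _).2 h4⟩
  have hdis : Disjoint S (bx u v) := by
    rw [Finset.disjoint_left]
    exact fun p hp => (hS p hp).2
  have hwtD : DependsOn (wt (bx u v) w) D := by
    intro U U' hU
    unfold wt
    refine Finset.prod_congr rfl fun p hp => ?_
    rw [hol_dep p fun l hl => hU l ⟨bx_vt hp (bd_vt hl).1, bx_vt hp (bd_vt hl).2⟩]
  have hC : ∀ p g, |w p g| ≤ C := fun p g => by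
    rw [abs_of_pos (hw.pos p g)]; exact hw.le p g
  have hwtb : ∀ U, |wt (bx u v) w U| ≤ C ^ (bx u v).card := fun U => by
    rw [abs_of_pos (wt_pos hw _ U)]; exact wt_le hw _ U
  have hCF0 : 0 ≤ CF := (abs_nonneg _).trans (hCF fun _ => 1)
  have k1 := int_out μ (fun p : Pq d => hol (H := G) p) bd (fun p => hol_dep p)
    (fun p => hol_meas p) w hw.meas C hC D (fun U => F U * wt (bx u v) w U)
    (hF.mul (wt_meas _ w hw.meas)) (CF * C ^ (bx u v).card) (fun U => by
      rw [abs_mul]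
      exact mul_le_mul (hCF U) (hwtb U) (abs_nonneg _) hCF0)
    (fun U U' hU => by
      show F U * wt (bx u v) w U = F U' * wt (bx u v) w U'
      rw [hFd hU, hwtD hU]) S
    (fun p hp l hl => hol_tw p (hS p hp).1.1.ne l hl) hfree
  have k2 := int_out μ (fun p : Pq d => hol (H := G) p) bd (fun p => hol_dep p)
    (fun p => hol_meas p) w hw.meas C hC D (wt (bx u v) w)
    (wt_meas _ w hw.meas) (C ^ (bx u v).card) hwtb hwtD S
    (fun p hp l hl => hol_tw p (hS p hp).1.1.ne l hl) hfree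
  have hpos : 0 < ∏ p ∈ S, ∫ g, w p g ∂μ := by
    refine Finset.prod_pos fun p _ => ?_
    rw [integral_pos_iff_support_of_nonneg (fun g => (hw.pos p g).le)]
    · have : Function.support (w p) = univ := by
        ext g
        simp [(hw.pos p g).ne']
      rw [this]
      simp
    · refine Integrable.of_bound (C := C) (hw.meas p).aestronglyMeasurable
        (Filter.Eventually.of_forall fun g => hC p g)
  unfold ex
  have e1 : ∀ U : Lk d → G, wt (S ∪ bx u v) w U = wt (bx u v) w U * ∏ p ∈ S, w p (hol p U) := by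
    intro U
    unfold wt
    rw [Finset.prod_union hdis, mul_comm]
  have e2 : ∫ U, F U * wt (S ∪ bx u v) w U ∂PP (Lk d) μ =
      (∫ U, F U * wt (bx u v) w U ∂PP (Lk d) μ) * ∏ p ∈ S, ∫ g, w p g ∂μ := by
    rw [← k1]
    exact integral_congr_ae (Filter.Eventually.of_forall fun U => by
      show F U * wt (S ∪ bx u v) w U = F U * wt (bx u v) w U * ∏ p ∈ S, w p (hol p U)
      rw [e1]; ring)
  have e3 : ∫ U, wt (S ∪ bx u v) w U ∂PP (Lk d) μ =
      (∫ U, wt (bx u v) w U ∂PP (Lk d) μ) * ∏ p ∈ S, ∫ g, w p g ∂μ := by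
    rw [← k2]
    exact integral_congr_ae (Filter.Eventually.of_forall fun U => e1 U)
  rw [e2, e3, mul_div_mul_right _ _ hpos.ne']

end WH

end Pool.Agent.T2H03.YM
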