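import Mathlib
import Pool.Agent.T2H03.YM.Ex

/-!
# The infinite volume limit
-/

set_option autoImplicit false
set_option linter.unusedSectionVars false

open MeasureTheory Measure Set Relation Filter Topology

namespace Pool.Agent.T2H03.YM

variable {d : ℕ} {G : Type*} [Group G] [MeasurableSpace G] [MeasurableMul₂ G] [MeasurableInv G]

/-- the terms of the series which bounds the effect of the volume -/
noncomputable def tm (d : ℕ) (θ : ℝ) (k : ℕ) : ℝ := ((d * d : ℕ) : ℝ) * (2 * (k : ℝ) + 1) ^ d * θ ^ k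

theorem tm_nonneg (d : ℕ) {θ : ℝ} (h0 : 0 ≤ θ) (k : ℕ) : 0 ≤ tm d θ k := by
  unfold tm
  positivity

theorem tm_summable (d : ℕ) {θ : ℝ} (h0 : 0 ≤ θ) (h1 : θ < 1) : Summable (tm d θ) := by
  have hn : ‖θ‖ < 1 := by rw [Real.norm_eq_abs, abs_of_nonneg h0]; exact h1
  have s1 := summable_pow_mul_geometric_of_norm_lt_one d hn
  have s2 := summable_geometric_of_lt_one h0 h1
  have s3 : Summable fun k : ℕ => ((d * d : ℕ) : ℝ) * (3 ^ d * ((k : ℝ) ^ d * θ ^ k) + θ ^ k) :=
    ((s1.mul_left _).add s2).mul_left _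
  refine Summable.of_nonneg_of_le (tm_nonneg d h0) (fun k => ?_) s3
  unfold tm
  rw [mul_assoc]
  refine mul_le_mul_of_nonneg_left ?_ (Nat.cast_nonneg _)
  rcases Nat.eq_zero_or_pos k with hk | hk
  · subst hk
    simp only [Nat.cast_zero, mul_zero, zero_add, one_pow, pow_zero, mul_one, le_add_iff_nonneg_left]
    positivity
  · have hk' : (1 : ℝ) ≤ k := by exact_mod_cast hk
    have h2 : (2 * (k : ℝ) + 1) ^ d ≤ 3 ^ d * (k : ℝ) ^ d := by
      rw [← mul_pow]
      exact pow_le_pow_left₀ (by positivity) (by linarith) d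
    have h3 : 0 ≤ θ ^ k := pow_nonneg h0 k
    nlinarith

/-- the tails of the series -/
noncomputable def tl (d : ℕ) (θ : ℝ) (n : ℕ) : ℝ := ∑' k, tm d θ (k + n)

theorem tl_tendsto (d : ℕ) (θ : ℝ) : Tendsto (tl d θ) atTop (𝓝 0) :=
  tendsto_sum_nat_add (tm d θ)

theorem tl_nonneg (d : ℕ) {θ : ℝ} (h0 : 0 ≤ θ) (n : ℕ) : 0 ≤ tl d θ n :=
  tsum_nonneg fun _ => tm_nonneg d h0 _

theorem card_ball (a : V d) (k : ℕ) (s : Finset (V d)) (hs : ∀ x ∈ s, nd a x ≤ k) :
    s.card ≤ (2 * k + 1) ^ d := by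
  have h1 : s ⊆ Fintype.piFinset (fun i => Finset.Icc (a i - k) (a i + k)) := by
    intro x hx
    rw [Fintype.mem_piFinset]
    intro i
    have := nd_le.1 (hs x hx) i
    rw [Finset.mem_Icc]
    omega
  refine (Finset.card_le_card h1).trans ?_
  rw [Fintype.card_piFinset]
  have : ∀ i, (Finset.Icc (a i - k) (a i + k)).card = 2 * k + 1 := by
    intro i
    rw [Int.card_Icc]
    omega
  rw [Finset.prod_congr rfl fun i _ => this i]
  simp

theorem sum_tail {θ : ℝ} (h0 : 0 ≤ θ) (h1 : θ < 1) (a : V d) (n : ℕ) (M : Finset (Pq d))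
    (hM : ∀ p ∈ M, n ≤ nd a p.1) : ∑ p ∈ M, θ ^ nd a p.1 ≤ tl d θ n := by
  classical
  have e1 := Finset.sum_fiberwise_of_maps_to (s := M) (t := M.image fun p => nd a p.1)
    (g := fun p => nd a p.1) (fun p hp => Finset.mem_image_of_mem _ hp) (fun p => θ ^ nd a p.1)
  rw [← e1]
  have h2 : ∀ k ∈ M.image (fun p => nd a p.1),
      ∑ p ∈ M.filter (fun p => nd a p.1 = k), θ ^ nd a p.1 ≤ tm d θ k := by
    intro k _
    have h3 : ∀ p ∈ M.filter (fun p => nd a p.1 = k), θ ^ nd a p.1 = θ ^ k := by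
      intro p hp
      rw [(Finset.mem_filter.1 hp).2]
    rw [Finset.sum_congr rfl h3, Finset.sum_const, nsmul_eq_mul]
    unfold tm
    refine mul_le_mul_of_nonneg_right ?_ (pow_nonneg h0 k)
    have h4 : (M.filter (fun p => nd a p.1 = k)).card ≤ (2 * k + 1) ^ d * (d * d) := by
      set S := (M.filter (fun p => nd a p.1 = k)).image (fun p => p.1) with hS
      have h5 : M.filter (fun p => nd a p.1 = k) ⊆ S ×ˢ (Finset.univ : Finset (Fin d × Fin d)) := by
        intro p hp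
        rw [Finset.mem_product]
        exact ⟨Finset.mem_image_of_mem _ hp, Finset.mem_univ _⟩
      refine (Finset.card_le_card h5).trans ?_
      rw [Finset.card_product, Finset.card_univ, Fintype.card_prod, Fintype.card_fin]
      refine Nat.mul_le_mul_right _ (card_ball a k S fun x hx => ?_)
      rw [hS, Finset.mem_image] at hx
      obtain ⟨p, hp, rfl⟩ := hx
      exact ((Finset.mem_filter.1 hp).2).le
    have h6 : ((M.filter (fun p => nd a p.1 = k)).card : ℝ) ≤
        (((2 * k + 1) ^ d * (d * d) : ℕ) : ℝ) := by exact_mod_cast h4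
    refine h6.trans (le_of_eq ?_)
    push_cast
    ring
  refine (Finset.sum_le_sum h2).trans ?_
  have hsum : Summable fun k => tm d θ (k + n) :=
    (summable_nat_add_iff n).2 (tm_summable d h0 h1)
  -- reindex by the shift
  have hge : ∀ k ∈ M.image (fun p => nd a p.1), n ≤ k := by
    intro k hk
    rw [Finset.mem_image] at hk
    obtain ⟨p, hp, rfl⟩ := hk
    exact hM p hp
  have h7 : ∀ I : Finset ℕ, (∀ k ∈ I, n ≤ k) →
      ∑ k ∈ I, tm d θ k = ∑ k ∈ I.image (fun k => k - n), tm d θ (k + n) := by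
    intro I hI
    rw [Finset.sum_image]
    · refine Finset.sum_congr rfl fun k hk => ?_
      rw [Nat.sub_add_cancel (hI k hk)]
    · intro k hk k' hk' h
      have a1 := hI k hk
      have a2 := hI k' hk'
      simp only at h
      omega
  rw [h7 _ hge]
  exact hsum.sum_le_tsum _ fun k _ => tm_nonneg d h0 _

variable (μ : Measure G) [IsProbabilityMeasure μ] [μ.IsMulLeftInvariant] [μ.IsMulRightInvariant]
  [μ.IsInvInvariant]

section WH

variable {m : Fin d → Fin d} {w : Pq d → G → ℝ} {c C y : ℝ} (hw : WH m w c C y)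

include hw

theorem th0 : 0 ≤ Cd d * y :=
  mul_nonneg (by unfold Cd; positivity) hw.y0

theorem th1 : Cd d * y < 1 := lt_of_le_of_lt hw.y1 (by norm_num)

/-- comparison of two boxes one of which contains the other -/
theorem box_cmp {u v u' v' : V d} (hu : u' ≤ u) (hv : v ≤ v') {F : (Lk d → G) → ℝ}
    (hF : Measurable F) {CF : ℝ} (hCF : ∀ U, |F U| ≤ CF) {A : Finset (V d)} (hA : CC A)
    {a : V d} (ha : a ∈ A) (hFd : DependsOn F {l | l.1 ∈ A ∧ l.1 + e l.2 ∈ A})
    (hAb : A ⊆ Finset.Icc u v) {n : ℕ} (hn : 10 * (A.card + 4) ≤ n)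
    (hball : ∀ x, nd a x ≤ n → x ∈ Finset.Icc u v) :
    |ex μ (bx u' v') w F - ex μ (bx u v) w F| ≤ 2 * CF / c * tl d (Cd d * y) n := by
  classical
  have hsub : bx u v ⊆ bx u' v' := by
    intro p hp
    rw [mem_bx] at hp ⊢
    have hI : Finset.Icc u v ⊆ Finset.Icc u' v' := Finset.Icc_subset_Icc hu hv
    exact ⟨hI hp.1, hp.2.1, hI hp.2.2⟩
  set S := (bx u' v' \ bx u v).filter (fun p => m p.2.1 = p.2.2) with hS
  set M := (bx u' v' \ bx u v).filter (fun p => ¬ m p.2.1 = p.2.2) with hM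
  have hall : M ∪ (S ∪ bx u v) = bx u' v' := by
    ext p
    simp only [hM, hS, Finset.mem_union, Finset.mem_filter, Finset.mem_sdiff]
    constructor
    · rintro (h | h | h)
      · exact h.1.1
      · exact h.1.1
      · exact hsub h
    · intro h
      by_cases h1 : p ∈ bx u v
      · exact Or.inr (Or.inr h1)
      · by_cases h2 : m p.2.1 = p.2.2
        · exact Or.inr (Or.inl ⟨⟨h, h1⟩, h2⟩)
        · exact Or.inl ⟨⟨h, h1⟩, h2⟩
  have hFd' : DependsOn F {l | l.1 ∈ Finset.Icc u v ∧ l.1 + e l.2 ∈ Finset.Icc u v} :=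
    fun U U' hU => hFd fun l hl => hU l ⟨hAb hl.1, hAb hl.2⟩
  have e1 := add_sheets μ hw u v hF hCF hFd' S (fun p hp => by
    rw [hS, Finset.mem_filter, Finset.mem_sdiff] at hp
    exact ⟨⟨(mem_bx.1 hp.1.1).2.1, hp.2⟩, hp.1.2⟩)
  have hfar : ∀ p ∈ M, n ≤ nd a p.1 := by
    intro p hp
    rw [hM, Finset.mem_filter, Finset.mem_sdiff] at hp
    obtain ⟨⟨hp1, hp2⟩, -⟩ := hp
    by_contra hlt
    push Not at hlt
    apply hp2
    rw [mem_bx] at hp1 ⊢
    refine ⟨hball _ hlt.le, hp1.2.1, hball _ ?_⟩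
    rw [nd_le]
    intro i
    have h1 : (a i - p.1 i).natAbs ≤ nd a p.1 := le_nd _ _ i
    have h2 : e p.2.1 i = 0 ∨ e p.2.1 i = 1 := by
      by_cases h : p.2.1 = i
      · subst h; right; exact e_same _
      · left; exact e_ne h
    have h3 : e p.2.2 i = 0 ∨ e p.2.2 i = 1 := by
      by_cases h : p.2.2 = i
      · subst h; right; exact e_same _
      · left; exact e_ne h
    have h4 : ¬ (e p.2.1 i = 1 ∧ e p.2.2 i = 1) := by
      rintro ⟨h5, h6⟩
      have h7 : p.2.1 = i := by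
        by_contra h
        rw [e_ne h] at h5
        omega
      have h8 : p.2.2 = i := by
        by_contra h
        rw [e_ne h] at h6
        omega
      exact hp1.2.1.ne (h7.trans h8.symm)
    simp only [Pi.add_apply]
    omega
  have e2 := add_mixeds μ hw (S ∪ bx u v) (fun p hp => by
    rw [Finset.mem_union] at hp
    rcases hp with hp | hp
    · rw [hS, Finset.mem_filter, Finset.mem_sdiff] at hp
      exact (mem_bx.1 hp.1.1).2.1
    · exact (mem_bx.1 hp).2.1) hF hCF hA ha hFd M (fun p hp => by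
    have hp' := hp
    rw [hM, Finset.mem_filter, Finset.mem_sdiff] at hp
    refine ⟨?_, (mem_bx.1 hp.1.1).2.1, hp.2, hn.trans (hfar p hp')⟩
    rw [Finset.mem_union]
    push Not
    refine ⟨?_, hp.1.2⟩
    rw [hS, Finset.mem_filter]
    exact fun h => hp.2 h.2)
  rw [hall, e1] at e2
  refine e2.trans ?_
  rw [← Finset.mul_sum]
  have hCF0 : 0 ≤ CF := (abs_nonneg _).trans (hCF fun _ => 1)
  refine mul_le_mul_of_nonneg_left (sum_tail (th0 hw) (th1 hw) a n M hfar) ?_
  have := hw.c0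
  positivity

/-- the cube of side `2 L` -/
noncomputable def cub (d : ℕ) (L : ℕ) : Finset (Pq d) := bx (fun _ => -(L : ℤ)) (fun _ => (L : ℤ))

/-- local bounded observables -/
def Obs (F : (Lk d → G) → ℝ) : Prop :=
  Measurable F ∧ (∃ C : ℝ, ∀ U, |F U| ≤ C) ∧ ∃ S : Finset (Lk d), DependsOn F (S : Set (Lk d))

omit hw [Group G] [MeasurableMul₂ G] [MeasurableInv G] in
theorem Obs.box {F : (Lk d → G) → ℝ} (hF : Obs F) : ∃ r : ℕ, DependsOn F
    {l | l.1 ∈ Finset.Icc (fun _ => -(r : ℤ) : V d) (fun _ => (r : ℤ)) ∧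
      l.1 + e l.2 ∈ Finset.Icc (fun _ => -(r : ℤ) : V d) (fun _ => (r : ℤ))} := by
  classical
  obtain ⟨-, -, S, hS⟩ := hF
  obtain ⟨r, hr⟩ : ∃ r : ℕ, ∀ z ∈ S.image (fun l => nd 0 l.1), z ≤ r := Finset.exists_le _
  refine ⟨r + 1, fun U U' hU => hS fun l hl => hU l ?_⟩
  have h1 := hr _ (Finset.mem_image_of_mem _ hl)
  have h2 : ∀ i, (l.1 i).natAbs ≤ r := fun i => by
    have := le_nd 0 l.1 i
    simp only [Pi.zero_apply, zero_sub, Int.natAbs_neg] at this
    omega
  constructor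
  · rw [Finset.mem_Icc]
    constructor <;> intro i
    · have := h2 i
      show -((r + 1 : ℕ) : ℤ) ≤ l.1 i
      omega
    · have := h2 i
      show l.1 i ≤ ((r + 1 : ℕ) : ℤ)
      omega
  · rw [Finset.mem_Icc]
    have h3 : ∀ i, e l.2 i = 0 ∨ e l.2 i = 1 := fun i => by
      by_cases h : l.2 = i
      · subst h; right; exact e_same _
      · left; exact e_ne h
    constructor <;> intro i
    · have := h2 i
      have := h3 i
      show -((r + 1 : ℕ) : ℤ) ≤ l.1 i + e l.2 i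
      omega
    · have := h2 i
      have := h3 i
      show l.1 i + e l.2 i ≤ ((r + 1 : ℕ) : ℤ)
      omega

/-- all large boxes give nearly the same expectation -/
theorem box_unif {F : (Lk d → G) → ℝ} (hF : Obs F) (ε : ℝ) (hε : 0 < ε) : ∃ n : ℕ,
    ∀ u v u' v' : V d, u ≤ (fun _ => -(n : ℤ)) → (fun _ => (n : ℤ)) ≤ v →
      u' ≤ (fun _ => -(n : ℤ)) → (fun _ => (n : ℤ)) ≤ v' →
      |ex μ (bx u v) w F - ex μ (bx u' v') w F| ≤ ε := by
  classical
  obtain ⟨r, hr⟩ := hF.box
  obtain ⟨hFm, ⟨CF, hCF⟩, -⟩ := hF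
  have hCF0 : 0 ≤ CF := (abs_nonneg _).trans (hCF fun _ => 1)
  set A : Finset (V d) := Finset.Icc (fun _ => -(r : ℤ) : V d) (fun _ => (r : ℤ)) with hA
  have h0A : (0 : V d) ∈ A := by
    rw [hA, Finset.mem_Icc]
    constructor <;> intro i
    · show -(r : ℤ) ≤ 0
      omega
    · show 0 ≤ (r : ℤ)
      omega
  have hlim : Tendsto (fun n => 2 * CF / c * tl d (Cd d * y) n) atTop (𝓝 0) := by
    have := (tl_tendsto d (Cd d * y)).const_mul (2 * CF / c)
    rwa [mul_zero] at this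
  obtain ⟨N, hN⟩ := (hlim.eventually (gt_mem_nhds (half_pos hε))).exists_forall_of_atTop
  set n := max (max N r) (10 * (A.card + 4)) with hn
  have n1 : N ≤ n := (le_max_left _ _).trans (le_max_left _ _)
  have n2 : r ≤ n := (le_max_right _ _).trans (le_max_left _ _)
  have n3 : 10 * (A.card + 4) ≤ n := le_max_right _ _
  have key : ∀ u v u' v' : V d, u ≤ (fun _ => -(n : ℤ)) → (fun _ => (n : ℤ)) ≤ v → u' ≤ u →
      v ≤ v' → |ex μ (bx u' v') w F - ex μ (bx u v) w F| ≤ ε / 2 := by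
    intro u v u' v' h1 h2 h3 h4
    refine (box_cmp μ hw h3 h4 hFm hCF (CC_Icc _ _) h0A hr ?_ n3 ?_).trans (hN n n1).le
    · refine Finset.Icc_subset_Icc (h1.trans ?_) (le_trans ?_ h2)
      · intro i
        show -(n : ℤ) ≤ -(r : ℤ)
        omega
      · intro i
        show (r : ℤ) ≤ (n : ℤ)
        omega
    · intro x hx
      rw [Finset.mem_Icc]
      constructor
      · refine h1.trans ?_
        intro i
        have := nd_le.1 hx i
        simp only [Pi.zero_apply, zero_sub, Int.natAbs_neg] at this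
        show -(n : ℤ) ≤ x i
        omega
      · refine le_trans ?_ h2
        intro i
        have := nd_le.1 hx i
        simp only [Pi.zero_apply, zero_sub, Int.natAbs_neg] at this
        show x i ≤ (n : ℤ)
        omega
  refine ⟨n, fun u v u' v' h1 h2 h3 h4 => ?_⟩
  have k1 := key u v (u ⊓ u') (v ⊔ v') h1 h2 inf_le_left le_sup_left
  have k2 := key u' v' (u ⊓ u') (v ⊔ v') h3 h4 inf_le_right le_sup_right
  rw [abs_sub_comm] at k1
  calc |ex μ (bx u v) w F - ex μ (bx u' v') w F| ≤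
        |ex μ (bx u v) w F - ex μ (bx (u ⊓ u') (v ⊔ v')) w F| +
        |ex μ (bx (u ⊓ u') (v ⊔ v')) w F - ex μ (bx u' v') w F| := abs_sub_le _ _ _
    _ ≤ ε / 2 + ε / 2 := add_le_add k1 k2
    _ = ε := by ring

/-- the infinite volume limit exists -/
theorem lim_exists {F : (Lk d → G) → ℝ} (hF : Obs F) :
    ∃ z, Tendsto (fun L => ex μ (cub d L) w F) atTop (𝓝 z) := by
  apply cauchySeq_tendsto_of_complete
  rw [Metric.cauchySeq_iff]
  intro ε hε
  obtain ⟨n, hn⟩ := box_unif μ hw hF (ε / 2) (half_pos hε)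
  refine ⟨n, fun L hL L' hL' => ?_⟩
  rw [Real.dist_eq]
  refine lt_of_le_of_lt (hn _ _ _ _ ?_ ?_ ?_ ?_) (half_lt_self hε)
  all_goals
    intro i
    simp only
    omega

end WH

end Pool.Agent.T2H03.YM
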