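import Mathlib
import Pool.Agent.T2H03.YM.Lim

/-!
# Translations, reflections and reflection positivity
-/

set_option autoImplicit false
set_option linter.unusedSectionVars false

open MeasureTheory Measure Set Relation Filter Topology

namespace Pool.Agent.T2H03.YM

section general

variable {L X : Type*} [MeasurableSpace X] (ν : Measure X) [IsProbabilityMeasure ν]

theorem mp_reindex (σ : L ≃ L) :
    MeasurePreserving (fun (U : L → X) l => U (σ l)) (PP L ν) (PP L ν) := by
  classical
  have hm : Measurable (fun (U : L → X) l => U (σ l)) :=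
    measurable_pi_lambda _ fun l => measurable_pi_apply _
  refine ⟨hm, eq_infinitePi _ fun s t ht => ?_⟩
  rw [map_apply hm (.pi s.countable_toSet fun _ _ => ht _)]
  have : (fun (U : L → X) l => U (σ l)) ⁻¹' (s : Set L).pi t =
      ((s.map σ.toEmbedding : Finset L) : Set L).pi fun l => t (σ.symm l) := by
    ext U
    simp only [Set.mem_preimage, Set.mem_pi, Finset.mem_coe, Finset.mem_map_equiv]
    constructor
    · intro h l hl
      have := h (σ.symm l) hl
      rwa [Equiv.apply_symm_apply] at this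
    · intro h l hl
      have := h (σ l) (by rwa [Equiv.symm_apply_apply])
      rwa [Equiv.symm_apply_apply] at this
  rw [this, infinitePi_pi _ (fun l _ => ht _), Finset.prod_map]
  simp

open Classical in
/-- the configuration `U` on `D` and `V` outside -/
noncomputable def mix (D : Set L) (U V : L → X) (l : L) : X := if l ∈ D then U l else V l

theorem mix_meas (D : Set L) :
    Measurable (fun p : (L → X) × (L → X) => mix D p.1 p.2) := by
  classical
  refine measurable_pi_lambda _ fun l => ?_
  unfold mix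
  split_ifs
  · exact (measurable_pi_apply l).comp measurable_fst
  · exact (measurable_pi_apply l).comp measurable_snd

theorem mp_mix (D : Set L) : MeasurePreserving (fun p : (L → X) × (L → X) => mix D p.1 p.2)
    ((PP L ν).prod (PP L ν)) (PP L ν) := by
  classical
  refine ⟨mix_meas D, eq_infinitePi _ fun s t ht => ?_⟩
  rw [map_apply (mix_meas D) (.pi s.countable_toSet fun _ _ => ht _)]
  have : (fun p : (L → X) × (L → X) => mix D p.1 p.2) ⁻¹' (s : Set L).pi t =
      (((s.filter (· ∈ D) : Finset L) : Set L).pi t) ×ˢ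
        (((s.filter (· ∉ D) : Finset L) : Set L).pi t) := by
    ext p
    simp only [Set.mem_preimage, Set.mem_pi, Finset.mem_coe, Set.mem_prod, Finset.mem_filter, mix]
    constructor
    · intro h
      refine ⟨fun l hl => ?_, fun l hl => ?_⟩
      · have := h l hl.1
        rwa [if_pos hl.2] at this
      · have := h l hl.1
        rwa [if_neg hl.2] at this
    · rintro ⟨h1, h2⟩ l hl
      split_ifs with hD
      · exact h1 l ⟨hl, hD⟩
      · exact h2 l ⟨hl, hD⟩
  rw [this, Measure.prod_prod, infinitePi_pi _ (fun l _ => ht _), infinitePi_pi _ (fun l _ => ht _),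
    Finset.prod_filter_mul_prod_filter_not]

end general

variable {d : ℕ} {G : Type*} [Group G] [MeasurableSpace G] [MeasurableMul₂ G] [MeasurableInv G]

/-- homogeneous weights -/
def ww (w : Fin d → Fin d → G → ℝ) (p : Pq d) (g : G) : ℝ := w p.2.1 p.2.2 g

/-- the shifted configuration -/
def sh (x : V d) (U : Lk d → G) (l : Lk d) : G := U (l.1 + x, l.2)

/-- the shift of the links -/
def shE (x : V d) : Lk d ≃ Lk d where
  toFun l := (l.1 + x, l.2)
  invFun l := (l.1 - x, l.2)
  left_inv l := by simp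
  right_inv l := by simp

/-- the reflection of the sites -/
def rf (k : Fin d) (x : V d) : V d := fun i => if i = k then - x i else x i

/-- the reflection of the links -/
def rl (k : Fin d) (l : Lk d) : Lk d :=
  if l.2 = k then (rf k l.1 - e k, l.2) else (rf k l.1, l.2)

/-- the reflection of the plaquettes -/
def rq (k : Fin d) (p : Pq d) : Pq d :=
  if p.2.1 = k ∨ p.2.2 = k then (rf k p.1 - e k, p.2) else (rf k p.1, p.2)

/-- the reflected configuration -/
def Th (k : Fin d) (U : Lk d → G) (l : Lk d) : G :=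
  if l.2 = k then (U (rl k l))⁻¹ else U (rl k l)

theorem rf_rf (k : Fin d) (x : V d) : rf k (rf k x) = x := by
  funext i
  unfold rf
  by_cases h : i = k <;> simp [h]

theorem rf_sub (k : Fin d) (x : V d) : rf k (x - e k) = rf k x + e k := by
  funext i
  unfold rf
  by_cases h : i = k
  · subst h
    simp only [Pi.sub_apply, Pi.add_apply, if_true, e_same]
    ring
  · simp only [Pi.sub_apply, Pi.add_apply, if_neg h, e_ne (Ne.symm h)]
    ring

theorem rf_add (k : Fin d) (x : V d) : rf k (x + e k) = rf k x - e k := by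
  funext i
  unfold rf
  by_cases h : i = k
  · subst h
    simp only [Pi.sub_apply, Pi.add_apply, if_true, e_same]
    ring
  · simp only [Pi.sub_apply, Pi.add_apply, if_neg h, e_ne (Ne.symm h)]
    ring

theorem rf_add_ne (k j : Fin d) (h : j ≠ k) (x : V d) : rf k (x + e j) = rf k x + e j := by
  funext i
  unfold rf
  by_cases hi : i = k
  · subst hi
    simp only [Pi.add_apply, if_true, e_ne h]
    ring
  · simp only [Pi.add_apply, if_neg hi]

theorem rl_rl (k : Fin d) (l : Lk d) : rl k (rl k l) = l := by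
  unfold rl
  by_cases h : l.2 = k
  · simp only [h, if_true, rf_sub, rf_rf]
    rw [add_sub_cancel_right, ← h]
  · simp only [h, if_false, rf_rf]

theorem rq_rq (k : Fin d) (p : Pq d) : rq k (rq k p) = p := by
  unfold rq
  by_cases h : p.2.1 = k ∨ p.2.2 = k
  · simp only [h, if_true, rf_sub, rf_rf, add_sub_cancel_right]
  · simp only [h, if_false, rf_rf]

theorem rl_snd (k : Fin d) (l : Lk d) : (rl k l).2 = l.2 := by
  unfold rl
  split_ifs <;> rfl

theorem rq_snd (k : Fin d) (p : Pq d) : (rq k p).2 = p.2 := by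
  unfold rq
  split_ifs <;> rfl

theorem Th_Th (k : Fin d) (U : Lk d → G) : Th k (Th k U) = U := by
  funext l
  unfold Th
  rw [rl_snd, rl_rl]
  split_ifs <;> simp

theorem Th_meas (k : Fin d) : Measurable (Th (G := G) k) := by
  refine measurable_pi_lambda _ fun l => ?_
  unfold Th
  split_ifs
  · exact (measurable_pi_apply _).inv
  · exact measurable_pi_apply _

theorem sh_meas (x : V d) : Measurable (sh (G := G) x) :=
  measurable_pi_lambda _ fun _ => measurable_pi_apply _

theorem sh_sh (x y : V d) (U : Lk d → G) : sh x (sh y U) = sh (x + y) U := by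
  funext l
  unfold sh
  simp only [add_assoc]

theorem sh_zero (U : Lk d → G) : sh 0 U = U := by
  funext l
  unfold sh
  simp

/-- shift and reflection -/
theorem Th_sh (k : Fin d) (n : ℤ) (U : Lk d → G) :
    sh (n • e k) (Th k U) = Th k (sh (-(n • e k)) U) := by
  have h1 : ∀ x : V d, rf k (x + n • e k) = rf k x - n • e k := by
    intro x
    funext i
    unfold rf
    by_cases h : i = k
    · subst h
      simp only [Pi.sub_apply, Pi.add_apply, Pi.smul_apply, if_true, e_same, smul_eq_mul]
      ring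
    · simp only [Pi.sub_apply, Pi.add_apply, Pi.smul_apply, if_neg h, e_ne (Ne.symm h), smul_eq_mul]
      ring
  funext l
  unfold sh Th rl
  by_cases h : l.2 = k
  · simp only [h, if_true, h1]
    congr 3
    abel
  · simp only [h, if_false, h1]
    rw [sub_eq_add_neg]

theorem hol_sh (p : Pq d) (x : V d) (U : Lk d → G) : hol p (sh x U) = hol (p.1 + x, p.2) U := by
  unfold hol sh
  simp only [add_right_comm]

variable (w : Fin d → Fin d → G → ℝ)

theorem hol_Th (hcl : ∀ i j g h, w i j (h * g * h⁻¹) = w i j g) (hinv : ∀ i j g, w i j g⁻¹ = w i j g)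
    (k : Fin d) (p : Pq d) (hp : p.2.1 ≠ p.2.2) (U : Lk d → G) :
    ww w p (hol p (Th k U)) = ww w (rq k p) (hol (rq k p) U) := by
  obtain ⟨x, i, j⟩ := p
  simp only at hp
  unfold ww
  rw [rq_snd]
  simp only
  by_cases hi : i = k
  · subst hi
    have hj : j ≠ i := hp.symm
    have e1 : rq i (x, i, j) = (rf i x - e i, i, j) := by simp [rq]
    rw [e1]
    set z : V d := rf i x - e i with hz
    have hz' : rf i x = z + e i := by rw [hz, sub_add_cancel]
    have e2 : hol (x, i, j) (Th i U) = (U (z, i))⁻¹ * (hol (z, i, j) U)⁻¹ * ((U (z, i))⁻¹)⁻¹ := by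
      unfold hol Th rl
      simp only [if_true, if_neg hj, rf_add, rf_add_ne i j hj, hz']
      have e3 : z + e i + e j - e i = z + e j := by abel
      rw [add_sub_cancel_right, e3]
      group
    rw [e2, hcl, hinv]
  · by_cases hj : j = k
    · subst hj
      have e1 : rq j (x, i, j) = (rf j x - e j, i, j) := by simp [rq]
      rw [e1]
      set z : V d := rf j x - e j with hz
      have hz' : rf j x = z + e j := by rw [hz, sub_add_cancel]
      have e2 : hol (x, i, j) (Th j U) =
          (U (z, j))⁻¹ * (hol (z, i, j) U)⁻¹ * ((U (z, j))⁻¹)⁻¹ := by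
        unfold hol Th rl
        simp only [if_true, if_neg hi, rf_add, rf_add_ne j i hi, hz']
        have e3 : z + e j + e i - e j = z + e i := by abel
        rw [add_sub_cancel_right, e3]
        group
      rw [e2, hcl, hinv]
    · have e1 : rq k (x, i, j) = (rf k x, i, j) := by simp [rq, hi, hj]
      rw [e1]
      have e2 : hol (x, i, j) (Th k U) = hol (rf k x, i, j) U := by
        unfold hol Th rl
        simp only [if_neg hi, if_neg hj, rf_add_ne k i hi, rf_add_ne k j hj]
      rw [e2]

theorem rq_cub (k : Fin d) (L : ℕ) {p : Pq d} (hp : p ∈ cub d L) : rq k p ∈ cub d L := by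
  obtain ⟨x, i, j⟩ := p
  unfold cub at hp ⊢
  rw [mem_bx] at hp ⊢
  obtain ⟨h1, h2, h3⟩ := hp
  simp only at h1 h2 h3
  rw [rq_snd]
  simp only
  rw [Finset.mem_Icc] at h1 h3
  have b1 : ∀ k', -(L : ℤ) ≤ x k' ∧ x k' + e i k' + e j k' ≤ L := fun k' => ⟨h1.1 k', h3.2 k'⟩
  have b2 : ∀ k', 0 ≤ e i k' ∧ 0 ≤ e j k' := fun k' => ⟨e_nonneg i k', e_nonneg j k'⟩
  have key : ∀ k', -(L : ℤ) ≤ (rq k (x, i, j)).1 k' ∧
      (rq k (x, i, j)).1 k' + e i k' + e j k' ≤ L := by
    intro k'
    have c1 := b1 k'
    have c2 := b2 k'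
    unfold rq rf
    by_cases hk : i = k ∨ j = k
    · simp only [hk, if_true, Pi.sub_apply]
      by_cases hk' : k' = k
      · subst hk'
        rw [if_pos rfl, e_same]
        rcases hk with h | h
        · subst h
          have : e j i = 0 := e_ne h2.ne'
          rw [this, e_same] at c1 ⊢
          omega
        · subst h
          have : e i j = 0 := e_ne h2.ne
          rw [this, e_same] at c1 ⊢
          omega
      · rw [if_neg hk', e_ne (Ne.symm hk')]
        omega
    · simp only [hk, if_false]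
      push Not at hk
      by_cases hk' : k' = k
      · subst hk'
        rw [if_pos rfl]
        rw [e_ne hk.1, e_ne hk.2] at c1 ⊢
        omega
      · rw [if_neg hk']
        omega
  refine ⟨?_, h2, ?_⟩
  · rw [Finset.mem_Icc]
    refine ⟨fun k' => (key k').1, fun k' => ?_⟩
    have := key k'
    have c2 := b2 k'
    show (rq k (x, i, j)).1 k' ≤ (L : ℤ)
    omega
  · rw [Finset.mem_Icc]
    refine ⟨fun k' => ?_, fun k' => (key k').2⟩
    have := key k'
    have c2 := b2 k'
    show -(L : ℤ) ≤ (rq k (x, i, j)).1 k' + e i k' + e j k'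
    omega

theorem wt_Th (hcl : ∀ i j g h, w i j (h * g * h⁻¹) = w i j g) (hinv : ∀ i j g, w i j g⁻¹ = w i j g)
    (k : Fin d) (L : ℕ) (U : Lk d → G) :
    wt (cub d L) (ww w) (Th k U) = wt (cub d L) (ww w) U := by
  unfold wt
  refine Finset.prod_nbij' (rq k) (rq k) (fun p hp => rq_cub k L hp) (fun p hp => rq_cub k L hp)
    (fun p _ => rq_rq k p) (fun p _ => rq_rq k p) fun p hp => ?_
  unfold cub at hp
  exact hol_Th w hcl hinv k p (mem_bx.1 hp).2.1.ne U

variable (μ : Measure G) [IsProbabilityMeasure μ]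

theorem mp_sh (x : V d) : MeasurePreserving (sh (G := G) x) (PP (Lk d) μ) (PP (Lk d) μ) :=
  mp_reindex μ (shE x)

theorem mp_Th [μ.IsInvInvariant] (k : Fin d) :
    MeasurePreserving (Th (G := G) k) (PP (Lk d) μ) (PP (Lk d) μ) := by
  have h1 := mp_reindex μ (L := Lk d) (⟨rl k, rl k, rl_rl k, rl_rl k⟩ : Lk d ≃ Lk d)
  have h2 := mp_coord μ (fun l : Lk d => if l.2 = k then (fun g : G => g⁻¹) else id) (fun l => by
    split_ifs
    · exact ⟨measurable_inv, Measure.map_inv_eq_self μ⟩
    · exact MeasurePreserving.id _)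
  have h3 := h2.comp h1
  convert h3 using 1
  funext U l
  unfold Th
  simp only [Function.comp]
  split_ifs <;> rfl

theorem ex_sh (x u v : V d) (F : (Lk d → G) → ℝ) (hF : Measurable F)
    (hwm : ∀ p, Measurable (ww w p)) :
    ex μ (bx u v) (ww w) (fun U => F (sh x U)) = ex μ (bx (u - x) (v - x)) (ww w) F := by
  have h1 : ∀ U : Lk d → G, wt (bx u v) (ww w) U = wt (bx (u - x) (v - x)) (ww w) (sh x U) := by
    intro U
    unfold wt
    refine (Finset.prod_nbij' (fun p => (p.1 + x, p.2)) (fun p => (p.1 - x, p.2)) ?_ ?_ ?_ ?_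
      ?_).symm
    · intro p hp
      rw [mem_bx] at hp ⊢
      simp only [Finset.mem_Icc] at hp ⊢
      refine ⟨⟨sub_le_iff_le_add.1 hp.1.1, le_sub_iff_add_le.1 hp.1.2⟩, hp.2.1, ?_, ?_⟩
      · have := sub_le_iff_le_add.1 hp.2.2.1
        convert this using 1
        abel
      · have := le_sub_iff_add_le.1 hp.2.2.2
        convert this using 1
        abel
    · intro p hp
      rw [mem_bx] at hp ⊢
      simp only [Finset.mem_Icc] at hp ⊢
      refine ⟨⟨sub_le_sub_right hp.1.1 x, sub_le_sub_right hp.1.2 x⟩, hp.2.1, ?_, ?_⟩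
      · have := sub_le_sub_right hp.2.2.1 x
        convert this using 1
        abel
      · have := sub_le_sub_right hp.2.2.2 x
        convert this using 1
        abel
    · intro p _
      simp
    · intro p _
      simp
    · intro p _
      rw [hol_sh]
      rfl
  have hmp := mp_sh μ x (d := d)
  unfold ex
  have hwt := wt_meas (bx (u - x) (v - x)) (ww w) hwm
  congr 1
  · have e1 := integral_map (μ := PP (Lk d) μ) hmp.measurable.aemeasurable
      (f := fun U => F U * wt (bx (u - x) (v - x)) (ww w) U) (hF.mul hwt).aestronglyMeasurable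
    rw [hmp.map_eq] at e1
    rw [e1]
    exact integral_congr_ae (Eventually.of_forall fun U => by
      show F (sh x U) * wt (bx u v) (ww w) U = _
      rw [h1])
  · have e1 := integral_map (μ := PP (Lk d) μ) hmp.measurable.aemeasurable
      (f := wt (bx (u - x) (v - x)) (ww w)) hwt.aestronglyMeasurable
    rw [hmp.map_eq] at e1
    rw [e1]
    exact integral_congr_ae (Eventually.of_forall h1)

theorem ex_Th [μ.IsInvInvariant] (hcl : ∀ i j g h, w i j (h * g * h⁻¹) = w i j g)
    (hinv : ∀ i j g, w i j g⁻¹ = w i j g) (hwm : ∀ p, Measurable (ww w p)) (k : Fin d) (L : ℕ)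
    (F : (Lk d → G) → ℝ) (hF : Measurable F) :
    ex μ (cub d L) (ww w) (fun U => F (Th k U)) = ex μ (cub d L) (ww w) F := by
  have hmp := mp_Th μ k (d := d)
  unfold ex
  have hwt := wt_meas (cub d L) (ww w) hwm
  congr 1
  have e1 := integral_map (μ := PP (Lk d) μ) hmp.measurable.aemeasurable
    (f := fun U => F U * wt (cub d L) (ww w) U) (hF.mul hwt).aestronglyMeasurable
  rw [hmp.map_eq] at e1
  rw [e1]
  exact integral_congr_ae (Eventually.of_forall fun U => by
    show F (Th k U) * wt (cub d L) (ww w) U = F (Th k U) * wt (cub d L) (ww w) (Th k U)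
    rw [wt_Th w hcl hinv])

/-- the links of the plane of the reflection -/
def D0 (k : Fin d) : Set (Lk d) := {l | l.1 k = 0 ∧ l.2 ≠ k}

/-- the links of the half space -/
def Hf (k : Fin d) : Set (Lk d) := {l | 0 ≤ l.1 k}

theorem rl_D0 {k : Fin d} {l : Lk d} (hl : l ∈ D0 k) : rl k l = l := by
  obtain ⟨h1, h2⟩ := hl
  unfold rl
  rw [if_neg h2]
  have : rf k l.1 = l.1 := by
    funext i
    unfold rf
    by_cases h : i = k
    · subst h; rw [if_pos rfl, h1, neg_zero]
    · rw [if_neg h]
  rw [this]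

theorem rl_Hf {k : Fin d} {l : Lk d} (hl : l ∈ Hf k) (h0 : l ∉ D0 k) : rl k l ∉ Hf k := by
  unfold Hf at hl ⊢
  unfold D0 at h0
  simp only [mem_ofPred_eq, not_and, not_not, not_le] at hl h0 ⊢
  unfold rl
  by_cases h : l.2 = k
  · rw [if_pos h]
    simp only [rf, Pi.sub_apply, if_true, e_same]
    omega
  · rw [if_neg h]
    simp only [rf, if_true]
    have : l.1 k ≠ 0 := fun h1 => h (h0 h1)
    omega

/-- reflection positivity, the integral -/
theorem rpos [μ.IsInvInvariant] (k : Fin d) (Φ W0 : (Lk d → G) → ℝ) (hΦ : Measurable Φ)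
    (hW : Measurable W0) (CΦ CW : ℝ) (hCΦ : ∀ U, |Φ U| ≤ CΦ) (hCW : ∀ U, |W0 U| ≤ CW)
    (hW0 : ∀ U, 0 ≤ W0 U) (hΦd : DependsOn Φ (Hf k)) (hWd : DependsOn W0 (D0 k)) :
    0 ≤ ∫ U, Φ (Th k U) * Φ U * W0 U ∂PP (Lk d) μ := by
  classical
  have hD0H : D0 k ⊆ Hf k := fun l hl => by
    unfold Hf
    exact (hl.1).symm.le
  set P := PP (Lk d) μ with hP
  set Ψ : (Lk d → G) × ((Lk d → G) × (Lk d → G)) → (Lk d → G) := fun q =>
    mix (D0 k) q.1 (mix (Hf k) q.2.1 (Th k q.2.2)) with hΨ
  have hmp : MeasurePreserving Ψ (P.prod (P.prod P)) P := by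
    have h1 : MeasurePreserving (fun q : (Lk d → G) × (Lk d → G) => mix (Hf k) q.1 (Th k q.2))
        (P.prod P) P :=
      (mp_mix μ (Hf k)).comp ((MeasurePreserving.id P).prod (mp_Th μ k))
    exact (mp_mix μ (D0 k)).comp ((MeasurePreserving.id P).prod h1)
  have e1 : ∀ q, Φ (Ψ q) = Φ (mix (D0 k) q.1 q.2.1) := by
    intro q
    apply hΦd
    intro l hl
    simp only [hΨ, mix]
    split_ifs <;> rfl
  have e2 : ∀ q, Φ (Th k (Ψ q)) = Φ (mix (D0 k) q.1 q.2.2) := by
    intro q
    apply hΦd
    intro l hl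
    by_cases h0 : l ∈ D0 k
    · have h2 : l.2 ≠ k := h0.2
      simp only [Th, if_neg h2, rl_D0 h0, hΨ, mix, if_pos h0]
    · have h1 := rl_Hf hl h0
      have h2 : rl k l ∉ D0 k := fun h => h1 (hD0H h)
      have h3 : Th k (Ψ q) l = Th k (Th k q.2.2) l := by
        unfold Th
        simp only [hΨ, mix, if_neg h1, if_neg h2]
        rfl
      rw [h3, Th_Th]
      simp only [mix, if_neg h0]
  have e3 : ∀ q, W0 (Ψ q) = W0 q.1 := by
    intro q
    apply hWd
    intro l hl
    simp only [hΨ, mix, if_pos hl]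
  have hint : Measurable (fun U => Φ (Th k U) * Φ U * W0 U) :=
    ((hΦ.comp (Th_meas k)).mul hΦ).mul hW
  have i1 := integral_map (μ := P.prod (P.prod P)) hmp.measurable.aemeasurable
    (f := fun U => Φ (Th k U) * Φ U * W0 U) hint.aestronglyMeasurable
  rw [hmp.map_eq] at i1
  rw [i1]
  simp only [e1, e2, e3]
  have hmm : Measurable (fun q : (Lk d → G) × (Lk d → G) => Φ (mix (D0 k) q.1 q.2)) :=
    hΦ.comp (mix_meas _)
  have hCΦ0 : 0 ≤ CΦ := (abs_nonneg _).trans (hCΦ fun _ => 1)
  rw [integral_prod]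
  · refine integral_nonneg fun U => ?_
    show 0 ≤ ∫ q, Φ (mix (D0 k) U q.2) * Φ (mix (D0 k) U q.1) * W0 U ∂P.prod P
    rw [integral_mul_const]
    have e4 : ∀ q : (Lk d → G) × (Lk d → G), Φ (mix (D0 k) U q.2) * Φ (mix (D0 k) U q.1) =
        Φ (mix (D0 k) U q.1) * Φ (mix (D0 k) U q.2) := fun q => mul_comm _ _
    rw [integral_congr_ae (Eventually.of_forall e4),
      integral_prod_mul (fun V => Φ (mix (D0 k) U V)) (fun V => Φ (mix (D0 k) U V))]
    exact mul_nonneg (mul_self_nonneg _) (hW0 U)
  · refine Integrable.of_bound (C := CΦ * CΦ * CW) ?_ (Eventually.of_forall fun q => ?_)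
    · apply Measurable.aestronglyMeasurable
      refine ((?_ : Measurable _).mul ?_).mul (hW.comp measurable_fst)
      · exact hmm.comp (measurable_fst.prodMk (measurable_snd.comp measurable_snd))
      · exact hmm.comp (measurable_fst.prodMk (measurable_fst.comp measurable_snd))
    · rw [Real.norm_eq_abs, abs_mul, abs_mul]
      have a1 := hCΦ (mix (D0 k) q.1 q.2.2)
      have a2 := hCΦ (mix (D0 k) q.1 q.2.1)
      have a3 := hCW q.1
      gcongr

/-- **reflection positivity** in finite volume -/
theorem ex_rp [μ.IsMulLeftInvariant] [μ.IsMulRightInvariant] [μ.IsInvInvariant] {m : Fin d → Fin d}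
    {c C y : ℝ} (hw : WH m (ww w) c C y)
    (hcl : ∀ i j g h, w i j (h * g * h⁻¹) = w i j g)
    (hinv : ∀ i j g, w i j g⁻¹ = w i j g) (k : Fin d) (L : ℕ)
    (F : (Lk d → G) → ℝ) (hF : Measurable F) (CF : ℝ) (hCF : ∀ U, |F U| ≤ CF)
    (hFd : DependsOn F (Hf k)) :
    0 ≤ ex μ (cub d L) (ww w) (fun U => F (Th k U) * F U) := by
  classical
  unfold ex
  refine div_nonneg ?_ (Z_pos μ hw _).le
  set P0 := (cub d L).filter (fun p => p.1 k = 0 ∧ p.2.1 ≠ k ∧ p.2.2 ≠ k) with hP0
  set Pp := (cub d L).filter (fun p => 0 ≤ p.1 k ∧ ¬ (p.1 k = 0 ∧ p.2.1 ≠ k ∧ p.2.2 ≠ k)) with hPp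
  set Pm := (cub d L).filter (fun p => p.1 k < 0) with hPm
  have hsplit : ∀ U : Lk d → G, wt (cub d L) (ww w) U =
      wt Pp (ww w) (Th k U) * wt Pp (ww w) U * wt P0 (ww w) U := by
    intro U
    have e1 : wt (cub d L) (ww w) U = wt Pm (ww w) U * (wt Pp (ww w) U * wt P0 (ww w) U) := by
      unfold wt
      have e2 := Finset.prod_filter_mul_prod_filter_not (cub d L) (fun p => p.1 k < 0)
        (fun p => ww w p (hol p U))
      have e3 := Finset.prod_filter_mul_prod_filter_not
        ((cub d L).filter (fun p => ¬ p.1 k < 0))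
        (fun p => ¬ (p.1 k = 0 ∧ p.2.1 ≠ k ∧ p.2.2 ≠ k)) (fun p => ww w p (hol p U))
      rw [← e2, ← e3]
      congr 2
      · rw [Finset.filter_filter, hPp]
        refine Finset.prod_congr (Finset.filter_congr fun p _ => ?_) fun _ _ => rfl
        rw [not_lt]
      · rw [Finset.filter_filter, hP0]
        refine Finset.prod_congr (Finset.filter_congr fun p _ => ?_) fun _ _ => rfl
        rw [not_not]
        constructor
        · rintro ⟨-, h⟩; exact h
        · intro h; exact ⟨by rw [h.1]; exact lt_irrefl 0, h⟩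
    have e4 : wt Pm (ww w) U = wt Pp (ww w) (Th k U) := by
      unfold wt
      symm
      refine Finset.prod_nbij' (rq k) (rq k) ?_ ?_ (fun p _ => rq_rq k p) (fun p _ => rq_rq k p) ?_
      · intro p hp
        rw [hPp, Finset.mem_filter] at hp
        rw [hPm, Finset.mem_filter]
        refine ⟨rq_cub k L hp.1, ?_⟩
        obtain ⟨-, h1, h2⟩ := hp
        unfold rq rf
        by_cases h : p.2.1 = k ∨ p.2.2 = k
        · simp only [h, if_true, Pi.sub_apply, e_same]
          omega
        · simp only [h, if_false, if_true]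
          push Not at h
          have : p.1 k ≠ 0 := fun h3 => h2 ⟨h3, h⟩
          omega
      · intro p hp
        rw [hPm, Finset.mem_filter] at hp
        rw [hPp, Finset.mem_filter]
        refine ⟨rq_cub k L hp.1, ?_⟩
        obtain ⟨-, h1⟩ := hp
        rw [rq_snd]
        unfold rq rf
        by_cases h : p.2.1 = k ∨ p.2.2 = k
        · simp only [h, if_true, Pi.sub_apply, e_same]
          refine ⟨by omega, ?_⟩
          rintro ⟨-, h2, h3⟩
          rcases h with h | h
          · exact h2 h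
          · exact h3 h
        · simp only [h, if_false, if_true]
          refine ⟨by omega, ?_⟩
          rintro ⟨h2, -⟩
          omega
      · intro p hp
        rw [hPp, Finset.mem_filter] at hp
        have hc := hp.1
        unfold cub at hc
        exact hol_Th w hcl hinv k p (mem_bx.1 hc).2.1.ne U
    rw [e1, e4]
    ring
  have hwm : ∀ p, Measurable (ww w p) := hw.meas
  have hC : ∀ p g, |ww w p g| ≤ C := fun p g => by
    rw [abs_of_pos (hw.pos p g)]; exact hw.le p g
  have hpp : DependsOn (wt Pp (ww w)) (Hf k) := by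
    intro U U' hU
    unfold wt
    refine Finset.prod_congr rfl fun p hp => ?_
    rw [hol_dep p fun l hl => hU l ?_]
    rw [hPp, Finset.mem_filter] at hp
    have h1 := hp.2.1
    have h2 : 0 ≤ e p.2.1 k := e_nonneg _ _
    have h3 : 0 ≤ e p.2.2 k := e_nonneg _ _
    rw [Finset.mem_coe, mem_bd] at hl
    unfold Hf
    simp only [mem_ofPred_eq]
    rcases hl with rfl | rfl | rfl | rfl <;> (try simp only [Pi.add_apply]) <;> omega
  have hp0 : DependsOn (wt P0 (ww w)) (D0 k) := by
    intro U U' hU
    unfold wt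
    refine Finset.prod_congr rfl fun p hp => ?_
    rw [hol_dep p fun l hl => hU l ?_]
    rw [hP0, Finset.mem_filter] at hp
    obtain ⟨-, h1, h2, h3⟩ := hp
    have h4 : e p.2.1 k = 0 := e_ne h2
    have h5 : e p.2.2 k = 0 := e_ne h3
    rw [Finset.mem_coe, mem_bd] at hl
    unfold D0
    simp only [mem_ofPred_eq]
    rcases hl with rfl | rfl | rfl | rfl
    · exact ⟨h1, h2⟩
    · refine ⟨?_, h3⟩
      simp only [Pi.add_apply]
      omega
    · refine ⟨?_, h2⟩
      simp only [Pi.add_apply]
      omega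
    · exact ⟨h1, h3⟩
  have hb : ∀ (S : Finset (Pq d)) (U : Lk d → G), |wt S (ww w) U| ≤ C ^ S.card := fun S U => by
    rw [abs_of_pos (wt_pos hw S U)]; exact wt_le hw S U
  have hCF0 : 0 ≤ CF := (abs_nonneg _).trans (hCF fun _ => 1)
  have := rpos μ k (fun U => F U * wt Pp (ww w) U) (wt P0 (ww w)) (hF.mul (wt_meas _ _ hwm))
    (wt_meas _ _ hwm) (CF * C ^ Pp.card) (C ^ P0.card) (fun U => by
      rw [abs_mul]
      exact mul_le_mul (hCF U) (hb _ U) (abs_nonneg _) hCF0) (hb _)
    (fun U => (wt_pos hw _ U).le)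
    (fun U U' hU => by
      show F U * wt Pp (ww w) U = F U' * wt Pp (ww w) U'
      rw [hFd hU, hpp hU]) hp0
  refine this.trans (le_of_eq (integral_congr_ae (Eventually.of_forall fun U => ?_)))
  show F (Th k U) * wt Pp (ww w) (Th k U) * (F U * wt Pp (ww w) U) * wt P0 (ww w) U =
    F (Th k U) * F U * wt (cub d L) (ww w) U
  rw [hsplit]
  ring

end Pool.Agent.T2H03.YM
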