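import Mathlib
import Pool.Agent.T2H03.YM.Sym

/-!
# The infinite volume state and its mass gap
-/

set_option autoImplicit false
set_option linter.unusedSectionVars false

open MeasureTheory Measure Set Relation Filter Topology

namespace Pool.Agent.T2H03.YM

variable {d : ℕ} {G : Type*} [Group G] [MeasurableSpace G] [MeasurableMul₂ G] [MeasurableInv G]

theorem Obs.mul {F H : (Lk d → G) → ℝ} (hF : Obs F) (hH : Obs H) : Obs (fun U => F U * H U) := by
  classical
  obtain ⟨h1, ⟨C, h2⟩, S, h3⟩ := hF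
  obtain ⟨h1', ⟨C', h2'⟩, S', h3'⟩ := hH
  refine ⟨h1.mul h1', ⟨C * C', fun U => ?_⟩, S ∪ S', fun U U' hU => ?_⟩
  · rw [abs_mul]
    exact mul_le_mul (h2 U) (h2' U) (abs_nonneg _) ((abs_nonneg _).trans (h2 U))
  · show F U * H U = F U' * H U'
    rw [h3 fun l hl => hU l (by simp only [Finset.coe_union, Set.mem_union]; exact Or.inl hl),
      h3' fun l hl => hU l (by simp only [Finset.coe_union, Set.mem_union]; exact Or.inr hl)]

theorem Obs.add {F H : (Lk d → G) → ℝ} (hF : Obs F) (hH : Obs H) : Obs (fun U => F U + H U) := by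
  classical
  obtain ⟨h1, ⟨C, h2⟩, S, h3⟩ := hF
  obtain ⟨h1', ⟨C', h2'⟩, S', h3'⟩ := hH
  refine ⟨h1.add h1', ⟨C + C', fun U => ?_⟩, S ∪ S', fun U U' hU => ?_⟩
  · exact (abs_add_le _ _).trans (add_le_add (h2 U) (h2' U))
  · show F U + H U = F U' + H U'
    rw [h3 fun l hl => hU l (by simp only [Finset.coe_union, Set.mem_union]; exact Or.inl hl),
      h3' fun l hl => hU l (by simp only [Finset.coe_union, Set.mem_union]; exact Or.inr hl)]

theorem Obs.const (a : ℝ) : Obs (fun _ : Lk d → G => a) :=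
  ⟨measurable_const, ⟨|a|, fun _ => le_rfl⟩, ∅, fun _ _ _ => rfl⟩

theorem Obs.sh {F : (Lk d → G) → ℝ} (hF : Obs F) (x : V d) : Obs (fun U => F (sh x U)) := by
  classical
  obtain ⟨h1, ⟨C, h2⟩, S, h3⟩ := hF
  refine ⟨h1.comp (sh_meas x), ⟨C, fun U => h2 _⟩, S.image (shE x), fun U U' hU => h3 fun l hl => ?_⟩
  exact hU _ (by rw [Finset.coe_image]; exact ⟨l, hl, rfl⟩)

theorem Obs.Th {F : (Lk d → G) → ℝ} (hF : Obs F) (k : Fin d) : Obs (fun U => F (Th k U)) := by
  classical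
  obtain ⟨h1, ⟨C, h2⟩, S, h3⟩ := hF
  refine ⟨h1.comp (Th_meas k), ⟨C, fun U => h2 _⟩, S.image (rl k), fun U U' hU => h3 fun l hl => ?_⟩
  unfold YM.Th
  rw [hU _ (by rw [Finset.coe_image]; exact ⟨l, hl, rfl⟩)]

/-- a bounded sequence with `b (2 n) ≤ K ρ ^ (2 n)` and the Schwarz inequality -/
theorem schwarz_decay (b : ℕ → ℝ) (ρ : ℝ) (hρ : 0 ≤ ρ) (hb : ∀ n, 0 ≤ b (2 * n))
    (hs : ∀ n, b n ^ 2 ≤ b 0 * b (2 * n)) (K : ℝ) (N : ℕ)
    (hK : ∀ n, N ≤ n → b (2 * n) ≤ K * ρ ^ (2 * n)) (n : ℕ) : |b n| ≤ ρ ^ n * b 0 := by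
  have hb0 : 0 ≤ b 0 := hb 0
  rcases hρ.eq_or_lt with h0 | h0
  · -- `ρ = 0`
    have hz : ∀ j, ∀ n, 1 ≤ n → N ≤ 2 ^ j * n → b n = 0 := by
      intro j
      induction j with
      | zero =>
        intro n hn hN
        have h1 := hK n (by simpa using hN)
        rw [← h0, zero_pow (by omega), mul_zero] at h1
        have h2 := hs n
        have h3 : b (2 * n) = 0 := le_antisymm h1 (hb n)
        rw [h3, mul_zero] at h2
        exact pow_eq_zero_iff (two_ne_zero) |>.1 (le_antisymm h2 (sq_nonneg _))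
      | succ j ih =>
        intro n hn hN
        have h1 := ih (2 * n) (by omega) (by
          rw [pow_succ] at hN
          calc N ≤ 2 ^ j * 2 * n := hN
            _ = 2 ^ j * (2 * n) := by ring)
        have h2 := hs n
        rw [h1, mul_zero] at h2
        exact pow_eq_zero_iff (two_ne_zero) |>.1 (le_antisymm h2 (sq_nonneg _))
    rcases Nat.eq_zero_or_pos n with hn | hn
    · subst hn
      rw [pow_zero, one_mul, abs_of_nonneg hb0]
    · have h1 := hz N n hn ((Nat.lt_two_pow_self (n := N)).le.trans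
        (Nat.le_mul_of_pos_right _ hn))
      rw [h1, abs_zero]
      exact mul_nonneg (pow_nonneg hρ n) hb0
  · set x : ℕ → ℝ := fun n => b (2 * n) / ρ ^ (2 * n) with hx
    have hpos : ∀ n, 0 < ρ ^ n := fun n => pow_pos h0 n
    have hx0 : ∀ n, 0 ≤ x n := fun n => div_nonneg (hb n) (hpos _).le
    have hbdd : BddAbove (Set.range x) := by
      refine ⟨max K (∑ n ∈ Finset.range N, x n), ?_⟩
      rintro _ ⟨n, rfl⟩
      rcases le_or_gt N n with h | h
      · refine le_trans ?_ (le_max_left _ _)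
        simp only [hx]
        rw [div_le_iff₀ (hpos _)]
        exact hK n h
      · refine le_trans ?_ (le_max_right _ _)
        exact Finset.single_le_sum (f := x) (fun i _ => hx0 i) (Finset.mem_range.2 h)
    set S := ⨆ n, x n with hS
    have hxS : ∀ n, x n ≤ S := fun n => le_ciSup hbdd n
    have hsq : ∀ n, x n ^ 2 ≤ b 0 * x (2 * n) := by
      intro n
      simp only [hx]
      rw [div_pow, ← mul_div_assoc]
      have e1 : (ρ ^ (2 * n)) ^ 2 = ρ ^ (2 * (2 * n)) := by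
        rw [← pow_mul]; congr 1; ring
      rw [e1]
      exact div_le_div_of_nonneg_right (hs (2 * n)) (hpos _).le
    have hSb : S ≤ b 0 := by
      by_contra hcon
      push Not at hcon
      have hS0 : 0 < S := lt_of_le_of_lt hb0 hcon
      have h1 : ∀ n, x n ≤ Real.sqrt (b 0 * S) := by
        intro n
        apply Real.le_sqrt_of_sq_le
        exact (hsq n).trans (mul_le_mul_of_nonneg_left (hxS _) hb0)
      have h2 : S ≤ Real.sqrt (b 0 * S) := ciSup_le h1
      have h3 : S ^ 2 ≤ b 0 * S := by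
        calc S ^ 2 ≤ (Real.sqrt (b 0 * S)) ^ 2 := pow_le_pow_left₀ hS0.le h2 2
          _ = b 0 * S := Real.sq_sqrt (mul_nonneg hb0 hS0.le)
      nlinarith
    have h4 : b (2 * n) ≤ b 0 * ρ ^ (2 * n) := by
      have := (hxS n).trans hSb
      simp only [hx] at this
      rwa [div_le_iff₀ (hpos _)] at this
    have h5 : b n ^ 2 ≤ (ρ ^ n * b 0) ^ 2 := by
      calc b n ^ 2 ≤ b 0 * b (2 * n) := hs n
        _ ≤ b 0 * (b 0 * ρ ^ (2 * n)) := mul_le_mul_of_nonneg_left h4 hb0
        _ = (ρ ^ n * b 0) ^ 2 := by ring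
    exact abs_le_of_sq_le_sq h5 (mul_nonneg (hpos n).le hb0)

variable (μ : Measure G) [IsProbabilityMeasure μ] [μ.IsMulLeftInvariant] [μ.IsMulRightInvariant]
  [μ.IsInvInvariant]

/-- the infinite volume state: the limit of the expectations in cubes -/
noncomputable def om (w : Pq d → G → ℝ) (F : (Lk d → G) → ℝ) : ℝ :=
  limUnder atTop (fun L => ex μ (cub d L) w F)

section state

variable {m : Fin d → Fin d} {w : Fin d → Fin d → G → ℝ} {c C y : ℝ} (hw : WH m (ww w) c C y)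

include hw

theorem om_lim {F : (Lk d → G) → ℝ} (hF : Obs F) :
    Tendsto (fun L => ex μ (cub d L) (ww w) F) atTop (𝓝 (om μ (ww w) F)) := by
  obtain ⟨z, hz⟩ := lim_exists μ hw hF
  unfold om
  rwa [hz.limUnder_eq]

theorem ex_add (Λ : Finset (Pq d)) {F H : (Lk d → G) → ℝ} (hF : Obs F) (hH : Obs H) :
    ex μ Λ (ww w) (fun U => F U + H U) = ex μ Λ (ww w) F + ex μ Λ (ww w) H := by
  obtain ⟨h1, ⟨CF, h2⟩, -⟩ := hF
  obtain ⟨h1', ⟨CH, h2'⟩, -⟩ := hH
  unfold ex
  rw [← add_div, ← integral_add (mul_wt_int μ hw Λ h1 h2) (mul_wt_int μ hw Λ h1' h2')]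
  congr 1
  exact integral_congr_ae (Eventually.of_forall fun U => by
    show (F U + H U) * _ = F U * _ + H U * _
    ring)

theorem ex_smul (Λ : Finset (Pq d)) (F : (Lk d → G) → ℝ) (a : ℝ) :
    ex μ Λ (ww w) (fun U => a * F U) = a * ex μ Λ (ww w) F := by
  unfold ex
  rw [← mul_div_assoc, ← integral_const_mul]
  congr 1
  exact integral_congr_ae (Eventually.of_forall fun U => by
    show a * F U * _ = a * (F U * _)
    ring)

theorem om_add {F H : (Lk d → G) → ℝ} (hF : Obs F) (hH : Obs H) :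
    om μ (ww w) (fun U => F U + H U) = om μ (ww w) F + om μ (ww w) H := by
  refine tendsto_nhds_unique (om_lim μ hw (hF.add hH)) ?_
  have := (om_lim μ hw hF).add (om_lim μ hw hH)
  refine this.congr fun L => ?_
  rw [ex_add μ hw _ hF hH]

theorem om_smul {F : (Lk d → G) → ℝ} (hF : Obs F) (a : ℝ) :
    om μ (ww w) (fun U => a * F U) = a * om μ (ww w) F := by
  have hO : Obs (fun U => a * F U) := (Obs.const a).mul hF
  refine tendsto_nhds_unique (om_lim μ hw hO) ?_
  refine ((om_lim μ hw hF).const_mul a).congr fun L => ?_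
  rw [ex_smul μ hw]

theorem om_const (a : ℝ) : om μ (ww w) (fun _ => a) = a := by
  refine tendsto_nhds_unique (om_lim μ hw (Obs.const a)) ?_
  refine tendsto_const_nhds.congr fun L => ?_
  rw [ex_const μ hw]

/-- every sequence of large boxes gives the same limit -/
theorem om_box {F : (Lk d → G) → ℝ} (hF : Obs F) (ε : ℝ) (hε : 0 < ε) : ∃ n : ℕ,
    ∀ u v : V d, u ≤ (fun _ => -(n : ℤ)) → (fun _ => (n : ℤ)) ≤ v →
      |ex μ (bx u v) (ww w) F - om μ (ww w) F| ≤ ε := by
  obtain ⟨n, hn⟩ := box_unif μ hw hF ε hε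
  refine ⟨n, fun u v hu hv => ?_⟩
  have h1 : Tendsto (fun L => |ex μ (bx u v) (ww w) F - ex μ (cub d L) (ww w) F|) atTop
      (𝓝 |ex μ (bx u v) (ww w) F - om μ (ww w) F|) :=
    (tendsto_const_nhds.sub (om_lim μ hw hF)).abs
  refine le_of_tendsto h1 ?_
  filter_upwards [eventually_ge_atTop n] with L hL
  refine hn u v _ _ hu hv ?_ ?_
  · intro i
    show -(L : ℤ) ≤ -(n : ℤ)
    omega
  · intro i
    show (n : ℤ) ≤ (L : ℤ)
    omega

theorem om_sh {F : (Lk d → G) → ℝ} (hF : Obs F) (x : V d) :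
    om μ (ww w) (fun U => F (sh x U)) = om μ (ww w) F := by
  refine tendsto_nhds_unique (om_lim μ hw (hF.sh x)) ?_
  rw [Metric.tendsto_atTop]
  intro ε hε
  obtain ⟨n, hn⟩ := om_box μ hw hF (ε / 2) (half_pos hε)
  refine ⟨n + nd 0 x, fun L hL => ?_⟩
  rw [Real.dist_eq]
  unfold cub
  rw [ex_sh w μ x _ _ F hF.1 hw.meas]
  refine lt_of_le_of_lt (hn _ _ ?_ ?_) (half_lt_self hε)
  · intro i
    have := le_nd 0 x i
    simp only [Pi.zero_apply, zero_sub, Int.natAbs_neg] at this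
    show -(L : ℤ) - x i ≤ -(n : ℤ)
    omega
  · intro i
    have := le_nd 0 x i
    simp only [Pi.zero_apply, zero_sub, Int.natAbs_neg] at this
    show (n : ℤ) ≤ (L : ℤ) - x i
    omega

variable (hcl : ∀ i j g h, w i j (h * g * h⁻¹) = w i j g) (hinv : ∀ i j g, w i j g⁻¹ = w i j g)

include hcl hinv

theorem om_Th {F : (Lk d → G) → ℝ} (hF : Obs F) (k : Fin d) :
    om μ (ww w) (fun U => F (Th k U)) = om μ (ww w) F := by
  refine tendsto_nhds_unique (om_lim μ hw (hF.Th k)) ?_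
  refine (om_lim μ hw hF).congr fun L => ?_
  rw [ex_Th w μ hcl hinv hw.meas k L F hF.1]

theorem om_rp {F : (Lk d → G) → ℝ} (hF : Obs F) (k : Fin d) (hFd : DependsOn F (Hf k)) :
    0 ≤ om μ (ww w) (fun U => F (Th k U) * F U) := by
  refine ge_of_tendsto (om_lim μ hw ((hF.Th k).mul hF)) (Eventually.of_forall fun L => ?_)
  obtain ⟨h1, ⟨CF, h2⟩, -⟩ := hF
  exact ex_rp w μ hw hcl hinv k L F h1 CF h2 hFd

/-- the scalar product of the physical space -/
theorem om_schwarz {F H : (Lk d → G) → ℝ} (hF : Obs F) (hH : Obs H) (k : Fin d)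
    (hFd : DependsOn F (Hf k)) (hHd : DependsOn H (Hf k)) :
    om μ (ww w) (fun U => F (Th k U) * H U) ^ 2 ≤
      om μ (ww w) (fun U => F (Th k U) * F U) * om μ (ww w) (fun U => H (Th k U) * H U) := by
  set A := om μ (ww w) (fun U => F (Th k U) * F U) with hA
  set B := om μ (ww w) (fun U => F (Th k U) * H U) with hB
  set D := om μ (ww w) (fun U => H (Th k U) * H U) with hD
  have hsym : om μ (ww w) (fun U => H (Th k U) * F U) = B := by
    rw [hB, ← om_Th μ hw hcl hinv ((hF.Th k).mul hH) k]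
    congr 1
    funext U
    rw [Th_Th]
    ring
  have hquad : ∀ s : ℝ, 0 ≤ D * (s * s) + (2 * B) * s + A := by
    intro s
    have hO : Obs (fun U => F U + s * H U) := hF.add ((Obs.const s).mul hH)
    have hd : DependsOn (fun U => F U + s * H U) (Hf k) := fun U U' hU => by
      show F U + s * H U = F U' + s * H U'
      rw [hFd hU, hHd hU]
    have h1 := om_rp μ hw hcl hinv hO k hd
    have e1 : (fun U => (F (Th k U) + s * H (Th k U)) * (F U + s * H U)) =
        fun U => ((fun U => F (Th k U) * F U) U + s * (fun U => F (Th k U) * H U) U) +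
          (s * (fun U => H (Th k U) * F U) U + (s * s) * (fun U => H (Th k U) * H U) U) := by
      funext U
      ring
    rw [e1] at h1
    have o1 := (hF.Th k).mul hF
    have o2 := (hF.Th k).mul hH
    have o3 := (hH.Th k).mul hF
    have o4 := (hH.Th k).mul hH
    rw [om_add μ hw (o1.add ((Obs.const s).mul o2)) (((Obs.const s).mul o3).add
      ((Obs.const (s * s)).mul o4)), om_add μ hw o1 ((Obs.const s).mul o2),
      om_add μ hw ((Obs.const s).mul o3) ((Obs.const (s * s)).mul o4), om_smul μ hw o2,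
      om_smul μ hw o3, om_smul μ hw o4, hsym] at h1
    rw [← hA, ← hB, ← hD] at h1
    linarith
  have h2 := discrim_le_zero hquad
  unfold discrim at h2
  nlinarith

/-- the decay of the truncated correlations in the infinite volume -/
theorem om_cov {F H : (Lk d → G) → ℝ} (hF : Measurable F) (hH : Measurable H) {CF CH : ℝ}
    (hCF : ∀ U, |F U| ≤ CF)
    (hCH : ∀ U, |H U| ≤ CH) {A B : Finset (V d)} (hA : CC A) (hB : CC B) {a b : V d} (ha : a ∈ A)
    (hb : b ∈ B) (hFd : DependsOn F {l | l.1 ∈ A ∧ l.1 + e l.2 ∈ A})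
    (hHd : DependsOn H {l | l.1 ∈ B ∧ l.1 + e l.2 ∈ B})
    (hD : 10 * (A.card + B.card) ≤ nd a b) (oF : Obs F) (oH : Obs H) :
    |om μ (ww w) (fun U => F U * H U) - om μ (ww w) F * om μ (ww w) H| ≤
      2 * CF * CH * (Cd d * y) ^ nd a b := by
  have h1 : Tendsto (fun L => |ex μ (cub d L) (ww w) (fun U => F U * H U) -
      ex μ (cub d L) (ww w) F * ex μ (cub d L) (ww w) H|) atTop
      (𝓝 |om μ (ww w) (fun U => F U * H U) - om μ (ww w) F * om μ (ww w) H|) :=
    ((om_lim μ hw (oF.mul oH)).sub ((om_lim μ hw oF).mul (om_lim μ hw oH))).abs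
  refine le_of_tendsto h1 (Eventually.of_forall fun L => ?_)
  refine ex_cov μ hw (cub d L) (fun p hp => ?_) hF hH hCF hCH hA hB ha hb hFd hHd hD
  unfold cub at hp
  exact (mem_bx.1 hp).2.1

omit hw hcl hinv [MeasurableSpace G] [MeasurableMul₂ G] [MeasurableInv G] in
theorem Hf_sh {F : (Lk d → G) → ℝ} {k : Fin d} (hFd : DependsOn F (Hf k)) (n : ℕ) :
    DependsOn (fun U => F (sh ((n : ℤ) • e k) U)) (Hf k) := by
  intro U U' hU
  apply hFd
  intro l hl
  apply hU
  unfold Hf at hl ⊢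
  simp only [mem_ofPred_eq, Pi.add_apply, Pi.smul_apply, e_same, smul_eq_mul, mul_one] at hl ⊢
  omega

theorem om_shift {F H : (Lk d → G) → ℝ} (hF : Obs F) (hH : Obs H) (k : Fin d) (n n' : ℕ) :
    om μ (ww w) (fun U => F (sh ((n : ℤ) • e k) (Th k U)) * H (sh ((n' : ℤ) • e k) U)) =
      om μ (ww w) (fun U => F (Th k U) * H (sh (((n + n' : ℕ) : ℤ) • e k) U)) := by
  have hO : Obs (fun U => F (Th k U) * H (sh (((n + n' : ℕ) : ℤ) • e k) U)) :=
    (hF.Th k).mul (hH.sh _)
  rw [← om_sh μ hw hO (-((n : ℤ) • e k))]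
  congr 1
  funext U
  rw [Th_sh, sh_sh]
  congr 3
  push_cast
  rw [add_smul]
  abel

/-- **The mass gap**: the translation by one lattice unit is a contraction by `Cd d * y` on the
orthogonal complement of the vacuum. -/
theorem om_gap {F : (Lk d → G) → ℝ} (hF : Obs F) (k : Fin d) (hFd : DependsOn F (Hf k)) (n : ℕ) :
    |om μ (ww w) (fun U => F (Th k U) * F (sh ((n : ℤ) • e k) U)) - om μ (ww w) F ^ 2| ≤
      (Cd d * y) ^ n * (om μ (ww w) (fun U => F (Th k U) * F U) - om μ (ww w) F ^ 2) := by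
  -- the centred observable
  set z := om μ (ww w) F with hz
  set F₀ : (Lk d → G) → ℝ := fun U => F U + (-z) with hF₀
  have oF₀ : Obs F₀ := hF.add (Obs.const _)
  have dF₀ : DependsOn F₀ (Hf k) := fun U U' hU => by
    show F U + (-z) = F U' + (-z)
    rw [hFd hU]
  set b : ℕ → ℝ := fun n => om μ (ww w) (fun U => F₀ (Th k U) * F₀ (sh ((n : ℤ) • e k) U)) with hb
  have hbn : ∀ n : ℕ, b n = om μ (ww w) (fun U => F (Th k U) * F (sh ((n : ℤ) • e k) U)) - z ^ 2 := by
    intro n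
    simp only [hb, hF₀]
    have e1 : (fun U => (F (Th k U) + -z) * (F (sh ((n : ℤ) • e k) U) + -z)) =
        fun U => ((fun U => F (Th k U) * F (sh ((n : ℤ) • e k) U)) U + (-z) * (fun U => F (Th k U)) U)
          + ((-z) * (fun U => F (sh ((n : ℤ) • e k) U)) U + z ^ 2) := by
      funext U; ring
    rw [e1]
    have o1 := (hF.Th k).mul (hF.sh ((n : ℤ) • e k))
    have o2 := hF.Th k
    have o3 := hF.sh ((n : ℤ) • e k)
    rw [om_add μ hw (o1.add ((Obs.const _).mul o2)) (((Obs.const _).mul o3).add (Obs.const _)),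
      om_add μ hw o1 ((Obs.const _).mul o2), om_add μ hw ((Obs.const _).mul o3) (Obs.const _),
      om_smul μ hw o2, om_smul μ hw o3, om_const μ hw, om_Th μ hw hcl hinv hF k,
      om_sh μ hw hF, ← hz]
    ring
  have hb0 : b 0 = om μ (ww w) (fun U => F (Th k U) * F U) - z ^ 2 := by
    rw [hbn 0]
    simp only [Nat.cast_zero, zero_smul, sh_zero]
  have hb2 : ∀ n n' : ℕ, b (n + n') = om μ (ww w)
      (fun U => F₀ (sh ((n : ℤ) • e k) (Th k U)) * F₀ (sh ((n' : ℤ) • e k) U)) := fun n n' =>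
    (om_shift μ hw hcl hinv oF₀ oF₀ k n n').symm
  have hnn : ∀ n, 0 ≤ b (2 * n) := by
    intro n
    rw [two_mul, hb2]
    exact om_rp μ hw hcl hinv (oF₀.sh ((n : ℤ) • e k)) k (Hf_sh dF₀ n)
  have hs : ∀ n, b n ^ 2 ≤ b 0 * b (2 * n) := by
    intro n
    have h1 := om_schwarz μ hw hcl hinv oF₀ (oF₀.sh ((n : ℤ) • e k)) k dF₀ (Hf_sh dF₀ n)
    have h2 := hb2 n n
    have h3 : b 0 = om μ (ww w) (fun U => F₀ (Th k U) * F₀ U) := by
      simp only [hb, Nat.cast_zero, zero_smul, sh_zero]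
    rw [two_mul, h2, h3]
    exact h1
  -- the decay
  obtain ⟨r, hr⟩ := oF₀.box
  obtain ⟨C₀, hC₀⟩ := oF₀.2.1
  set A : ℕ → Finset (V d) := fun n =>
    Finset.Icc (fun i => -(r : ℤ) + ((n : ℤ) • e k : V d) i) (fun i => (r : ℤ) + ((n : ℤ) • e k : V d) i)
    with hA
  have hAcard : ∀ n, (A n).card ≤ (2 * r + 1) ^ d := by
    intro n
    refine card_ball ((n : ℤ) • e k) r (A n) fun x hx => ?_
    rw [hA, Finset.mem_Icc] at hx
    rw [nd_le]
    intro i
    have h1 : -(r : ℤ) + ((n : ℤ) • e k : V d) i ≤ x i := hx.1 i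
    have h2 : x i ≤ (r : ℤ) + ((n : ℤ) • e k : V d) i := hx.2 i
    omega
  have hcen : ∀ n : ℕ, ((n : ℤ) • e k : V d) ∈ A n := by
    intro n
    rw [hA, Finset.mem_Icc]
    constructor <;> intro i
    · show -(r : ℤ) + ((n : ℤ) • e k : V d) i ≤ ((n : ℤ) • e k : V d) i
      omega
    · show ((n : ℤ) • e k : V d) i ≤ (r : ℤ) + ((n : ℤ) • e k : V d) i
      omega
  have hdepn : ∀ n : ℕ, DependsOn (fun U => F₀ (sh ((n : ℤ) • e k) U))
      {l | l.1 ∈ A n ∧ l.1 + e l.2 ∈ A n} := by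
    intro n U U' hU
    apply hr
    intro l hl
    apply hU
    simp only [mem_ofPred_eq, hA, Finset.mem_Icc] at hl ⊢
    obtain ⟨⟨h1, h2⟩, h3, h4⟩ := hl
    refine ⟨⟨fun i => ?_, fun i => ?_⟩, fun i => ?_, fun i => ?_⟩
    · have : -(r : ℤ) ≤ l.1 i := h1 i
      show -(r : ℤ) + ((n : ℤ) • e k : V d) i ≤ l.1 i + ((n : ℤ) • e k : V d) i
      omega
    · have : l.1 i ≤ (r : ℤ) := h2 i
      show l.1 i + ((n : ℤ) • e k : V d) i ≤ (r : ℤ) + ((n : ℤ) • e k : V d) i
      omega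
    · have : -(r : ℤ) ≤ l.1 i + e l.2 i := h3 i
      show -(r : ℤ) + ((n : ℤ) • e k : V d) i ≤ l.1 i + ((n : ℤ) • e k : V d) i + e l.2 i
      omega
    · have : l.1 i + e l.2 i ≤ (r : ℤ) := h4 i
      show l.1 i + ((n : ℤ) • e k : V d) i + e l.2 i ≤ (r : ℤ) + ((n : ℤ) • e k : V d) i
      omega
  -- a box which contains the support of the reflected observable
  set A' : Finset (V d) := Finset.Icc (fun _ => -((r + 1 : ℕ) : ℤ)) (fun _ => ((r + 1 : ℕ) : ℤ)) with hA'
  have hdep' : DependsOn (fun U => F₀ (Th k U)) {l | l.1 ∈ A' ∧ l.1 + e l.2 ∈ A'} := by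
    intro U U' hU
    apply hr
    intro l hl
    have hl' : rl k l ∈ {l : Lk d | l.1 ∈ A' ∧ l.1 + e l.2 ∈ A'} := by
      simp only [mem_ofPred_eq, hA', Finset.mem_Icc] at hl ⊢
      obtain ⟨⟨h1, h2⟩, h3, h4⟩ := hl
      have b1 : ∀ i, -(r : ℤ) ≤ l.1 i ∧ l.1 i ≤ r ∧ -(r : ℤ) ≤ l.1 i + e l.2 i ∧
        l.1 i + e l.2 i ≤ r := fun i => ⟨h1 i, h2 i, h3 i, h4 i⟩
      have b2 : ∀ i, -((r + 1 : ℕ) : ℤ) ≤ (rl k l).1 i ∧ (rl k l).1 i ≤ ((r + 1 : ℕ) : ℤ) ∧
          -((r + 1 : ℕ) : ℤ) ≤ (rl k l).1 i + e (rl k l).2 i ∧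
          (rl k l).1 i + e (rl k l).2 i ≤ ((r + 1 : ℕ) : ℤ) := by
        intro i
        have b3 := b1 i
        have b4 : e l.2 i = 0 ∨ e l.2 i = 1 := by
          by_cases h : l.2 = i
          · subst h; right; exact e_same _
          · left; exact e_ne h
        rw [rl_snd]
        unfold rl rf
        by_cases hk : l.2 = k
        · simp only [hk, if_true, Pi.sub_apply] at b3 b4 ⊢
          by_cases hi : i = k
          · subst hi
            simp only [if_true, e_same] at b3 ⊢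
            omega
          · simp only [if_neg hi, e_ne (Ne.symm hi)] at b3 ⊢
            omega
        · simp only [if_neg hk]
          by_cases hi : i = k
          · subst hi
            simp only [if_true, e_ne hk] at b3 ⊢
            omega
          · simp only [if_neg hi]
            omega
      exact ⟨⟨fun i => (b2 i).1, fun i => (b2 i).2.1⟩, fun i => (b2 i).2.2.1, fun i => (b2 i).2.2.2⟩
    unfold YM.Th
    rw [hU _ hl']
  have h0A' : (0 : V d) ∈ A' := by
    rw [hA', Finset.mem_Icc]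
    constructor <;> intro i
    · show -((r + 1 : ℕ) : ℤ) ≤ 0
      omega
    · show 0 ≤ ((r + 1 : ℕ) : ℤ)
      omega
  have hz0 : om μ (ww w) F₀ = 0 := by
    have := om_add μ hw hF (Obs.const (-z))
    rw [om_const μ hw, ← hz, add_neg_cancel] at this
    exact this
  have hmain : ∀ n, 10 * (A'.card + (2 * r + 1) ^ d) ≤ n →
      b (2 * n) ≤ 2 * C₀ * C₀ * (Cd d * y) ^ (2 * n) := by
    intro n hn
    have hnd : 2 * n ≤ nd 0 (((2 * n : ℕ) : ℤ) • e k : V d) := by
      have := le_nd 0 (((2 * n : ℕ) : ℤ) • e k : V d) k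
      simp only [Pi.zero_apply, Pi.smul_apply, e_same, smul_eq_mul, mul_one, zero_sub,
        Int.natAbs_neg, Int.natAbs_natCast] at this
      exact this
    have h1 := om_cov μ hw hcl hinv (oF₀.Th k).1 (oF₀.sh (((2 * n : ℕ) : ℤ) • e k)).1
      (fun U => hC₀ _) (fun U => hC₀ _) (CC_Icc _ _) (CC_Icc _ _) h0A' (hcen (2 * n)) hdep'
      (hdepn (2 * n)) (by
        have := hAcard (2 * n)
        change 10 * (A'.card + (A (2 * n)).card) ≤ _
        omega) (oF₀.Th k) (oF₀.sh (((2 * n : ℕ) : ℤ) • e k))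
    rw [om_Th μ hw hcl hinv oF₀ k, hz0, zero_mul, sub_zero] at h1
    refine (le_abs_self _).trans (h1.trans ?_)
    have hC0 : 0 ≤ C₀ := (abs_nonneg _).trans (hC₀ fun _ => 1)
    refine mul_le_mul_of_nonneg_left ?_ (by positivity)
    exact pow_le_pow_of_le_one (th0 hw) (th1 hw).le hnd
  have hfin := schwarz_decay b (Cd d * y) (th0 hw) hnn hs (2 * C₀ * C₀)
    (10 * (A'.card + (2 * r + 1) ^ d)) hmain n
  rw [hbn n, hb0] at hfin
  exact hfin

end state

end Pool.Agent.T2H03.YM
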