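import Mathlib
import Pool.Agent.T2H03.YM.State

/-!
# The infinite volume theory and its mass gap: final form
-/

set_option autoImplicit false
set_option linter.unusedSectionVars false

open MeasureTheory Measure Set Relation Filter Topology

namespace Pool.Agent.T2H03.YM

variable {d : ℕ} {G : Type*}

/-- the rate of decay -/
noncomputable def rate (d : ℕ) (δ : ℝ) : ℝ := 2 * 9 ^ d * 2 ^ (d ^ 2) * δ ^ (1 / 40 : ℝ)

theorem rate_eq (d : ℕ) (δ : ℝ) : rate d δ = Cd d * (2 * δ ^ (1 / 40 : ℝ)) := by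
  unfold rate Cd
  rw [pow_mul, pow_two d]
  norm_num
  ring

variable [Group G] [MeasurableSpace G]

/-- the hypotheses on the weights -/
structure IsW (w : Fin d → Fin d → G → ℝ) : Prop where
  meas : ∀ i j, Measurable (w i j)
  bdd : ∃ C : ℝ, ∀ i j g, w i j g ≤ C
  pos : ∀ i j g, 0 < w i j g
  cls : ∀ i j g h, w i j (h * g * h⁻¹) = w i j g
  inv : ∀ i j g, w i j g⁻¹ = w i j g

/-- the scale of the weights -/
noncomputable def scl (m : Fin d → Fin d) (w : Fin d → Fin d → G → ℝ) (δ : ℝ) (i j : Fin d) : ℝ :=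
  if i < j ∧ m i ≠ j then (1 + δ) * w i j 1 else 1

/-- the normalised weights -/
noncomputable def nw (m : Fin d → Fin d) (w : Fin d → Fin d → G → ℝ) (δ : ℝ) (i j : Fin d)
    (g : G) : ℝ := w i j g / scl m w δ i j

theorem scl_pos {m : Fin d → Fin d} {w : Fin d → Fin d → G → ℝ} {δ : ℝ} (hδ : 0 ≤ δ)
    (hw : IsW w) (i j : Fin d) : 0 < scl m w δ i j := by
  unfold scl
  split_ifs
  · exact mul_pos (by linarith) (hw.pos _ _ _)
  · exact one_pos

theorem nw_WH [MeasurableMul₂ G] [MeasurableInv G] {m : Fin d → Fin d} (hm : ∀ i, m (m i) = i)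
    {w : Fin d → Fin d → G → ℝ} {δ : ℝ} (hδ : 0 ≤ δ) (hw : IsW w)
    (hflat : ∀ i j, i < j → m i ≠ j → ∀ g h, w i j g ≤ (1 + δ) * w i j h)
    (hrate : rate d δ ≤ 1 / 2) :
    ∃ C, WH m (ww (nw m w δ)) ((1 + δ)⁻¹ ^ 2) C (2 * δ ^ (1 / 40 : ℝ)) := by
  obtain ⟨C, hC⟩ := hw.bdd
  have hC0 : 0 ≤ |C| := abs_nonneg C
  have h1δ : 0 < 1 + δ := by linarith
  have hδ0 : 0 ≤ δ ^ (1 / 40 : ℝ) := Real.rpow_nonneg hδ _
  have hpow : (δ ^ (1 / 40 : ℝ)) ^ 40 = δ := by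
    rw [← Real.rpow_natCast, ← Real.rpow_mul hδ]
    norm_num
  refine ⟨∑ i : Fin d, ∑ j : Fin d, |C| / scl m w δ i j, ?_⟩
  refine ⟨hm, fun p => (hw.meas _ _).div_const _, fun p g => div_pos (hw.pos _ _ _) (scl_pos hδ hw _ _),
    ?_, by positivity, ?_, by positivity, ?_, ?_⟩
  · intro p g
    show w p.2.1 p.2.2 g / scl m w δ p.2.1 p.2.2 ≤ _
    have h1 : w p.2.1 p.2.2 g / scl m w δ p.2.1 p.2.2 ≤ |C| / scl m w δ p.2.1 p.2.2 :=
      div_le_div_of_nonneg_right ((hC _ _ _).trans (le_abs_self C)) (scl_pos hδ hw _ _).le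
    have hnn : ∀ i j, 0 ≤ |C| / scl m w δ i j := fun i j => div_nonneg hC0 (scl_pos hδ hw _ _).le
    have h2 : |C| / scl m w δ p.2.1 p.2.2 ≤ ∑ j : Fin d, |C| / scl m w δ p.2.1 j :=
      Finset.single_le_sum (f := fun j => |C| / scl m w δ p.2.1 j) (fun j _ => hnn _ j)
        (Finset.mem_univ _)
    have h3 : ∑ j : Fin d, |C| / scl m w δ p.2.1 j ≤
        ∑ i : Fin d, ∑ j : Fin d, |C| / scl m w δ i j :=
      Finset.single_le_sum (f := fun i => ∑ j : Fin d, |C| / scl m w δ i j)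
        (fun i _ => Finset.sum_nonneg fun j _ => hnn i j) (Finset.mem_univ _)
    exact h1.trans (h2.trans h3)
  · intro p hp hmp g
    have hs : scl m w δ p.2.1 p.2.2 = (1 + δ) * w p.2.1 p.2.2 1 := by
      unfold scl
      rw [if_pos ⟨hp, hmp⟩]
    have hw1 := hw.pos p.2.1 p.2.2 1
    show (1 + δ)⁻¹ ^ 2 ≤ w p.2.1 p.2.2 g / scl m w δ p.2.1 p.2.2 ∧
      w p.2.1 p.2.2 g / scl m w δ p.2.1 p.2.2 ≤ 1
    rw [hs]
    constructor
    · have h1 := hflat _ _ hp hmp 1 g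
      rw [le_div_iff₀ (by positivity), pow_two]
      have h2 : (1 + δ)⁻¹ * (1 + δ)⁻¹ * ((1 + δ) * w p.2.1 p.2.2 1) =
          (1 + δ)⁻¹ * w p.2.1 p.2.2 1 := by
        field_simp
      rw [h2]
      calc (1 + δ)⁻¹ * w p.2.1 p.2.2 1 ≤ (1 + δ)⁻¹ * ((1 + δ) * w p.2.1 p.2.2 g) :=
            mul_le_mul_of_nonneg_left h1 (by positivity)
        _ = w p.2.1 p.2.2 g := by field_simp
    · rw [div_le_one (by positivity)]
      exact hflat _ _ hp hmp g 1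
  · rw [← rate_eq]; exact hrate
  · rw [mul_pow, hpow]
    have h4 : 1 - ((1 + δ)⁻¹ ^ 2) ^ 2 ≤ 4 * δ := by
      have h5 : ((1 + δ)⁻¹ ^ 2) ^ 2 = ((1 + δ) ^ 4)⁻¹ := by
        rw [← pow_mul, inv_pow]
      rw [h5]
      by_cases h6 : 1 ≤ 4 * δ
      · have : 0 < ((1 + δ) ^ 4)⁻¹ := by positivity
        linarith
      · push Not at h6
        have h7 : 1 - 4 * δ ≤ ((1 + δ) ^ 4)⁻¹ := by
          rw [le_inv_comm₀ (by linarith) (by positivity)]
          rw [le_inv_comm₀ (by positivity) (by linarith)]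
          have h8 : (1 - 4 * δ) * (1 + δ) ^ 4 ≤ 1 := by
            nlinarith [pow_nonneg hδ 2, pow_nonneg hδ 3, pow_nonneg hδ 4, pow_nonneg hδ 5]
          rw [← one_div, le_div_iff₀ (by positivity)]
          exact h8
        linarith
    have h9 : 4 * δ ≤ 2 ^ 40 * δ := by nlinarith
    linarith

theorem ex_nw [MeasurableMul₂ G] [MeasurableInv G] (μ : Measure G) [IsProbabilityMeasure μ]
    {m : Fin d → Fin d}
    {w : Fin d → Fin d → G → ℝ} {δ : ℝ} (hδ : 0 ≤ δ) (hw : IsW w) (Λ : Finset (Pq d))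
    (F : (Lk d → G) → ℝ) : ex μ Λ (ww w) F = ex μ Λ (ww (nw m w δ)) F := by
  have h1 : ∀ U : Lk d → G, wt Λ (ww w) U =
      (∏ p ∈ Λ, scl m w δ p.2.1 p.2.2) * wt Λ (ww (nw m w δ)) U := by
    intro U
    unfold wt
    rw [← Finset.prod_mul_distrib]
    refine Finset.prod_congr rfl fun p _ => ?_
    unfold ww nw
    rw [mul_div_cancel₀]
    exact (scl_pos hδ hw _ _).ne'
  have hpos : 0 < ∏ p ∈ Λ, scl m w δ p.2.1 p.2.2 :=
    Finset.prod_pos fun p _ => scl_pos hδ hw _ _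
  unfold ex
  have e1 : ∫ U, F U * wt Λ (ww w) U ∂PP (Lk d) μ = (∏ p ∈ Λ, scl m w δ p.2.1 p.2.2) *
      ∫ U, F U * wt Λ (ww (nw m w δ)) U ∂PP (Lk d) μ := by
    rw [← integral_const_mul]
    exact integral_congr_ae (Eventually.of_forall fun U => by
      show F U * wt Λ (ww w) U = _
      rw [h1]; ring)
  have e2 : ∫ U, wt Λ (ww w) U ∂PP (Lk d) μ = (∏ p ∈ Λ, scl m w δ p.2.1 p.2.2) *
      ∫ U, wt Λ (ww (nw m w δ)) U ∂PP (Lk d) μ := by
    rw [← integral_const_mul]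
    exact integral_congr_ae (Eventually.of_forall fun U => h1 U)
  rw [e1, e2, mul_div_mul_left _ _ hpos.ne']

theorem final [TopologicalSpace G] [IsTopologicalGroup G] [CompactSpace G]
    [T2Space G] [SecondCountableTopology G] [BorelSpace G]
    (μ : Measure G) [IsProbabilityMeasure μ] [μ.IsHaarMeasure] {m : Fin d → Fin d}
    (hm : ∀ i, m (m i) = i) {w : Fin d → Fin d → G → ℝ} (hw : IsW w) {δ : ℝ} (hδ : 0 ≤ δ)
    (hflat : ∀ i j, i < j → m i ≠ j → ∀ g h, w i j g ≤ (1 + δ) * w i j h)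
    (hrate : rate d δ ≤ 1 / 2) :
    ∃ ω : ((Lk d → G) → ℝ) → ℝ,
      (∀ F, Obs F → ∀ ε : ℝ, 0 < ε → ∃ n : ℕ, ∀ u v : V d, (∀ i, u i ≤ -(n : ℤ)) →
        (∀ i, (n : ℤ) ≤ v i) → |ex μ (bx u v) (ww w) F - ω F| ≤ ε) ∧
      (∀ F, Obs F → ∀ x, ω (fun U => F (sh x U)) = ω F) ∧
      (∀ F, Obs F → ∀ k, ω (fun U => F (Th k U)) = ω F) ∧
      (∀ F, Obs F → ∀ k, DependsOn F (Hf k) → 0 ≤ ω (fun U => F (Th k U) * F U)) ∧
      (∀ F, Obs F → ∀ k, DependsOn F (Hf k) → ∀ n : ℕ,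
        |ω (fun U => F (Th k U) * F (sh ((n : ℤ) • e k) U)) - ω F ^ 2| ≤
          rate d δ ^ n * (ω (fun U => F (Th k U) * F U) - ω F ^ 2)) := by
  have := haar_right μ
  have := haar_inv μ
  obtain ⟨C, hW⟩ := nw_WH hm hδ hw hflat hrate
  have hcl : ∀ i j g h, nw m w δ i j (h * g * h⁻¹) = nw m w δ i j g := fun i j g h => by
    unfold nw; rw [hw.cls]
  have hinv : ∀ i j g, nw m w δ i j g⁻¹ = nw m w δ i j g := fun i j g => by
    unfold nw; rw [hw.inv]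
  refine ⟨om μ (ww (nw m w δ)), ?_, ?_, ?_, ?_, ?_⟩
  · intro F hF ε hε
    obtain ⟨n, hn⟩ := om_box μ hW hF ε hε
    refine ⟨n, fun u v hu hv => ?_⟩
    rw [ex_nw μ (m := m) hδ hw]
    exact hn u v hu hv
  · exact fun F hF x => om_sh μ hW hF x
  · exact fun F hF k => om_Th μ hW hcl hinv hF k
  · exact fun F hF k hd => om_rp μ hW hcl hinv hF k hd
  · intro F hF k hd n
    rw [rate_eq]
    exact om_gap μ hW hcl hinv hF k hd n

end Pool.Agent.T2H03.YM
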